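import Pool.Agent.helper14.NS.Q100g.PN4

/-!
Generated: certificates.
-/

namespace Pool.Agent.helper14.NS.Q100g

open Pool.Agent.helper31.IA (Z)
open Pool.Agent.helper31.IX (Op XOps runX Cov CovD cov_split covD_split)
open Pool.Agent.helper31.IC (TD)
open Pool.Agent.helper63.RG (reloc)
open Pool.Agent.helper63.NF hiding TD
open Pool.Agent.helper4.NS
open Pool.Agent.helper14.CF (xE covD_E)
open Pool.Agent.helper14.NR (share)

mutual
theorem A4_c0_t4 : CovD 1 gA4 [(7787773952, 458227712), (274877906944, 274877906944), (2199023255552, 2199023255552)] :=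
  covD_E kA4_eq (.n 1 (.n 2 (.n 2 (.l 0) (.n 0 (.l 0) (.l 0))) (.n 0 (.n 2 (.l 0) (.l 0)) (.n 2 (.l 0) (.l 0)))) (.n 2 (.n 2 (.l 0) (.l 0)) (.n 2 (.l 0) (.l 0))))
    [(7787773952, 458227712), (274877906944, 274877906944), (2199023255552, 2199023255552)] rfl (by decide +kernel)
theorem A4_c0_t5 : CovD 1 gA4 [(7787773952, 458227712), (824633720832, 274877906944), (2199023255552, 2199023255552)] :=
  covD_E kA4_eq (.n 1 (.n 2 (.n 2 (.l 0) (.l 0)) (.n 2 (.l 0) (.l 0))) (.n 2 (.n 2 (.l 0) (.l 0)) (.n 2 (.l 0) (.l 0))))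
    [(7787773952, 458227712), (824633720832, 274877906944), (2199023255552, 2199023255552)] rfl (by decide +kernel)
end

mutual
theorem A4_c0_t6 : CovD 1 gA4 [(8704229376, 458227712), (549755813888, 549755813888), (2199023255552, 2199023255552)] :=
  covD_E kA4_eq (.n 1 (.n 1 (.n 2 (.n 2 (.l 0) (.l 0)) (.n 2 (.l 0) (.l 0))) (.n 2 (.n 2 (.l 0) (.l 0)) (.n 2 (.l 0) (.l 0)))) (.n 1 (.n 2 (.n 2 (.l 0) (.l 0)) (.n 2 (.l 0) (.l 0))) (.n 2 (.n 2 (.l 0) (.l 0)) (.n 2 (.l 0) (.l 0)))))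
    [(8704229376, 458227712), (549755813888, 549755813888), (2199023255552, 2199023255552)] rfl (by decide +kernel)
theorem A4_c0_t8 : CovD 1 gA4 [(10078912512, 916455424), (274877906944, 274877906944), (2199023255552, 2199023255552)] :=
  covD_E kA4_eq (.n 1 (.n 0 (.n 2 (.n 2 (.l 0) (.l 0)) (.n 2 (.l 0) (.l 0))) (.n 2 (.n 2 (.l 0) (.l 0)) (.n 2 (.l 0) (.l 0)))) (.n 2 (.n 2 (.l 0) (.l 0)) (.n 2 (.l 0) (.n 0 (.l 0) (.l 0)))))
    [(10078912512, 916455424), (274877906944, 274877906944), (2199023255552, 2199023255552)] rfl (by decide +kernel)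
end

mutual
theorem A4_c0_t9 : CovD 1 gA4 [(10078912512, 916455424), (824633720832, 274877906944), (2199023255552, 2199023255552)] :=
  covD_E kA4_eq (.n 2 (.n 1 (.n 2 (.l 0) (.l 0)) (.n 2 (.l 0) (.l 0))) (.n 2 (.n 1 (.l 0) (.l 0)) (.n 0 (.n 1 (.l 0) (.l 0)) (.l 0))))
    [(10078912512, 916455424), (824633720832, 274877906944), (2199023255552, 2199023255552)] rfl (by decide +kernel)
theorem A4_c0_t15 : CovD 1 gA4 [(7558660096, 229113856), (274877906944, 274877906944), (5497558138880, 1099511627776)] :=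
  covD_E kA4_eq (.n 1 (.n 2 (.l 0) (.n 2 (.n 0 (.n 0 (.n 2 (.l 0) (.l 0)) (.l 0)) (.l 0)) (.n 2 (.n 1 (.l 1) (.n 0 (.l 0) (.l 0))) (.l 1)))) (.n 2 (.l 0) (.n 2 (.l 0) (.n 2 (.l 0) (.l 0)))))
    [(7558660096, 229113856), (274877906944, 274877906944), (5497558138880, 1099511627776)] rfl (by decide +kernel)
end

mutual
theorem A4_c0_t16 : CovD 1 gA4 [(8016887808, 229113856), (274877906944, 274877906944), (5497558138880, 1099511627776)] :=
  covD_E kA4_eq (.n 1 (.n 2 (.l 0) (.n 2 (.l 0) (.n 1 (.n 2 (.n 2 (.l 0) (.l 1)) (.l 1)) (.n 0 (.n 2 (.l 0) (.l 1)) (.l 0))))) (.n 2 (.l 0) (.l 0)))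
    [(8016887808, 229113856), (274877906944, 274877906944), (5497558138880, 1099511627776)] rfl (by decide +kernel)
theorem A4_c0_t17 : CovD 1 gA4 [(7787773952, 458227712), (274877906944, 274877906944), (7696581394432, 1099511627776)] :=
  covD_E kA4_eq (.n 2 (.n 0 (.n 1 (.l 1) (.n 2 (.n 1 (.l 1) (.n 2 (.l 0) (.l 1))) (.l 1))) (.n 2 (.n 1 (.l 1) (.n 0 (.n 1 (.l 1) (.l 0)) (.n 2 (.l 0) (.l 1)))) (.l 1))) (.l 1))
    [(7787773952, 458227712), (274877906944, 274877906944), (7696581394432, 1099511627776)] rfl (by decide +kernel)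
end

mutual
theorem A4_c0_t19 : CovD 1 gA4 [(7787773952, 458227712), (687194767360, 137438953472), (6597069766656, 2199023255552)] :=
  covD_E kA4_eq (.n 2 (.n 2 (.l 0) (.l 0)) (.n 0 (.n 2 (.n 2 (.l 0) (.n 1 (.l 1) (.n 0 (.l 0) (.l 0)))) (.l 1)) (.n 2 (.n 2 (.l 0) (.n 2 (.l 0) (.l 1))) (.l 1))))
    [(7787773952, 458227712), (687194767360, 137438953472), (6597069766656, 2199023255552)] rfl (by decide +kernel)
theorem A4_c0_t20 : CovD 1 gA4 [(7787773952, 458227712), (962072674304, 137438953472), (6597069766656, 2199023255552)] :=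
  covD_E kA4_eq (.n 2 (.n 2 (.l 0) (.l 0)) (.n 2 (.l 0) (.n 2 (.n 1 (.n 2 (.l 0) (.l 1)) (.l 0)) (.n 0 (.l 1) (.l 1)))))
    [(7787773952, 458227712), (962072674304, 137438953472), (6597069766656, 2199023255552)] rfl (by decide +kernel)
end

mutual
theorem A4_c0_t23 : CovD 1 gA4 [(8704229376, 458227712), (274877906944, 274877906944), (5497558138880, 1099511627776)] :=
  covD_E kA4_eq (.n 1 (.n 2 (.l 0) (.n 2 (.l 0) (.n 0 (.n 1 (.n 2 (.l 0) (.l 1)) (.l 0)) (.l 0)))) (.n 2 (.l 0) (.l 0)))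
    [(8704229376, 458227712), (274877906944, 274877906944), (5497558138880, 1099511627776)] rfl (by decide +kernel)
theorem A4_c0_t24 : CovD 1 gA4 [(8704229376, 458227712), (274877906944, 274877906944), (7696581394432, 1099511627776)] :=
  covD_E kA4_eq (.n 2 (.n 1 (.n 2 (.n 2 (.n 0 (.l 1) (.n 1 (.l 1) (.l 0))) (.l 1)) (.l 1)) (.n 0 (.n 2 (.n 1 (.n 2 (.l 0) (.l 1)) (.l 0)) (.l 1)) (.n 2 (.l 0) (.n 0 (.l 1) (.l 1))))) (.l 1))
    [(8704229376, 458227712), (274877906944, 274877906944), (7696581394432, 1099511627776)] rfl (by decide +kernel)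
end

mutual
theorem A4_c0_t25 : CovD 1 gA4 [(8704229376, 458227712), (824633720832, 274877906944), (6597069766656, 2199023255552)] :=
  covD_E kA4_eq (.n 1 (.n 2 (.n 2 (.l 0) (.l 0)) (.n 2 (.n 1 (.n 2 (.l 0) (.n 2 (.l 0) (.l 1))) (.l 0)) (.n 2 (.n 0 (.l 1) (.l 1)) (.l 1)))) (.n 2 (.n 2 (.l 0) (.l 0)) (.n 2 (.l 0) (.n 0 (.n 2 (.l 0) (.l 1)) (.n 2 (.l 0) (.l 1))))))
    [(8704229376, 458227712), (824633720832, 274877906944), (6597069766656, 2199023255552)] rfl (by decide +kernel)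
theorem A4_c0_t28 : CovD 1 gA4 [(10078912512, 916455424), (274877906944, 274877906944), (5497558138880, 1099511627776)] :=
  covD_E kA4_eq (.n 0 (.n 1 (.n 2 (.l 0) (.l 0)) (.n 2 (.l 0) (.l 0))) (.n 0 (.n 2 (.l 0) (.l 0)) (.n 2 (.l 0) (.l 0))))
    [(10078912512, 916455424), (274877906944, 274877906944), (5497558138880, 1099511627776)] rfl (by decide +kernel)
end

mutual
theorem A4_c0_t29 : CovD 1 gA4 [(10078912512, 916455424), (274877906944, 274877906944), (7696581394432, 1099511627776)] :=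
  covD_E kA4_eq (.n 2 (.n 0 (.n 1 (.n 2 (.n 0 (.n 2 (.l 0) (.l 1)) (.l 0)) (.l 1)) (.n 2 (.l 0) (.n 2 (.n 0 (.l 0) (.l 0)) (.l 1)))) (.n 2 (.l 0) (.n 1 (.n 2 (.l 0) (.l 1)) (.l 0)))) (.n 2 (.n 0 (.l 1) (.n 0 (.l 1) (.l 1))) (.l 1)))
    [(10078912512, 916455424), (274877906944, 274877906944), (7696581394432, 1099511627776)] rfl (by decide +kernel)
theorem A4_c0_t31 : CovD 1 gA4 [(9620684800, 458227712), (824633720832, 274877906944), (6597069766656, 2199023255552)] :=
  covD_E kA4_eq (.n 1 (.n 2 (.n 2 (.l 0) (.l 0)) (.n 2 (.l 0) (.n 2 (.n 0 (.l 1) (.l 0)) (.l 1)))) (.n 2 (.n 2 (.l 0) (.l 0)) (.n 2 (.l 0) (.n 2 (.l 0) (.n 0 (.l 1) (.l 0))))))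
    [(9620684800, 458227712), (824633720832, 274877906944), (6597069766656, 2199023255552)] rfl (by decide +kernel)
end

mutual
theorem A4_c0_t32 : CovD 1 gA4 [(10537140224, 458227712), (824633720832, 274877906944), (6597069766656, 2199023255552)] :=
  covD_E kA4_eq (.n 2 (.n 2 (.l 0) (.l 0)) (.n 2 (.l 0) (.n 2 (.l 0) (.n 1 (.l 1) (.l 0)))))
    [(10537140224, 458227712), (824633720832, 274877906944), (6597069766656, 2199023255552)] rfl (by decide +kernel)
theorem B4_c0_t2 : CovD 1 gB4 [(8246001664, 916455424), (549755813888, 549755813888), (34359738368, 34359738368)] :=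
  covD_E kB4_eq (.n 2 (.n 2 (.n 2 (.n 2 (.l 1) (.l 1)) (.n 2 (.l 1) (.l 1))) (.n 2 (.n 2 (.l 1) (.l 1)) (.l 1))) (.n 2 (.n 2 (.l 1) (.l 1)) (.n 0 (.l 1) (.l 1))))
    [(8246001664, 916455424), (549755813888, 549755813888), (34359738368, 34359738368)] rfl (by decide +kernel)
end

mutual
theorem B4_c0_t3 : CovD 1 gB4 [(8246001664, 916455424), (549755813888, 549755813888), (103079215104, 34359738368)] :=
  covD_E kB4_eq (.n 1 (.n 2 (.n 2 (.l 1) (.l 1)) (.n 2 (.l 1) (.l 1))) (.n 2 (.n 2 (.l 1) (.l 1)) (.n 1 (.n 2 (.l 1) (.l 1)) (.n 2 (.l 1) (.n 0 (.l 1) (.l 1))))))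
    [(8246001664, 916455424), (549755813888, 549755813888), (103079215104, 34359738368)] rfl (by decide +kernel)
theorem B4_c0_t5 : CovD 1 gB4 [(10078912512, 916455424), (549755813888, 549755813888), (34359738368, 34359738368)] :=
  covD_E kB4_eq (.n 2 (.n 2 (.n 2 (.n 2 (.l 1) (.l 1)) (.n 0 (.l 1) (.l 1))) (.n 2 (.n 0 (.l 1) (.l 1)) (.l 1))) (.n 2 (.n 2 (.l 1) (.l 1)) (.l 1)))
    [(10078912512, 916455424), (549755813888, 549755813888), (34359738368, 34359738368)] rfl (by decide +kernel)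
end

mutual
theorem B4_c0_t6 : CovD 1 gB4 [(10078912512, 916455424), (549755813888, 549755813888), (103079215104, 34359738368)] :=
  covD_E kB4_eq (.n 2 (.n 2 (.l 1) (.l 1)) (.n 1 (.n 2 (.l 1) (.l 1)) (.n 2 (.l 1) (.n 1 (.l 1) (.n 0 (.l 1) (.l 1))))))
    [(10078912512, 916455424), (549755813888, 549755813888), (103079215104, 34359738368)] rfl (by decide +kernel)
theorem D4_c0_t4 : CovD 1 gD4 [(7787773952, 458227712), (137438953472, 137438953472), (863610339328, 863610339328)] :=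
  covD_E kD4_eq (.n 1 (.n 2 (.n 2 (.n 2 (.l 0) (.l 0)) (.n 2 (.l 0) (.l 0))) (.n 2 (.n 2 (.l 0) (.l 0)) (.n 2 (.l 0) (.l 0)))) (.n 2 (.n 2 (.n 2 (.l 0) (.l 0)) (.n 2 (.l 0) (.l 0))) (.n 2 (.n 2 (.l 0) (.l 0)) (.n 2 (.l 0) (.l 0)))))
    [(7787773952, 458227712), (137438953472, 137438953472), (863610339328, 863610339328)] rfl (by decide +kernel)
end

mutual
theorem D4_c0_t6 : CovD 1 gD4 [(7787773952, 458227712), (343597383680, 68719476736), (863610339328, 863610339328)] :=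
  covD_E kD4_eq (.n 2 (.n 2 (.n 2 (.l 0) (.l 0)) (.n 2 (.l 0) (.l 0))) (.n 2 (.n 2 (.l 0) (.l 0)) (.n 2 (.l 0) (.l 0))))
    [(7787773952, 458227712), (343597383680, 68719476736), (863610339328, 863610339328)] rfl (by decide +kernel)
theorem D4_c0_t7 : CovD 1 gD4 [(7787773952, 458227712), (481036337152, 68719476736), (863610339328, 863610339328)] :=
  covD_E kD4_eq (.n 2 (.n 2 (.n 2 (.l 0) (.n 0 (.l 0) (.l 0))) (.n 0 (.n 2 (.l 0) (.l 0)) (.n 2 (.l 0) (.l 0)))) (.n 0 (.n 2 (.n 2 (.l 0) (.l 0)) (.n 2 (.l 0) (.l 0))) (.n 2 (.n 2 (.l 0) (.l 0)) (.n 2 (.l 0) (.l 0)))))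
    [(7787773952, 458227712), (481036337152, 68719476736), (863610339328, 863610339328)] rfl (by decide +kernel)
end

mutual
theorem D4_c0_t10 : CovD 1 gD4 [(7558660096, 229113856), (687194767360, 137438953472), (863610339328, 863610339328)] :=
  covD_E kD4_eq (.n 1 (.n 2 (.n 2 (.n 2 (.l 0) (.l 0)) (.n 2 (.l 0) (.l 0))) (.n 2 (.n 2 (.l 0) (.l 0)) (.n 2 (.l 0) (.l 0)))) (.n 2 (.n 2 (.n 2 (.l 0) (.l 0)) (.n 2 (.l 0) (.l 0))) (.n 2 (.n 2 (.l 0) (.l 0)) (.n 2 (.l 0) (.l 0)))))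
    [(7558660096, 229113856), (687194767360, 137438953472), (863610339328, 863610339328)] rfl (by decide +kernel)
theorem D4_c0_t12 : CovD 1 gD4 [(7558660096, 229113856), (893353197568, 68719476736), (863610339328, 863610339328)] :=
  covD_E kD4_eq (.n 2 (.n 2 (.n 2 (.l 0) (.l 0)) (.n 2 (.l 0) (.l 0))) (.n 2 (.n 2 (.l 0) (.l 0)) (.n 2 (.l 0) (.n 0 (.l 0) (.l 0)))))
    [(7558660096, 229113856), (893353197568, 68719476736), (863610339328, 863610339328)] rfl (by decide +kernel)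
end

mutual
theorem D4_c0_t13 : CovD 1 gD4 [(7558660096, 229113856), (1030792151040, 68719476736), (863610339328, 863610339328)] :=
  covD_E kD4_eq (.n 0 (.n 2 (.n 2 (.n 2 (.l 0) (.l 0)) (.n 2 (.l 0) (.l 0))) (.n 2 (.n 2 (.l 0) (.l 0)) (.n 2 (.l 0) (.l 0)))) (.n 2 (.n 2 (.n 2 (.l 0) (.l 0)) (.n 2 (.l 0) (.l 0))) (.n 2 (.n 2 (.l 0) (.l 0)) (.n 2 (.l 0) (.l 0)))))
    [(7558660096, 229113856), (1030792151040, 68719476736), (863610339328, 863610339328)] rfl (by decide +kernel)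
theorem D4_c0_t15 : CovD 1 gD4 [(8016887808, 229113856), (687194767360, 137438953472), (863610339328, 863610339328)] :=
  covD_E kD4_eq (.n 1 (.n 2 (.n 2 (.n 2 (.l 0) (.l 0)) (.n 2 (.l 0) (.l 0))) (.n 2 (.n 2 (.l 0) (.l 0)) (.n 2 (.l 0) (.l 0)))) (.n 2 (.n 2 (.n 2 (.l 0) (.l 0)) (.n 2 (.l 0) (.l 0))) (.n 2 (.n 2 (.l 0) (.l 0)) (.n 2 (.l 0) (.l 0)))))
    [(8016887808, 229113856), (687194767360, 137438953472), (863610339328, 863610339328)] rfl (by decide +kernel)
end

mutual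
theorem D4_c0_t16 : CovD 1 gD4 [(8016887808, 229113856), (962072674304, 137438953472), (863610339328, 863610339328)] :=
  covD_E kD4_eq (.n 1 (.n 2 (.n 2 (.n 2 (.l 0) (.l 0)) (.n 2 (.l 0) (.l 0))) (.n 2 (.n 2 (.l 0) (.l 0)) (.n 2 (.l 0) (.l 0)))) (.n 2 (.n 2 (.n 2 (.l 0) (.l 0)) (.n 2 (.l 0) (.l 0))) (.n 2 (.n 2 (.l 0) (.l 0)) (.n 2 (.l 0) (.l 0)))))
    [(8016887808, 229113856), (962072674304, 137438953472), (863610339328, 863610339328)] rfl (by decide +kernel)
theorem D4_c0_t19 : CovD 1 gD4 [(8704229376, 458227712), (137438953472, 137438953472), (863610339328, 863610339328)] :=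
  covD_E kD4_eq (.n 2 (.n 2 (.n 2 (.l 0) (.l 0)) (.n 2 (.l 0) (.l 0))) (.n 2 (.n 2 (.l 0) (.l 0)) (.n 2 (.l 0) (.n 0 (.l 0) (.l 0)))))
    [(8704229376, 458227712), (137438953472, 137438953472), (863610339328, 863610339328)] rfl (by decide +kernel)
end

mutual
theorem D4_c0_t20 : CovD 1 gD4 [(8704229376, 458227712), (412316860416, 137438953472), (863610339328, 863610339328)] :=
  covD_E kD4_eq (.n 1 (.n 2 (.n 2 (.n 2 (.l 0) (.l 0)) (.n 2 (.l 0) (.l 0))) (.n 2 (.n 2 (.l 0) (.l 0)) (.n 2 (.l 0) (.l 0)))) (.n 2 (.n 2 (.n 2 (.l 0) (.l 0)) (.n 2 (.l 0) (.l 0))) (.n 2 (.n 2 (.l 0) (.l 0)) (.n 2 (.l 0) (.l 0)))))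
    [(8704229376, 458227712), (412316860416, 137438953472), (863610339328, 863610339328)] rfl (by decide +kernel)
theorem D4_c0_t23 : CovD 1 gD4 [(8475115520, 229113856), (687194767360, 137438953472), (863610339328, 863610339328)] :=
  covD_E kD4_eq (.n 1 (.n 2 (.n 2 (.n 2 (.l 0) (.l 0)) (.n 2 (.l 0) (.l 0))) (.n 2 (.n 2 (.l 0) (.l 0)) (.n 2 (.l 0) (.l 0)))) (.n 2 (.n 2 (.n 2 (.l 0) (.l 0)) (.n 2 (.l 0) (.l 0))) (.n 2 (.n 2 (.l 0) (.l 0)) (.n 2 (.l 0) (.l 0)))))
    [(8475115520, 229113856), (687194767360, 137438953472), (863610339328, 863610339328)] rfl (by decide +kernel)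
end

mutual
theorem D4_c0_t24 : CovD 1 gD4 [(8475115520, 229113856), (962072674304, 137438953472), (863610339328, 863610339328)] :=
  covD_E kD4_eq (.n 1 (.n 2 (.n 2 (.n 2 (.l 0) (.l 0)) (.n 2 (.l 0) (.l 0))) (.n 2 (.n 2 (.l 0) (.l 0)) (.n 2 (.l 0) (.l 0)))) (.n 2 (.n 2 (.n 2 (.l 0) (.l 0)) (.n 2 (.l 0) (.l 0))) (.n 2 (.n 2 (.l 0) (.l 0)) (.n 2 (.l 0) (.l 0)))))
    [(8475115520, 229113856), (962072674304, 137438953472), (863610339328, 863610339328)] rfl (by decide +kernel)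
theorem D4_c0_t26 : CovD 1 gD4 [(8933343232, 229113856), (687194767360, 137438953472), (863610339328, 863610339328)] :=
  covD_E kD4_eq (.n 2 (.n 2 (.n 2 (.l 0) (.l 0)) (.n 2 (.l 0) (.l 0))) (.n 2 (.n 2 (.l 0) (.l 0)) (.n 2 (.l 0) (.n 0 (.l 0) (.l 0)))))
    [(8933343232, 229113856), (687194767360, 137438953472), (863610339328, 863610339328)] rfl (by decide +kernel)
end

mutual
theorem D4_c0_t27 : CovD 1 gD4 [(8933343232, 229113856), (962072674304, 137438953472), (863610339328, 863610339328)] :=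
  covD_E kD4_eq (.n 0 (.n 2 (.n 2 (.n 2 (.l 0) (.l 0)) (.n 2 (.l 0) (.l 0))) (.n 2 (.n 2 (.l 0) (.l 0)) (.n 2 (.l 0) (.l 0)))) (.n 2 (.n 2 (.n 2 (.l 0) (.l 0)) (.n 2 (.l 0) (.l 0))) (.n 2 (.n 2 (.l 0) (.l 0)) (.n 2 (.l 0) (.l 0)))))
    [(8933343232, 229113856), (962072674304, 137438953472), (863610339328, 863610339328)] rfl (by decide +kernel)
theorem D4_c0_t30 : CovD 1 gD4 [(9620684800, 458227712), (274877906944, 274877906944), (863610339328, 863610339328)] :=
  covD_E kD4_eq (.n 1 (.n 2 (.n 2 (.n 1 (.l 0) (.l 0)) (.n 2 (.l 0) (.l 0))) (.n 2 (.n 2 (.l 0) (.l 0)) (.n 2 (.l 0) (.l 0)))) (.n 2 (.n 2 (.n 2 (.l 0) (.l 0)) (.n 2 (.l 0) (.l 0))) (.n 2 (.n 2 (.l 0) (.l 0)) (.n 2 (.l 0) (.l 0)))))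
    [(9620684800, 458227712), (274877906944, 274877906944), (863610339328, 863610339328)] rfl (by decide +kernel)
end

mutual
theorem D4_c0_t32 : CovD 1 gD4 [(9391570944, 229113856), (824633720832, 274877906944), (863610339328, 863610339328)] :=
  covD_E kD4_eq (.n 1 (.n 2 (.n 2 (.n 2 (.l 0) (.l 0)) (.n 2 (.l 0) (.l 0))) (.n 2 (.n 2 (.l 0) (.l 0)) (.n 2 (.l 0) (.l 0)))) (.n 2 (.n 2 (.n 2 (.l 0) (.l 0)) (.n 2 (.l 0) (.l 0))) (.n 2 (.n 2 (.l 0) (.l 0)) (.n 2 (.l 0) (.l 0)))))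
    [(9391570944, 229113856), (824633720832, 274877906944), (863610339328, 863610339328)] rfl (by decide +kernel)
theorem D4_c0_t33 : CovD 1 gD4 [(9849798656, 229113856), (824633720832, 274877906944), (863610339328, 863610339328)] :=
  covD_E kD4_eq (.n 1 (.n 2 (.n 2 (.n 2 (.l 0) (.l 0)) (.n 2 (.l 0) (.l 0))) (.n 2 (.n 2 (.l 0) (.l 0)) (.n 2 (.l 0) (.l 0)))) (.n 2 (.n 2 (.n 2 (.l 0) (.l 0)) (.n 2 (.l 0) (.l 0))) (.n 2 (.n 2 (.l 0) (.l 0)) (.n 2 (.l 0) (.l 0)))))
    [(9849798656, 229113856), (824633720832, 274877906944), (863610339328, 863610339328)] rfl (by decide +kernel)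
end

mutual
theorem D4_c0_t35 : CovD 1 gD4 [(10537140224, 458227712), (274877906944, 274877906944), (863610339328, 863610339328)] :=
  covD_E kD4_eq (.n 1 (.n 2 (.n 1 (.n 2 (.l 0) (.l 0)) (.n 2 (.l 0) (.l 0))) (.n 2 (.n 1 (.l 0) (.l 0)) (.n 2 (.l 0) (.l 0)))) (.n 2 (.n 2 (.n 1 (.l 0) (.l 0)) (.n 2 (.l 0) (.l 0))) (.n 2 (.n 2 (.l 0) (.l 0)) (.n 2 (.l 0) (.l 0)))))
    [(10537140224, 458227712), (274877906944, 274877906944), (863610339328, 863610339328)] rfl (by decide +kernel)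
theorem D4_c0_t37 : CovD 1 gD4 [(10537140224, 458227712), (687194767360, 137438953472), (863610339328, 863610339328)] :=
  covD_E kD4_eq (.n 2 (.n 2 (.n 2 (.l 0) (.l 0)) (.n 2 (.l 0) (.l 0))) (.n 2 (.n 2 (.l 0) (.l 0)) (.n 2 (.l 0) (.l 0))))
    [(10537140224, 458227712), (687194767360, 137438953472), (863610339328, 863610339328)] rfl (by decide +kernel)
end

theorem D4_c0_t38 : CovD 1 gD4 [(10537140224, 458227712), (962072674304, 137438953472), (863610339328, 863610339328)] :=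
  covD_E kD4_eq (.n 2 (.n 2 (.n 2 (.l 0) (.l 0)) (.n 2 (.l 0) (.l 0))) (.n 2 (.n 2 (.l 0) (.l 0)) (.n 2 (.l 0) (.n 0 (.l 0) (.l 0)))))
    [(10537140224, 458227712), (962072674304, 137438953472), (863610339328, 863610339328)] rfl (by decide +kernel)

theorem A4_c0_t3 : CovD 1 gA4 [(7787773952, 458227712), (549755813888, 549755813888), (2199023255552, 2199023255552)] :=
  covD_split 1 (by decide +kernel) A4_c0_t4 A4_c0_t5

theorem A4_c0_t2 : CovD 1 gA4 [(8246001664, 916455424), (549755813888, 549755813888), (2199023255552, 2199023255552)] :=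
  covD_split 0 (by decide +kernel) A4_c0_t3 A4_c0_t6

theorem A4_c0_t7 : CovD 1 gA4 [(10078912512, 916455424), (549755813888, 549755813888), (2199023255552, 2199023255552)] :=
  covD_split 1 (by decide +kernel) A4_c0_t8 A4_c0_t9

theorem A4_c0_t1 : CovD 1 gA4 [(9162457088, 1832910848), (549755813888, 549755813888), (2199023255552, 2199023255552)] :=
  covD_split 0 (by decide +kernel) A4_c0_t2 A4_c0_t7

theorem A4_c0_t14 : CovD 1 gA4 [(7787773952, 458227712), (274877906944, 274877906944), (5497558138880, 1099511627776)] :=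
  covD_split 0 (by decide +kernel) A4_c0_t15 A4_c0_t16

theorem A4_c0_t13 : CovD 1 gA4 [(7787773952, 458227712), (274877906944, 274877906944), (6597069766656, 2199023255552)] :=
  covD_split 2 (by decide +kernel) A4_c0_t14 A4_c0_t17

theorem A4_c0_t18 : CovD 1 gA4 [(7787773952, 458227712), (824633720832, 274877906944), (6597069766656, 2199023255552)] :=
  covD_split 1 (by decide +kernel) A4_c0_t19 A4_c0_t20

theorem A4_c0_t12 : CovD 1 gA4 [(7787773952, 458227712), (549755813888, 549755813888), (6597069766656, 2199023255552)] :=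
  covD_split 1 (by decide +kernel) A4_c0_t13 A4_c0_t18

theorem A4_c0_t22 : CovD 1 gA4 [(8704229376, 458227712), (274877906944, 274877906944), (6597069766656, 2199023255552)] :=
  covD_split 2 (by decide +kernel) A4_c0_t23 A4_c0_t24

theorem A4_c0_t21 : CovD 1 gA4 [(8704229376, 458227712), (549755813888, 549755813888), (6597069766656, 2199023255552)] :=
  covD_split 1 (by decide +kernel) A4_c0_t22 A4_c0_t25

theorem A4_c0_t11 : CovD 1 gA4 [(8246001664, 916455424), (549755813888, 549755813888), (6597069766656, 2199023255552)] :=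
  covD_split 0 (by decide +kernel) A4_c0_t12 A4_c0_t21

theorem A4_c0_t27 : CovD 1 gA4 [(10078912512, 916455424), (274877906944, 274877906944), (6597069766656, 2199023255552)] :=
  covD_split 2 (by decide +kernel) A4_c0_t28 A4_c0_t29

theorem A4_c0_t30 : CovD 1 gA4 [(10078912512, 916455424), (824633720832, 274877906944), (6597069766656, 2199023255552)] :=
  covD_split 0 (by decide +kernel) A4_c0_t31 A4_c0_t32

theorem A4_c0_t26 : CovD 1 gA4 [(10078912512, 916455424), (549755813888, 549755813888), (6597069766656, 2199023255552)] :=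
  covD_split 1 (by decide +kernel) A4_c0_t27 A4_c0_t30

theorem A4_c0_t10 : CovD 1 gA4 [(9162457088, 1832910848), (549755813888, 549755813888), (6597069766656, 2199023255552)] :=
  covD_split 0 (by decide +kernel) A4_c0_t11 A4_c0_t26

theorem A4_c0 : CovD 1 gA4 [(9162457088, 1832910848), (549755813888, 549755813888), (4398046511104, 4398046511104)] :=
  covD_split 2 (by decide +kernel) A4_c0_t1 A4_c0_t10

theorem B4_c0_t1 : CovD 1 gB4 [(8246001664, 916455424), (549755813888, 549755813888), (68719476736, 68719476736)] :=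
  covD_split 2 (by decide +kernel) B4_c0_t2 B4_c0_t3

theorem B4_c0_t4 : CovD 1 gB4 [(10078912512, 916455424), (549755813888, 549755813888), (68719476736, 68719476736)] :=
  covD_split 2 (by decide +kernel) B4_c0_t5 B4_c0_t6

theorem B4_c0 : CovD 1 gB4 [(9162457088, 1832910848), (549755813888, 549755813888), (68719476736, 68719476736)] :=
  covD_split 0 (by decide +kernel) B4_c0_t1 B4_c0_t4

theorem D4_c0_t5 : CovD 1 gD4 [(7787773952, 458227712), (412316860416, 137438953472), (863610339328, 863610339328)] :=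
  covD_split 1 (by decide +kernel) D4_c0_t6 D4_c0_t7

theorem D4_c0_t3 : CovD 1 gD4 [(7787773952, 458227712), (274877906944, 274877906944), (863610339328, 863610339328)] :=
  covD_split 1 (by decide +kernel) D4_c0_t4 D4_c0_t5

theorem D4_c0_t11 : CovD 1 gD4 [(7558660096, 229113856), (962072674304, 137438953472), (863610339328, 863610339328)] :=
  covD_split 1 (by decide +kernel) D4_c0_t12 D4_c0_t13

theorem D4_c0_t9 : CovD 1 gD4 [(7558660096, 229113856), (824633720832, 274877906944), (863610339328, 863610339328)] :=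
  covD_split 1 (by decide +kernel) D4_c0_t10 D4_c0_t11

theorem D4_c0_t14 : CovD 1 gD4 [(8016887808, 229113856), (824633720832, 274877906944), (863610339328, 863610339328)] :=
  covD_split 1 (by decide +kernel) D4_c0_t15 D4_c0_t16

theorem D4_c0_t8 : CovD 1 gD4 [(7787773952, 458227712), (824633720832, 274877906944), (863610339328, 863610339328)] :=
  covD_split 0 (by decide +kernel) D4_c0_t9 D4_c0_t14

theorem D4_c0_t2 : CovD 1 gD4 [(7787773952, 458227712), (549755813888, 549755813888), (863610339328, 863610339328)] :=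
  covD_split 1 (by decide +kernel) D4_c0_t3 D4_c0_t8

theorem D4_c0_t18 : CovD 1 gD4 [(8704229376, 458227712), (274877906944, 274877906944), (863610339328, 863610339328)] :=
  covD_split 1 (by decide +kernel) D4_c0_t19 D4_c0_t20

theorem D4_c0_t22 : CovD 1 gD4 [(8475115520, 229113856), (824633720832, 274877906944), (863610339328, 863610339328)] :=
  covD_split 1 (by decide +kernel) D4_c0_t23 D4_c0_t24

theorem D4_c0_t25 : CovD 1 gD4 [(8933343232, 229113856), (824633720832, 274877906944), (863610339328, 863610339328)] :=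
  covD_split 1 (by decide +kernel) D4_c0_t26 D4_c0_t27

theorem D4_c0_t21 : CovD 1 gD4 [(8704229376, 458227712), (824633720832, 274877906944), (863610339328, 863610339328)] :=
  covD_split 0 (by decide +kernel) D4_c0_t22 D4_c0_t25

theorem D4_c0_t17 : CovD 1 gD4 [(8704229376, 458227712), (549755813888, 549755813888), (863610339328, 863610339328)] :=
  covD_split 1 (by decide +kernel) D4_c0_t18 D4_c0_t21

theorem D4_c0_t1 : CovD 1 gD4 [(8246001664, 916455424), (549755813888, 549755813888), (863610339328, 863610339328)] :=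
  covD_split 0 (by decide +kernel) D4_c0_t2 D4_c0_t17

theorem D4_c0_t31 : CovD 1 gD4 [(9620684800, 458227712), (824633720832, 274877906944), (863610339328, 863610339328)] :=
  covD_split 0 (by decide +kernel) D4_c0_t32 D4_c0_t33

theorem D4_c0_t29 : CovD 1 gD4 [(9620684800, 458227712), (549755813888, 549755813888), (863610339328, 863610339328)] :=
  covD_split 1 (by decide +kernel) D4_c0_t30 D4_c0_t31

theorem D4_c0_t36 : CovD 1 gD4 [(10537140224, 458227712), (824633720832, 274877906944), (863610339328, 863610339328)] :=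
  covD_split 1 (by decide +kernel) D4_c0_t37 D4_c0_t38

theorem D4_c0_t34 : CovD 1 gD4 [(10537140224, 458227712), (549755813888, 549755813888), (863610339328, 863610339328)] :=
  covD_split 1 (by decide +kernel) D4_c0_t35 D4_c0_t36

theorem D4_c0_t28 : CovD 1 gD4 [(10078912512, 916455424), (549755813888, 549755813888), (863610339328, 863610339328)] :=
  covD_split 0 (by decide +kernel) D4_c0_t29 D4_c0_t34

theorem D4_c0 : CovD 1 gD4 [(9162457088, 1832910848), (549755813888, 549755813888), (863610339328, 863610339328)] :=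
  covD_split 0 (by decide +kernel) D4_c0_t1 D4_c0_t28

end Pool.Agent.helper14.NS.Q100g
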