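import Pool.Agent.helper14.NS.Q100g.PN4

/-!
Generated: certificates.
-/

namespace Pool.Agent.helper14.NS.Q100g

open Pool.Agent.helper31.IA (Z)
open Pool.Agent.helper31.IX (Op XOps runX Cov CovD cov_split covD_split)
open Pool.Agent.helper31.IC (TD)
open Pool.Agent.helper63.RG (reloc)
open Pool.Agent.helper63.NF hiding TD
open Pool.Agent.helper4.NS
open Pool.Agent.helper14.CF (xE covD_E)
open Pool.Agent.helper14.NR (share)

mutual
theorem E4_c0_t3 : CovD 1 gE4 [(9162457088, 1832910848), (549755813888, 549755813888), (107951292416, 107951292416)] :=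
  covD_E kE4_eq (.n 2 (.n 0 (.n 1 (.n 2 (.l 1) (.l 1)) (.n 2 (.l 1) (.l 1))) (.n 2 (.l 1) (.l 1))) (.n 0 (.n 1 (.n 2 (.l 1) (.n 0 (.l 1) (.l 1))) (.n 2 (.l 1) (.l 1))) (.n 2 (.l 1) (.l 1))))
    [(9162457088, 1832910848), (549755813888, 549755813888), (107951292416, 107951292416)] rfl (by decide +kernel)
theorem E4_c0_t6 : CovD 1 gE4 [(8246001664, 916455424), (549755813888, 549755813888), (269878231040, 53975646208)] :=
  covD_E kE4_eq (.n 1 (.n 1 (.n 2 (.n 0 (.l 0) (.l 0)) (.l 0)) (.n 2 (.n 0 (.l 0) (.l 0)) (.l 0))) (.n 0 (.n 1 (.n 2 (.l 0) (.l 0)) (.n 2 (.l 0) (.l 0))) (.n 2 (.l 1) (.n 1 (.l 0) (.l 0)))))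
    [(8246001664, 916455424), (549755813888, 549755813888), (269878231040, 53975646208)] rfl (by decide +kernel)
end

mutual
theorem E4_c0_t7 : CovD 1 gE4 [(10078912512, 916455424), (549755813888, 549755813888), (269878231040, 53975646208)] :=
  covD_E kE4_eq (.n 0 (.n 2 (.l 1) (.n 1 (.l 0) (.l 0))) (.n 1 (.l 1) (.l 1)))
    [(10078912512, 916455424), (549755813888, 549755813888), (269878231040, 53975646208)] rfl (by decide +kernel)
theorem E4_c0_t9 : CovD 1 gE4 [(8246001664, 916455424), (549755813888, 549755813888), (377829523456, 53975646208)] :=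
  covD_E kE4_eq (.n 1 (.n 1 (.n 2 (.l 0) (.l 0)) (.n 2 (.l 0) (.l 0))) (.n 0 (.n 1 (.n 1 (.l 0) (.l 0)) (.n 2 (.l 0) (.l 0))) (.n 1 (.n 0 (.l 0) (.l 0)) (.n 2 (.l 0) (.l 0)))))
    [(8246001664, 916455424), (549755813888, 549755813888), (377829523456, 53975646208)] rfl (by decide +kernel)
end

mutual
theorem E4_c0_t10 : CovD 1 gE4 [(10078912512, 916455424), (549755813888, 549755813888), (377829523456, 53975646208)] :=
  covD_E kE4_eq (.n 0 (.n 1 (.n 1 (.l 0) (.l 0)) (.n 2 (.l 0) (.l 0))) (.n 1 (.n 0 (.l 0) (.l 0)) (.n 1 (.l 0) (.l 0))))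
    [(10078912512, 916455424), (549755813888, 549755813888), (377829523456, 53975646208)] rfl (by decide +kernel)
theorem E4_c0_t14 : CovD 1 gE4 [(8246001664, 916455424), (549755813888, 549755813888), (485780815872, 53975646208)] :=
  covD_E kE4_eq (.n 1 (.n 1 (.n 2 (.l 0) (.l 0)) (.n 1 (.l 0) (.l 0))) (.n 0 (.n 1 (.n 1 (.l 0) (.l 0)) (.n 2 (.l 0) (.l 0))) (.n 1 (.n 0 (.l 0) (.l 0)) (.n 1 (.l 0) (.l 0)))))
    [(8246001664, 916455424), (549755813888, 549755813888), (485780815872, 53975646208)] rfl (by decide +kernel)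
end

mutual
theorem E4_c0_t15 : CovD 1 gE4 [(10078912512, 916455424), (549755813888, 549755813888), (485780815872, 53975646208)] :=
  covD_E kE4_eq (.n 1 (.n 1 (.l 0) (.l 0)) (.n 0 (.n 1 (.l 0) (.l 0)) (.n 0 (.l 0) (.l 0))))
    [(10078912512, 916455424), (549755813888, 549755813888), (485780815872, 53975646208)] rfl (by decide +kernel)
theorem E4_c0_t17 : CovD 1 gE4 [(8246001664, 916455424), (549755813888, 549755813888), (593732108288, 53975646208)] :=
  covD_E kE4_eq (.n 0 (.n 1 (.n 1 (.l 0) (.n 0 (.l 0) (.l 0))) (.n 1 (.n 1 (.l 0) (.l 0)) (.n 2 (.l 0) (.l 0)))) (.n 1 (.n 1 (.l 0) (.l 0)) (.n 1 (.l 0) (.n 0 (.l 0) (.l 0)))))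
    [(8246001664, 916455424), (549755813888, 549755813888), (593732108288, 53975646208)] rfl (by decide +kernel)
end

mutual
theorem E4_c0_t18 : CovD 1 gE4 [(10078912512, 916455424), (549755813888, 549755813888), (593732108288, 53975646208)] :=
  covD_E kE4_eq (.n 1 (.n 1 (.l 0) (.l 0)) (.n 0 (.n 1 (.l 0) (.l 0)) (.n 0 (.l 0) (.l 0))))
    [(10078912512, 916455424), (549755813888, 549755813888), (593732108288, 53975646208)] rfl (by decide +kernel)
theorem E4_c0_t21 : CovD 1 gE4 [(8246001664, 916455424), (549755813888, 549755813888), (701683400704, 53975646208)] :=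
  covD_E kE4_eq (.n 0 (.n 1 (.n 1 (.l 0) (.n 0 (.l 0) (.l 0))) (.n 1 (.n 1 (.l 0) (.l 0)) (.n 1 (.l 0) (.n 0 (.l 0) (.l 0))))) (.n 1 (.n 1 (.l 0) (.l 0)) (.n 1 (.l 0) (.n 0 (.l 0) (.l 0)))))
    [(8246001664, 916455424), (549755813888, 549755813888), (701683400704, 53975646208)] rfl (by decide +kernel)
end

mutual
theorem E4_c0_t22 : CovD 1 gE4 [(10078912512, 916455424), (549755813888, 549755813888), (701683400704, 53975646208)] :=
  covD_E kE4_eq (.n 1 (.n 1 (.l 0) (.l 0)) (.n 0 (.n 1 (.l 0) (.l 0)) (.n 0 (.l 0) (.l 0))))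
    [(10078912512, 916455424), (549755813888, 549755813888), (701683400704, 53975646208)] rfl (by decide +kernel)
theorem E4_c0_t24 : CovD 1 gE4 [(9162457088, 1832910848), (274877906944, 274877906944), (809634693120, 53975646208)] :=
  covD_E kE4_eq (.n 0 (.n 1 (.n 0 (.l 0) (.l 0)) (.n 1 (.l 0) (.l 0))) (.n 1 (.l 0) (.l 0)))
    [(9162457088, 1832910848), (274877906944, 274877906944), (809634693120, 53975646208)] rfl (by decide +kernel)
end

mutual
theorem E4_c0_t25 : CovD 1 gE4 [(9162457088, 1832910848), (824633720832, 274877906944), (809634693120, 53975646208)] :=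
  covD_E kE4_eq (.n 1 (.n 0 (.n 0 (.n 0 (.l 0) (.l 0)) (.l 0)) (.n 0 (.l 0) (.l 0))) (.n 0 (.n 0 (.n 1 (.l 0) (.l 0)) (.n 0 (.l 0) (.l 0))) (.n 0 (.l 0) (.l 0))))
    [(9162457088, 1832910848), (824633720832, 274877906944), (809634693120, 53975646208)] rfl (by decide +kernel)
theorem E4_c0_t29 : CovD 1 gE4 [(9162457088, 1832910848), (549755813888, 549755813888), (917585985536, 53975646208)] :=
  covD_E kE4_eq (.n 0 (.n 1 (.n 1 (.l 0) (.n 1 (.l 0) (.l 0))) (.n 1 (.n 0 (.n 0 (.l 0) (.l 0)) (.l 0)) (.n 0 (.n 1 (.l 0) (.l 0)) (.n 0 (.l 0) (.l 0))))) (.n 1 (.n 1 (.l 0) (.l 0)) (.n 0 (.n 1 (.l 0) (.l 0)) (.n 0 (.l 0) (.l 0)))))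
    [(9162457088, 1832910848), (549755813888, 549755813888), (917585985536, 53975646208)] rfl (by decide +kernel)
end

mutual
theorem E4_c0_t31 : CovD 1 gE4 [(9162457088, 1832910848), (274877906944, 274877906944), (1025537277952, 53975646208)] :=
  covD_E kE4_eq (.n 1 (.n 0 (.n 0 (.l 0) (.l 0)) (.l 0)) (.n 0 (.n 1 (.l 0) (.l 0)) (.l 0)))
    [(9162457088, 1832910848), (274877906944, 274877906944), (1025537277952, 53975646208)] rfl (by decide +kernel)
theorem E4_c0_t32 : CovD 1 gE4 [(9162457088, 1832910848), (824633720832, 274877906944), (1025537277952, 53975646208)] :=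
  covD_E kE4_eq (.n 1 (.n 0 (.n 0 (.n 1 (.l 0) (.l 0)) (.l 0)) (.n 0 (.l 0) (.l 0))) (.n 0 (.n 0 (.n 0 (.n 0 (.l 0) (.l 0)) (.l 0)) (.n 0 (.l 0) (.l 0))) (.n 0 (.l 0) (.l 0))))
    [(9162457088, 1832910848), (824633720832, 274877906944), (1025537277952, 53975646208)] rfl (by decide +kernel)
end

mutual
theorem E4_c0_t35 : CovD 1 gE4 [(9162457088, 1832910848), (274877906944, 274877906944), (1133488570368, 53975646208)] :=
  covD_E kE4_eq (.n 1 (.n 0 (.n 0 (.l 0) (.l 0)) (.l 0)) (.n 0 (.n 1 (.l 0) (.l 0)) (.l 0)))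
    [(9162457088, 1832910848), (274877906944, 274877906944), (1133488570368, 53975646208)] rfl (by decide +kernel)
theorem E4_c0_t36 : CovD 1 gE4 [(9162457088, 1832910848), (824633720832, 274877906944), (1133488570368, 53975646208)] :=
  covD_E kE4_eq (.n 0 (.n 0 (.n 1 (.n 1 (.l 0) (.l 0)) (.n 0 (.n 0 (.l 0) (.l 0)) (.l 0))) (.n 1 (.l 0) (.n 0 (.l 0) (.l 0)))) (.n 0 (.n 1 (.l 0) (.l 0)) (.n 0 (.l 0) (.l 0))))
    [(9162457088, 1832910848), (824633720832, 274877906944), (1133488570368, 53975646208)] rfl (by decide +kernel)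
end

mutual
theorem E4_c0_t38 : CovD 1 gE4 [(9162457088, 1832910848), (274877906944, 274877906944), (1241439862784, 53975646208)] :=
  covD_E kE4_eq (.n 1 (.n 0 (.n 0 (.l 0) (.l 0)) (.l 0)) (.n 0 (.n 1 (.l 0) (.l 0)) (.l 0)))
    [(9162457088, 1832910848), (274877906944, 274877906944), (1241439862784, 53975646208)] rfl (by decide +kernel)
theorem E4_c0_t39 : CovD 1 gE4 [(9162457088, 1832910848), (824633720832, 274877906944), (1241439862784, 53975646208)] :=
  covD_E kE4_eq (.n 1 (.n 0 (.n 0 (.n 1 (.l 0) (.l 0)) (.l 0)) (.n 0 (.l 0) (.l 0))) (.n 0 (.n 0 (.n 1 (.l 0) (.n 0 (.l 0) (.l 0))) (.n 0 (.l 0) (.l 0))) (.n 0 (.l 0) (.l 0))))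
    [(9162457088, 1832910848), (824633720832, 274877906944), (1241439862784, 53975646208)] rfl (by decide +kernel)
end

mutual
theorem E4_c0_t43 : CovD 1 gE4 [(9162457088, 1832910848), (274877906944, 274877906944), (1349391155200, 53975646208)] :=
  covD_E kE4_eq (.n 1 (.n 0 (.n 0 (.l 0) (.l 0)) (.l 0)) (.n 0 (.n 1 (.l 0) (.l 0)) (.l 0)))
    [(9162457088, 1832910848), (274877906944, 274877906944), (1349391155200, 53975646208)] rfl (by decide +kernel)
theorem E4_c0_t44 : CovD 1 gE4 [(9162457088, 1832910848), (824633720832, 274877906944), (1349391155200, 53975646208)] :=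
  covD_E kE4_eq (.n 1 (.n 0 (.n 0 (.n 1 (.l 0) (.l 0)) (.n 0 (.l 0) (.l 0))) (.n 0 (.l 0) (.l 0))) (.n 0 (.n 0 (.n 1 (.l 0) (.n 0 (.l 0) (.l 0))) (.n 0 (.l 0) (.l 0))) (.n 0 (.l 0) (.l 0))))
    [(9162457088, 1832910848), (824633720832, 274877906944), (1349391155200, 53975646208)] rfl (by decide +kernel)
end

mutual
theorem E4_c0_t46 : CovD 1 gE4 [(9162457088, 1832910848), (274877906944, 274877906944), (1457342447616, 53975646208)] :=
  covD_E kE4_eq (.n 1 (.n 0 (.n 0 (.l 0) (.l 0)) (.l 0)) (.n 0 (.n 1 (.l 0) (.l 0)) (.l 0)))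
    [(9162457088, 1832910848), (274877906944, 274877906944), (1457342447616, 53975646208)] rfl (by decide +kernel)
theorem E4_c0_t47 : CovD 1 gE4 [(9162457088, 1832910848), (824633720832, 274877906944), (1457342447616, 53975646208)] :=
  covD_E kE4_eq (.n 1 (.n 0 (.n 0 (.n 1 (.l 0) (.l 0)) (.n 0 (.l 0) (.l 0))) (.n 0 (.l 0) (.l 0))) (.n 0 (.n 0 (.n 1 (.l 0) (.n 0 (.l 0) (.l 0))) (.n 0 (.l 0) (.l 0))) (.n 0 (.l 0) (.l 0))))
    [(9162457088, 1832910848), (824633720832, 274877906944), (1457342447616, 53975646208)] rfl (by decide +kernel)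
end

mutual
theorem E4_c0_t50 : CovD 1 gE4 [(9162457088, 1832910848), (274877906944, 274877906944), (1565293740032, 53975646208)] :=
  covD_E kE4_eq (.n 0 (.n 0 (.n 1 (.l 0) (.n 0 (.l 0) (.l 0))) (.n 1 (.l 0) (.l 0))) (.n 1 (.l 0) (.l 0)))
    [(9162457088, 1832910848), (274877906944, 274877906944), (1565293740032, 53975646208)] rfl (by decide +kernel)
theorem E4_c0_t51 : CovD 1 gE4 [(9162457088, 1832910848), (824633720832, 274877906944), (1565293740032, 53975646208)] :=
  covD_E kE4_eq (.n 1 (.n 0 (.n 0 (.n 1 (.l 0) (.l 0)) (.n 0 (.l 0) (.l 0))) (.n 0 (.l 0) (.l 0))) (.n 0 (.n 0 (.n 1 (.l 0) (.n 0 (.l 0) (.l 0))) (.n 0 (.l 0) (.l 0))) (.n 0 (.l 0) (.l 0))))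
    [(9162457088, 1832910848), (824633720832, 274877906944), (1565293740032, 53975646208)] rfl (by decide +kernel)
end

mutual
theorem E4_c0_t53 : CovD 1 gE4 [(9162457088, 1832910848), (274877906944, 274877906944), (1673245032448, 53975646208)] :=
  covD_E kE4_eq (.n 0 (.n 0 (.n 1 (.l 0) (.n 0 (.l 0) (.l 0))) (.n 1 (.l 0) (.l 0))) (.n 1 (.l 0) (.l 0)))
    [(9162457088, 1832910848), (274877906944, 274877906944), (1673245032448, 53975646208)] rfl (by decide +kernel)
theorem E4_c0_t54 : CovD 1 gE4 [(9162457088, 1832910848), (824633720832, 274877906944), (1673245032448, 53975646208)] :=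
  covD_E kE4_eq (.n 1 (.n 0 (.n 0 (.n 1 (.l 0) (.l 0)) (.n 0 (.l 0) (.l 0))) (.n 0 (.l 0) (.l 0))) (.n 0 (.n 0 (.n 1 (.l 0) (.n 0 (.l 0) (.l 0))) (.n 0 (.l 0) (.l 0))) (.n 0 (.l 0) (.l 0))))
    [(9162457088, 1832910848), (824633720832, 274877906944), (1673245032448, 53975646208)] rfl (by decide +kernel)
end

theorem E4_c0_t5 : CovD 1 gE4 [(9162457088, 1832910848), (549755813888, 549755813888), (269878231040, 53975646208)] :=
  covD_split 0 (by decide +kernel) E4_c0_t6 E4_c0_t7

theorem E4_c0_t8 : CovD 1 gE4 [(9162457088, 1832910848), (549755813888, 549755813888), (377829523456, 53975646208)] :=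
  covD_split 0 (by decide +kernel) E4_c0_t9 E4_c0_t10

theorem E4_c0_t4 : CovD 1 gE4 [(9162457088, 1832910848), (549755813888, 549755813888), (323853877248, 107951292416)] :=
  covD_split 2 (by decide +kernel) E4_c0_t5 E4_c0_t8

theorem E4_c0_t2 : CovD 1 gE4 [(9162457088, 1832910848), (549755813888, 549755813888), (215902584832, 215902584832)] :=
  covD_split 2 (by decide +kernel) E4_c0_t3 E4_c0_t4

theorem E4_c0_t13 : CovD 1 gE4 [(9162457088, 1832910848), (549755813888, 549755813888), (485780815872, 53975646208)] :=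
  covD_split 0 (by decide +kernel) E4_c0_t14 E4_c0_t15

theorem E4_c0_t16 : CovD 1 gE4 [(9162457088, 1832910848), (549755813888, 549755813888), (593732108288, 53975646208)] :=
  covD_split 0 (by decide +kernel) E4_c0_t17 E4_c0_t18

theorem E4_c0_t12 : CovD 1 gE4 [(9162457088, 1832910848), (549755813888, 549755813888), (539756462080, 107951292416)] :=
  covD_split 2 (by decide +kernel) E4_c0_t13 E4_c0_t16

theorem E4_c0_t20 : CovD 1 gE4 [(9162457088, 1832910848), (549755813888, 549755813888), (701683400704, 53975646208)] :=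
  covD_split 0 (by decide +kernel) E4_c0_t21 E4_c0_t22

theorem E4_c0_t23 : CovD 1 gE4 [(9162457088, 1832910848), (549755813888, 549755813888), (809634693120, 53975646208)] :=
  covD_split 1 (by decide +kernel) E4_c0_t24 E4_c0_t25

theorem E4_c0_t19 : CovD 1 gE4 [(9162457088, 1832910848), (549755813888, 549755813888), (755659046912, 107951292416)] :=
  covD_split 2 (by decide +kernel) E4_c0_t20 E4_c0_t23

theorem E4_c0_t11 : CovD 1 gE4 [(9162457088, 1832910848), (549755813888, 549755813888), (647707754496, 215902584832)] :=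
  covD_split 2 (by decide +kernel) E4_c0_t12 E4_c0_t19

theorem E4_c0_t1 : CovD 1 gE4 [(9162457088, 1832910848), (549755813888, 549755813888), (431805169664, 431805169664)] :=
  covD_split 2 (by decide +kernel) E4_c0_t2 E4_c0_t11

theorem E4_c0_t30 : CovD 1 gE4 [(9162457088, 1832910848), (549755813888, 549755813888), (1025537277952, 53975646208)] :=
  covD_split 1 (by decide +kernel) E4_c0_t31 E4_c0_t32

theorem E4_c0_t28 : CovD 1 gE4 [(9162457088, 1832910848), (549755813888, 549755813888), (971561631744, 107951292416)] :=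
  covD_split 2 (by decide +kernel) E4_c0_t29 E4_c0_t30

theorem E4_c0_t34 : CovD 1 gE4 [(9162457088, 1832910848), (549755813888, 549755813888), (1133488570368, 53975646208)] :=
  covD_split 1 (by decide +kernel) E4_c0_t35 E4_c0_t36

theorem E4_c0_t37 : CovD 1 gE4 [(9162457088, 1832910848), (549755813888, 549755813888), (1241439862784, 53975646208)] :=
  covD_split 1 (by decide +kernel) E4_c0_t38 E4_c0_t39

theorem E4_c0_t33 : CovD 1 gE4 [(9162457088, 1832910848), (549755813888, 549755813888), (1187464216576, 107951292416)] :=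
  covD_split 2 (by decide +kernel) E4_c0_t34 E4_c0_t37

theorem E4_c0_t27 : CovD 1 gE4 [(9162457088, 1832910848), (549755813888, 549755813888), (1079512924160, 215902584832)] :=
  covD_split 2 (by decide +kernel) E4_c0_t28 E4_c0_t33

theorem E4_c0_t42 : CovD 1 gE4 [(9162457088, 1832910848), (549755813888, 549755813888), (1349391155200, 53975646208)] :=
  covD_split 1 (by decide +kernel) E4_c0_t43 E4_c0_t44

theorem E4_c0_t45 : CovD 1 gE4 [(9162457088, 1832910848), (549755813888, 549755813888), (1457342447616, 53975646208)] :=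
  covD_split 1 (by decide +kernel) E4_c0_t46 E4_c0_t47

theorem E4_c0_t41 : CovD 1 gE4 [(9162457088, 1832910848), (549755813888, 549755813888), (1403366801408, 107951292416)] :=
  covD_split 2 (by decide +kernel) E4_c0_t42 E4_c0_t45

theorem E4_c0_t49 : CovD 1 gE4 [(9162457088, 1832910848), (549755813888, 549755813888), (1565293740032, 53975646208)] :=
  covD_split 1 (by decide +kernel) E4_c0_t50 E4_c0_t51

theorem E4_c0_t52 : CovD 1 gE4 [(9162457088, 1832910848), (549755813888, 549755813888), (1673245032448, 53975646208)] :=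
  covD_split 1 (by decide +kernel) E4_c0_t53 E4_c0_t54

theorem E4_c0_t48 : CovD 1 gE4 [(9162457088, 1832910848), (549755813888, 549755813888), (1619269386240, 107951292416)] :=
  covD_split 2 (by decide +kernel) E4_c0_t49 E4_c0_t52

theorem E4_c0_t40 : CovD 1 gE4 [(9162457088, 1832910848), (549755813888, 549755813888), (1511318093824, 215902584832)] :=
  covD_split 2 (by decide +kernel) E4_c0_t41 E4_c0_t48

theorem E4_c0_t26 : CovD 1 gE4 [(9162457088, 1832910848), (549755813888, 549755813888), (1295415508992, 431805169664)] :=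
  covD_split 2 (by decide +kernel) E4_c0_t27 E4_c0_t40

theorem E4_c0 : CovD 1 gE4 [(9162457088, 1832910848), (549755813888, 549755813888), (863610339328, 863610339328)] :=
  covD_split 2 (by decide +kernel) E4_c0_t1 E4_c0_t26

end Pool.Agent.helper14.NS.Q100g
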