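import Pool.Agent.helper14.NS.Q100g.PZ

/-!
Generated: certificates.
-/

namespace Pool.Agent.helper14.NS.Q100g

open Pool.Agent.helper31.IA (Z)
open Pool.Agent.helper31.IX (Op XOps runX Cov CovD cov_split covD_split)
open Pool.Agent.helper31.IC (TD)
open Pool.Agent.helper63.RG (reloc)
open Pool.Agent.helper63.NF hiding TD
open Pool.Agent.helper4.NS
open Pool.Agent.helper14.CF (xE covD_E)
open Pool.Agent.helper14.NR (share)

mutual
theorem Z_c0_t2 : CovD 1 gZ [(8246001664, 916455424), (274877906944, 274877906944), (357287591936, 357287591936)] :=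
  covD_E kZ_eq (.n 1 (.n 2 (.n 2 (.l 0) (.l 0)) (.n 2 (.l 0) (.n 0 (.l 0) (.l 0)))) (.n 2 (.n 2 (.l 0) (.l 0)) (.n 2 (.l 0) (.l 0))))
    [(8246001664, 916455424), (274877906944, 274877906944), (357287591936, 357287591936)] rfl (by decide +kernel)
theorem Z_c0_t3 : CovD 1 gZ [(8246001664, 916455424), (824633720832, 274877906944), (357287591936, 357287591936)] :=
  covD_E kZ_eq (.n 0 (.n 1 (.n 2 (.l 0) (.n 2 (.l 0) (.l 0))) (.n 2 (.l 0) (.n 2 (.l 0) (.l 0)))) (.n 0 (.n 2 (.l 0) (.n 2 (.l 0) (.l 0))) (.n 2 (.l 0) (.n 2 (.l 0) (.l 0)))))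
    [(8246001664, 916455424), (824633720832, 274877906944), (357287591936, 357287591936)] rfl (by decide +kernel)
end

mutual
theorem Z_c0_t4 : CovD 1 gZ [(10078912512, 916455424), (549755813888, 549755813888), (357287591936, 357287591936)] :=
  covD_E kZ_eq (.n 1 (.n 2 (.n 2 (.l 0) (.l 0)) (.n 2 (.l 0) (.l 0))) (.n 0 (.n 2 (.l 0) (.n 2 (.l 0) (.l 0))) (.n 2 (.l 0) (.n 2 (.l 0) (.l 0)))))
    [(10078912512, 916455424), (549755813888, 549755813888), (357287591936, 357287591936)] rfl (by decide +kernel)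
theorem T_c0 : CovD 1 gT [(9162457088, 1832910848), (549755813888, 549755813888)] :=
  covD_E kT_eq (.n 0 (.n 1 (.n 1 (.l 0) (.l 0)) (.n 0 (.n 1 (.l 0) (.l 0)) (.n 0 (.l 0) (.l 0)))) (.n 1 (.l 0) (.n 0 (.l 0) (.l 0))))
    [(9162457088, 1832910848), (549755813888, 549755813888)] rfl (by decide +kernel)
end

theorem S_c0 : CovD 0 gS [(9162457088, 1832910848), (549755813888, 549755813888)] :=
  covD_E kS_eq (.l 0)
    [(9162457088, 1832910848), (549755813888, 549755813888)] rfl (by decide +kernel)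

theorem Z_c0_t1 : CovD 1 gZ [(8246001664, 916455424), (549755813888, 549755813888), (357287591936, 357287591936)] :=
  covD_split 1 (by decide +kernel) Z_c0_t2 Z_c0_t3

theorem Z_c0 : CovD 1 gZ [(9162457088, 1832910848), (549755813888, 549755813888), (357287591936, 357287591936)] :=
  covD_split 0 (by decide +kernel) Z_c0_t1 Z_c0_t4

end Pool.Agent.helper14.NS.Q100g
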