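import Pool.Agent.helper14.NS.Q100g.Tab
import Pool.Agent.helper14.NR.Share

/-!
Generated: programs and compiled forms.
-/

namespace Pool.Agent.helper14.NS.Q100g

open Pool.Agent.helper31.IA (Z)
open Pool.Agent.helper31.IX (Op XOps runX Cov CovD cov_split covD_split)
open Pool.Agent.helper31.IC (TD)
open Pool.Agent.helper63.RG (reloc)
open Pool.Agent.helper63.NF hiding TD
open Pool.Agent.helper4.NS
open Pool.Agent.helper14.CF (xE covD_E)
open Pool.Agent.helper14.NR (share)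

def p2_3 : List Op := [
  .const ⟨1099511627776, 0, 0, 0⟩,
  .mul 1 2,
  .scale ⟨2199023255552, 0, 0, 0⟩ 0,
  .exp 1,
  .neg 2,
  .exp 0,
  .mul 2 2,
  .mul 1 1,
  .mul 0 0,
  .add 2 1,
  .scale ⟨549755813888, 0, 0, 0⟩ 0,
  .scale ⟨2199023255552, 0, 0, 0⟩ 12,
  .mul 10 10,
  .lt 0 68719476736,
  .scale ⟨9162596898, 0, 0, 0⟩ 0,
  .const ⟨183251937962, 0, 0, 0⟩,
  .add 1 0,
  .mul 0 3,
  .const ⟨1099511627776, 0, 0, 0⟩,
  .add 1 0,
  .const ⟨65536, 0, 0, 0⟩,
  .rball 1 0,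
  .mul 9 0,
  .add 18 16,
  .scale ⟨549755813888, 0, 0, 0⟩ 0,
  .mul 2 0,
  .mul 3 3,
  .mul 26 0,
  .mul 2 2,
  .mul 28 0,
  .neg 17,
  .exp 0,
  .add 0 30,
  .pos 0,
  .log 0,
  .const ⟨9160359936, 0, 0, 0⟩,
  .sub 34 0,
  .const ⟨6764573491200, 0, 0, 0⟩,
  .sub 37 0,
  .mul 0 0,
  .mul 0 1,
  .mul 4 2,
  .mul 5 5,
  .scale ⟨0, 5366331456, 0, 0⟩ 4,
  .scale ⟨110998656, 0, 0, 0⟩ 4,
  .add 1 0,
  .scale ⟨0, 15596544, 0, 0⟩ 5,
  .add 1 0,
  .scale ⟨2382337484672, 0, 0, 0⟩ 11,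
  .add 1 0,
  .scale ⟨192313674880, 0, 0, 0⟩ 8,
  .add 1 0,
  .scale ⟨0, 4121748890880, 0, 0⟩ 9,
  .add 1 0,
  .const ⟨571222040576, 0, 0, 0⟩,
  .add 1 0,
  .scale ⟨366788544, 0, 0, 0⟩ 17,
  .scale ⟨0, 8216512, 0, 0⟩ 17,
  .add 1 0,
  .scale ⟨0, 109440821824, 0, 0⟩ 22,
  .add 1 0,
  .scale ⟨0, 2116265152, 0, 0⟩ 19,
  .add 1 0,
  .const ⟨0, 921568384, 0, 0⟩,
  .add 1 0,
  .scale ⟨0, 15862656, 0, 0⟩ 26,
  .scale ⟨261824, 0, 0, 0⟩ 26,
  .add 1 0,
  .scale ⟨2379700096, 0, 0, 0⟩ 31,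
  .add 1 0,
  .const ⟨15107456, 0, 0, 0⟩,
  .add 1 0,
  .scale ⟨408192, 0, 0, 0⟩ 33,
  .scale ⟨0, 31099520, 0, 0⟩ 36,
  .add 1 0,
  .const ⟨341440, 0, 0, 0⟩,
  .add 1 0,
  .scale ⟨0, 4736, 0, 0⟩ 38,
  .const ⟨0, 27456, 0, 0⟩,
  .add 1 0,
  .mul 78 80,
  .add 0 68,
  .pos 0,
  .inv 0,
  .mul 73 0,
  .sub 84 57,
  .add 75 2,
  .mul 1 0,
  .mul 3 0,
  .mul 78 61,
  .scale ⟨2199023255552, 0, 0, 0⟩ 0,
  .add 2 0,
  .scale ⟨0, 281251638411264, 0, 0⟩ 54,
  .const ⟨0, 4686346190848, 0, 0⟩,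
  .add 1 0,
  .sub 3 0,
  .pos 0,
  .inv 0,
  .scale ⟨31362867265536, 0, 0, 0⟩ 0,
  .add 2 0,
  .pos 0,
  .inv 0,
  .scale ⟨64432336512, 0, 0, 0⟩ 60,
  .scale ⟨0, 25828905312512, 0, 0⟩ 63,
  .add 1 0,
  .const ⟨0, 249762831488, 0, 0⟩,
  .add 1 0,
  .scale ⟨0, 128483546496, 0, 0⟩ 65,
  .scale ⟨52400427391360, 0, 0, 0⟩ 68,
  .add 1 0,
  .const ⟨631732208256, 0, 0, 0⟩,
  .add 1 0,
  .mul 13 0,
  .add 6 0,
  .mul 0 12,
  .scale ⟨576, 0, 0, 0⟩ 21,
  .add 0 33,
  .mul 23 0,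
  .add 0 38,
  .mul 25 0,
  .add 0 45,
  .mul 27 0,
  .add 0 54,
  .mul 29 0,
  .add 9 65,
  .add 1 0,
  .mul 35 0,
  .add 0 110,
  .neg 0,
  .exp 0,
  .add 0 124,
  .pos 0,
  .log 0,
  .add 129 102,
  .scale ⟨0, 13697024, 0, 0⟩ 91,
  .scale ⟨0, 10120790016, 0, 0⟩ 94,
  .add 1 0,
  .scale ⟨0, 1641545728, 0, 0⟩ 91,
  .add 1 0,
  .const ⟨32900907008, 0, 0, 0⟩,
  .add 1 0,
  .scale ⟨4260607557632, 0, 0, 0⟩ 132,
  .neg 0,
  .exp 0,
  .mul 3 0,
  .scale ⟨549755813888, 0, 0, 0⟩ 141,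
  .add 0 139,
  .pos 0,
  .inv 0,
  .scale ⟨2199023255552, 0, 0, 0⟩ 3,
  .mul 15 0,
  .mul 0 2,
  .mul 0 148,
  .sub 145 0,
  .pos 0,
  .log 0,
  .mul 23 2,
  .add 0 148,
  .pos 0,
  .log 0,
  .sub 0 3,
  .add 29 0,
  .sub 26 120,
  .scale ⟨2199023255552, 0, 0, 0⟩ 0,
  .add 33 0,
  .add 8 5,
  .sub 1 0,
  .mul 158 5,
  .scale ⟨549755813888, 0, 0, 0⟩ 0,
  .mul 0 0,
  .lt 0 68719476736,
  .scale ⟨9162596898, 0, 0, 0⟩ 0,
  .const ⟨183251937962, 0, 0, 0⟩,
  .add 1 0,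
  .mul 0 3,
  .const ⟨1099511627776, 0, 0, 0⟩,
  .add 1 0,
  .const ⟨65536, 0, 0, 0⟩,
  .rball 1 0,
  .exp 9,
  .mul 0 1,
  .mul 18 0,
  .pos 172,
  .inv 172,
  .mul 173 15,
  .exp 0,
  .const ⟨1099511627776, 0, 0, 0⟩,
  .sub 1 0,
  .mul 0 4,
  .mul 167 180,
  .add 0 150,
  .mul 99 0,
  .mul 181 0,
  .add 0 171,
  .pos 0,
  .inv 0,
  .add 95 157,
  .mul 13 0,
  .mul 5 5,
  .scale ⟨2199023255552, 0, 0, 0⟩ 0,
  .sub 2 0,
  .mul 162 162,
  .scale ⟨549755813888, 0, 0, 0⟩ 0,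
  .sub 2 0,
  .mul 192 20,
  .const ⟨2199023255552, 0, 0, 0⟩,
  .add 1 0,
  .mul 17 0,
  .mul 169 0,
  .add 5 0,
  .mul 198 14,
  .mul 0 0,
  .mul 0 2,
  .add 0 200,
  .pos 0,
  .log 0,
  .scale ⟨549755813888, 0, 0, 0⟩ 0,
  .exp 0,
  .add 0 204,
  .pos 0,
  .mul 8 22,
  .inv 1,
  .mul 1 0,
  .mul 209 0,
  .add 29 0,
  .pos 83,
  .inv 83,
  .mul 204 132,
  .mul 1 0,
  .mul 0 5,
  .mul 215 0,
  .add 0 215,
  .pos 0,
  .mul 34 209,
  .pos 0,
  .log 0,
  .scale ⟨549755813888, 0, 0, 0⟩ 16,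
  .add 1 0,
  .mul 0 48,
  .scale ⟨31569084416, 0, 0, 0⟩ 185,
  .scale ⟨0, 551682048, 0, 0⟩ 185,
  .add 1 0,
  .scale ⟨0, 465371136, 0, 0⟩ 186,
  .add 1 0,
  .scale ⟨30322111545344, 0, 0, 0⟩ 192,
  .add 1 0,
  .scale ⟨1926702235648, 0, 0, 0⟩ 189,
  .add 1 0,
  .const ⟨389623775232, 0, 0, 0⟩,
  .add 1 0,
  .scale ⟨4398046511104, 0, 0, 0⟩ 230,
  .exp 0,
  .pos 2,
  .mul 20 0,
  .scale ⟨2199023255552, 0, 0, 0⟩ 0,
  .inv 20,
  .mul 24 0,
  .inv 6,
  .mul 5 0,
  .mul 2 0,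
  .mul 5 0,
  .lt 0 1099510579200,
  .const ⟨17103633514496, 0, 0, 0⟩,
  .add 216 0,
  .pos 0,
  .mul 34 34,
  .sub 0 218,
  .inv 2,
  .mul 1 0,
  .lt 0 1099510579200,
  .scale ⟨1703936, 0, 0, 0⟩ 160,
  .const ⟨0, 97320960, 0, 0⟩,
  .add 1 0,
  .mul 163 0,
  .scale ⟨12517376, 0, 0, 0⟩ 216,
  .scale ⟨608772423680, 0, 0, 0⟩ 219,
  .add 1 0,
  .const ⟨6352994304, 0, 0, 0⟩,
  .add 1 0,
  .add 5 0,
  .mul 170 0,
  .scale ⟨4440653824, 0, 0, 0⟩ 223,
  .scale ⟨0, 14090240, 0, 0⟩ 223,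
  .add 1 0,
  .scale ⟨2736392175616, 0, 0, 0⟩ 228,
  .add 1 0,
  .const ⟨1106181750784, 0, 0, 0⟩,
  .add 1 0,
  .add 7 0,
  .scale ⟨1099511627776, 0, 0, 0⟩ 129,
  .pos 0,
  .inv 0,
  .mul 129 58,
  .mul 0 1,
  .scale ⟨549755813888, 0, 0, 0⟩ 0,
  .mul 273 62,
  .add 0 263,
  .pos 0,
  .inv 0,
  .mul 268 0,
  .sub 66 252,
  .add 270 2,
  .mul 1 0,
  .mul 3 0,
  .mul 273 256,
  .scale ⟨2199023255552, 0, 0, 0⟩ 0,
  .add 2 0,
  .scale ⟨0, 281251638411264, 0, 0⟩ 249,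
  .const ⟨0, 4686346190848, 0, 0⟩,
  .add 1 0,
  .sub 3 0,
  .pos 0,
  .inv 0,
  .scale ⟨31362867265536, 0, 0, 0⟩ 0,
  .add 2 0,
  .pos 0,
  .inv 0,
  .scale ⟨64432336512, 0, 0, 0⟩ 255,
  .scale ⟨0, 25828905312512, 0, 0⟩ 258,
  .add 1 0,
  .const ⟨0, 249762831488, 0, 0⟩,
  .add 1 0,
  .scale ⟨0, 128483546496, 0, 0⟩ 260,
  .scale ⟨52400427391360, 0, 0, 0⟩ 263,
  .add 1 0,
  .const ⟨631732208256, 0, 0, 0⟩,
  .add 1 0,
  .mul 13 0,
  .add 6 0,
  .mul 0 12,
  .scale ⟨576, 0, 0, 0⟩ 21,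
  .add 0 228,
  .mul 23 0,
  .add 0 233,
  .mul 25 0,
  .add 0 240,
  .mul 27 0,
  .add 0 249,
  .mul 29 0,
  .add 9 260,
  .add 1 0,
  .mul 35 0,
  .add 0 305,
  .neg 0,
  .exp 0,
  .add 0 319,
  .pos 0,
  .log 0,
  .scale ⟨439697276928, 0, 0, 0⟩ 111,
  .add 0 322,
  .pos 0,
  .inv 0,
  .scale ⟨27656192, 0, 0, 0⟩ 288,
  .scale ⟨20398342144, 0, 0, 0⟩ 291,
  .add 1 0,
  .scale ⟨3329687552, 0, 0, 0⟩ 288,
  .add 1 0,
  .const ⟨33154859008, 0, 0, 0⟩,
  .add 1 0,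
  .scale ⟨5772436045824, 0, 0, 0⟩ 329,
  .neg 0,
  .exp 0,
  .mul 3 0,
  .scale ⟨1099511627776, 0, 0, 0⟩ 0,
  .mul 0 67,
  .mul 331 257,
  .mul 0 122,
  .mul 2 0,
  .mul 200 16,
  .mul 1 0,
  .add 221 216,
  .sub 0 22,
  .sub 0 123,
  .exp 0,
  .const ⟨0, 0, 0, 0⟩,
  .mul 80 1,
  .mul 0 29,
  .mul 0 7,
  .rball 3 0,
  .sub 351 84,
  .mul 356 0,
  .sub 353 7,
  .scale ⟨1099511627776, 0, 0, 0⟩ 0,
  .mul 0 83,
  .mul 89 0,
  .add 4 0,
  .add 0 7,
  .lt 0 1099510579200]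

set_option maxRecDepth 1000000 in
noncomputable def c2_3 {α : Type} (cst : Z → α) (add sub mul : α → α → α) (scale : Z → α → α)
    (neg inv exp log : α → α) (ok : α → Bool) (isPos : Nat → α → Bool) (isLt : α → Nat → Bool)
    (ball : Nat → α → α) (rball : α → α → α) : List α → Bool
  | [x0, x1, x2, x3] =>
  let v0 := cst ⟨1099511627776, 0, 0, 0⟩; ok v0 && (
  let v1 := mul x0 x1; ok v1 && (
  let v2 := scale ⟨2199023255552, 0, 0, 0⟩ v1; ok v2 && (
  let v3 := exp v1; ok v3 && (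
  let v4 := neg v1; ok v4 && (
  let v5 := exp v4; ok v5 && (
  let v6 := mul v3 v3; ok v6 && (
  let v7 := mul v5 v5; ok v7 && (
  let v8 := mul v7 v7; ok v8 && (
  let v9 := add v6 v7; ok v9 && (
  let v10 := scale ⟨549755813888, 0, 0, 0⟩ v9; ok v10 && (
  let v11 := scale ⟨2199023255552, 0, 0, 0⟩ x1; ok v11 && (
  let v12 := mul v1 v1; ok v12 && (
  isLt v12 68719476736 && (
  let v13 := scale ⟨9162596898, 0, 0, 0⟩ v12; ok v13 && (
  let v14 := cst ⟨183251937962, 0, 0, 0⟩; ok v14 && (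
  let v15 := add v13 v14; ok v15 && (
  let v16 := mul v15 v12; ok v16 && (
  let v17 := cst ⟨1099511627776, 0, 0, 0⟩; ok v17 && (
  let v18 := add v16 v17; ok v18 && (
  let v19 := cst ⟨65536, 0, 0, 0⟩; ok v19 && (
  let v20 := rball v18 v19; ok v20 && (
  let v21 := mul v11 v20; ok v21 && (
  let v22 := add v3 v5; ok v22 && (
  let v23 := scale ⟨549755813888, 0, 0, 0⟩ v22; ok v23 && (
  let v24 := mul v21 v23; ok v24 && (
  let v25 := mul v21 v21; ok v25 && (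
  let v26 := mul x0 v25; ok v26 && (
  let v27 := mul v24 v24; ok v27 && (
  let v28 := mul x0 v27; ok v28 && (
  let v29 := neg v11; ok v29 && (
  let v30 := exp v29; ok v30 && (
  let v31 := add v30 v0; ok v31 && (
  isPos 3 v31 && (
  let v32 := log v31; ok v32 && (
  let v33 := cst ⟨9160359936, 0, 0, 0⟩; ok v33 && (
  let v34 := sub x0 v33; ok v34 && (
  let v35 := cst ⟨6764573491200, 0, 0, 0⟩; ok v35 && (
  let v36 := sub x1 v35; ok v36 && (
  let v37 := mul v36 v36; ok v37 && (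
  let v38 := mul v37 v36; ok v38 && (
  let v39 := mul v34 v36; ok v39 && (
  let v40 := mul v34 v34; ok v40 && (
  let v41 := scale ⟨0, 5366331456, 0, 0⟩ v36; ok v41 && (
  let v42 := scale ⟨110998656, 0, 0, 0⟩ v37; ok v42 && (
  let v43 := add v41 v42; ok v43 && (
  let v44 := scale ⟨0, 15596544, 0, 0⟩ v38; ok v44 && (
  let v45 := add v43 v44; ok v45 && (
  let v46 := scale ⟨2382337484672, 0, 0, 0⟩ v34; ok v46 && (
  let v47 := add v45 v46; ok v47 && (
  let v48 := scale ⟨192313674880, 0, 0, 0⟩ v39; ok v48 && (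
  let v49 := add v47 v48; ok v49 && (
  let v50 := scale ⟨0, 4121748890880, 0, 0⟩ v40; ok v50 && (
  let v51 := add v49 v50; ok v51 && (
  let v52 := cst ⟨571222040576, 0, 0, 0⟩; ok v52 && (
  let v53 := add v51 v52; ok v53 && (
  let v54 := scale ⟨366788544, 0, 0, 0⟩ v36; ok v54 && (
  let v55 := scale ⟨0, 8216512, 0, 0⟩ v37; ok v55 && (
  let v56 := add v54 v55; ok v56 && (
  let v57 := scale ⟨0, 109440821824, 0, 0⟩ v34; ok v57 && (
  let v58 := add v56 v57; ok v58 && (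
  let v59 := scale ⟨0, 2116265152, 0, 0⟩ v39; ok v59 && (
  let v60 := add v58 v59; ok v60 && (
  let v61 := cst ⟨0, 921568384, 0, 0⟩; ok v61 && (
  let v62 := add v60 v61; ok v62 && (
  let v63 := scale ⟨0, 15862656, 0, 0⟩ v36; ok v63 && (
  let v64 := scale ⟨261824, 0, 0, 0⟩ v37; ok v64 && (
  let v65 := add v63 v64; ok v65 && (
  let v66 := scale ⟨2379700096, 0, 0, 0⟩ v34; ok v66 && (
  let v67 := add v65 v66; ok v67 && (
  let v68 := cst ⟨15107456, 0, 0, 0⟩; ok v68 && (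
  let v69 := add v67 v68; ok v69 && (
  let v70 := scale ⟨408192, 0, 0, 0⟩ v36; ok v70 && (
  let v71 := scale ⟨0, 31099520, 0, 0⟩ v34; ok v71 && (
  let v72 := add v70 v71; ok v72 && (
  let v73 := cst ⟨341440, 0, 0, 0⟩; ok v73 && (
  let v74 := add v72 v73; ok v74 && (
  let v75 := scale ⟨0, 4736, 0, 0⟩ v36; ok v75 && (
  let v76 := cst ⟨0, 27456, 0, 0⟩; ok v76 && (
  let v77 := add v75 v76; ok v77 && (
  let v78 := mul x0 x2; ok v78 && (
  let v79 := add v78 v10; ok v79 && (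
  isPos 3 v79 && (
  let v80 := inv v79; ok v80 && (
  let v81 := mul v7 v80; ok v81 && (
  let v82 := sub x2 v24; ok v82 && (
  let v83 := add v7 v80; ok v83 && (
  let v84 := mul v82 v83; ok v84 && (
  let v85 := mul v81 v84; ok v85 && (
  let v86 := mul v7 v24; ok v86 && (
  let v87 := scale ⟨2199023255552, 0, 0, 0⟩ v86; ok v87 && (
  let v88 := add v85 v87; ok v88 && (
  let v89 := scale ⟨0, 281251638411264, 0, 0⟩ v34; ok v89 && (
  let v90 := cst ⟨0, 4686346190848, 0, 0⟩; ok v90 && (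
  let v91 := add v89 v90; ok v91 && (
  let v92 := sub v88 v91; ok v92 && (
  isPos 3 v92 && (
  let v93 := inv v92; ok v93 && (
  let v94 := scale ⟨31362867265536, 0, 0, 0⟩ v93; ok v94 && (
  let v95 := add v92 v94; ok v95 && (
  isPos 3 v95 && (
  let v96 := inv v95; ok v96 && (
  let v97 := scale ⟨64432336512, 0, 0, 0⟩ v36; ok v97 && (
  let v98 := scale ⟨0, 25828905312512, 0, 0⟩ v34; ok v98 && (
  let v99 := add v97 v98; ok v99 && (
  let v100 := cst ⟨0, 249762831488, 0, 0⟩; ok v100 && (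
  let v101 := add v99 v100; ok v101 && (
  let v102 := scale ⟨0, 128483546496, 0, 0⟩ v36; ok v102 && (
  let v103 := scale ⟨52400427391360, 0, 0, 0⟩ v34; ok v103 && (
  let v104 := add v102 v103; ok v104 && (
  let v105 := cst ⟨631732208256, 0, 0, 0⟩; ok v105 && (
  let v106 := add v104 v105; ok v106 && (
  let v107 := mul v93 v106; ok v107 && (
  let v108 := add v101 v107; ok v108 && (
  let v109 := mul v108 v96; ok v109 && (
  let v110 := scale ⟨576, 0, 0, 0⟩ v88; ok v110 && (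
  let v111 := add v110 v77; ok v111 && (
  let v112 := mul v88 v111; ok v112 && (
  let v113 := add v112 v74; ok v113 && (
  let v114 := mul v88 v113; ok v114 && (
  let v115 := add v114 v69; ok v115 && (
  let v116 := mul v88 v115; ok v116 && (
  let v117 := add v116 v62; ok v117 && (
  let v118 := mul v88 v117; ok v118 && (
  let v119 := add v109 v53; ok v119 && (
  let v120 := add v118 v119; ok v120 && (
  let v121 := mul v85 v120; ok v121 && (
  let v122 := add v121 v11; ok v122 && (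
  let v123 := neg v122; ok v123 && (
  let v124 := exp v123; ok v124 && (
  let v125 := add v124 v0; ok v125 && (
  isPos 3 v125 && (
  let v126 := log v125; ok v126 && (
  let v127 := add x2 v24; ok v127 && (
  let v128 := scale ⟨0, 13697024, 0, 0⟩ v36; ok v128 && (
  let v129 := scale ⟨0, 10120790016, 0, 0⟩ v34; ok v129 && (
  let v130 := add v128 v129; ok v130 && (
  let v131 := scale ⟨0, 1641545728, 0, 0⟩ v39; ok v131 && (
  let v132 := add v130 v131; ok v132 && (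
  let v133 := cst ⟨32900907008, 0, 0, 0⟩; ok v133 && (
  let v134 := add v132 v133; ok v134 && (
  let v135 := scale ⟨4260607557632, 0, 0, 0⟩ v2; ok v135 && (
  let v136 := neg v135; ok v136 && (
  let v137 := exp v136; ok v137 && (
  let v138 := mul v134 v137; ok v138 && (
  let v139 := scale ⟨549755813888, 0, 0, 0⟩ x2; ok v139 && (
  let v140 := add v139 v0; ok v140 && (
  isPos 3 v140 && (
  let v141 := inv v140; ok v141 && (
  let v142 := scale ⟨2199023255552, 0, 0, 0⟩ v138; ok v142 && (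
  let v143 := mul v127 v142; ok v143 && (
  let v144 := mul v143 v141; ok v144 && (
  let v145 := mul v144 x3; ok v145 && (
  let v146 := sub v0 v145; ok v146 && (
  isPos 3 v146 && (
  let v147 := log v146; ok v147 && (
  let v148 := mul v124 v145; ok v148 && (
  let v149 := add v148 v0; ok v149 && (
  isPos 3 v149 && (
  let v150 := log v149; ok v150 && (
  let v151 := sub v150 v147; ok v151 && (
  let v152 := add v122 v151; ok v152 && (
  let v153 := sub v126 v32; ok v153 && (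
  let v154 := scale ⟨2199023255552, 0, 0, 0⟩ v153; ok v154 && (
  let v155 := add v121 v154; ok v155 && (
  let v156 := add v147 v150; ok v156 && (
  let v157 := sub v155 v156; ok v157 && (
  let v158 := mul x0 v152; ok v158 && (
  let v159 := scale ⟨549755813888, 0, 0, 0⟩ v158; ok v159 && (
  let v160 := mul v159 v159; ok v160 && (
  isLt v160 68719476736 && (
  let v161 := scale ⟨9162596898, 0, 0, 0⟩ v160; ok v161 && (
  let v162 := cst ⟨183251937962, 0, 0, 0⟩; ok v162 && (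
  let v163 := add v161 v162; ok v163 && (
  let v164 := mul v163 v160; ok v164 && (
  let v165 := cst ⟨1099511627776, 0, 0, 0⟩; ok v165 && (
  let v166 := add v164 v165; ok v166 && (
  let v167 := cst ⟨65536, 0, 0, 0⟩; ok v167 && (
  let v168 := rball v166 v167; ok v168 && (
  let v169 := exp v159; ok v169 && (
  let v170 := mul v169 v168; ok v170 && (
  let v171 := mul v152 v170; ok v171 && (
  isPos 3 x0 && (
  let v172 := inv x0; ok v172 && (
  let v173 := mul x0 v157; ok v173 && (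
  let v174 := exp v173; ok v174 && (
  let v175 := cst ⟨1099511627776, 0, 0, 0⟩; ok v175 && (
  let v176 := sub v174 v175; ok v176 && (
  let v177 := mul v176 v172; ok v177 && (
  let v178 := mul v10 x2; ok v178 && (
  let v179 := add v178 v28; ok v179 && (
  let v180 := mul v80 v179; ok v180 && (
  let v181 := mul x0 v180; ok v181 && (
  let v182 := add v181 v10; ok v182 && (
  isPos 3 v182 && (
  let v183 := inv v182; ok v183 && (
  let v184 := add v88 v26; ok v184 && (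
  let v185 := mul v171 v184; ok v185 && (
  let v186 := mul v180 v180; ok v186 && (
  let v187 := scale ⟨2199023255552, 0, 0, 0⟩ v186; ok v187 && (
  let v188 := sub v185 v187; ok v188 && (
  let v189 := mul v26 v26; ok v189 && (
  let v190 := scale ⟨549755813888, 0, 0, 0⟩ v189; ok v190 && (
  let v191 := sub v188 v190; ok v191 && (
  let v192 := mul x0 v171; ok v192 && (
  let v193 := cst ⟨2199023255552, 0, 0, 0⟩; ok v193 && (
  let v194 := add v192 v193; ok v194 && (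
  let v195 := mul v177 v194; ok v195 && (
  let v196 := mul v26 v195; ok v196 && (
  let v197 := add v191 v196; ok v197 && (
  let v198 := mul x0 v183; ok v198 && (
  let v199 := mul v198 v198; ok v199 && (
  let v200 := mul v199 v197; ok v200 && (
  let v201 := add v200 v0; ok v201 && (
  isPos 3 v201 && (
  let v202 := log v201; ok v202 && (
  let v203 := scale ⟨549755813888, 0, 0, 0⟩ v202; ok v203 && (
  let v204 := exp v203; ok v204 && (
  let v205 := add v204 v0; ok v205 && (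
  isPos 3 v205 && (
  let v206 := mul v197 v183; ok v206 && (
  let v207 := inv v205; ok v207 && (
  let v208 := mul v206 v207; ok v208 && (
  let v209 := mul x0 v208; ok v209 && (
  let v210 := add v180 v209; ok v210 && (
  isPos 3 v127 && (
  let v211 := inv v127; ok v211 && (
  let v212 := mul v7 v79; ok v212 && (
  let v213 := mul v211 v212; ok v213 && (
  let v214 := mul v213 v208; ok v214 && (
  let v215 := mul x0 v214; ok v215 && (
  let v216 := add v215 v0; ok v216 && (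
  isPos 3 v216 && (
  let v217 := mul v182 v7; ok v217 && (
  isPos 3 v217 && (
  let v218 := log v217; ok v218 && (
  let v219 := scale ⟨549755813888, 0, 0, 0⟩ v202; ok v219 && (
  let v220 := add v218 v219; ok v220 && (
  let v221 := mul v220 v172; ok v221 && (
  let v222 := scale ⟨31569084416, 0, 0, 0⟩ v36; ok v222 && (
  let v223 := scale ⟨0, 551682048, 0, 0⟩ v37; ok v223 && (
  let v224 := add v222 v223; ok v224 && (
  let v225 := scale ⟨0, 465371136, 0, 0⟩ v38; ok v225 && (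
  let v226 := add v224 v225; ok v226 && (
  let v227 := scale ⟨30322111545344, 0, 0, 0⟩ v34; ok v227 && (
  let v228 := add v226 v227; ok v228 && (
  let v229 := scale ⟨1926702235648, 0, 0, 0⟩ v39; ok v229 && (
  let v230 := add v228 v229; ok v230 && (
  let v231 := cst ⟨389623775232, 0, 0, 0⟩; ok v231 && (
  let v232 := add v230 v231; ok v232 && (
  let v233 := scale ⟨4398046511104, 0, 0, 0⟩ v2; ok v233 && (
  let v234 := exp v233; ok v234 && (
  isPos 3 v232 && (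
  let v235 := mul v214 v234; ok v235 && (
  let v236 := scale ⟨2199023255552, 0, 0, 0⟩ v235; ok v236 && (
  let v237 := inv v216; ok v237 && (
  let v238 := mul v213 v237; ok v238 && (
  let v239 := inv v232; ok v239 && (
  let v240 := mul v234 v239; ok v240 && (
  let v241 := mul v238 v240; ok v241 && (
  let v242 := mul v236 v241; ok v242 && (
  isLt v242 1099510579200 && (
  let v243 := cst ⟨17103633514496, 0, 0, 0⟩; ok v243 && (
  let v244 := add v27 v243; ok v244 && (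
  isPos 3 v244 && (
  let v245 := mul v210 v210; ok v245 && (
  let v246 := sub v245 v27; ok v246 && (
  let v247 := inv v244; ok v247 && (
  let v248 := mul v246 v247; ok v248 && (
  isLt v248 1099510579200 && (
  let v249 := scale ⟨1703936, 0, 0, 0⟩ v88; ok v249 && (
  let v250 := cst ⟨0, 97320960, 0, 0⟩; ok v250 && (
  let v251 := add v249 v250; ok v251 && (
  let v252 := mul v88 v251; ok v252 && (
  let v253 := scale ⟨12517376, 0, 0, 0⟩ v36; ok v253 && (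
  let v254 := scale ⟨608772423680, 0, 0, 0⟩ v34; ok v254 && (
  let v255 := add v253 v254; ok v255 && (
  let v256 := cst ⟨6352994304, 0, 0, 0⟩; ok v256 && (
  let v257 := add v255 v256; ok v257 && (
  let v258 := add v252 v257; ok v258 && (
  let v259 := mul v88 v258; ok v259 && (
  let v260 := scale ⟨4440653824, 0, 0, 0⟩ v36; ok v260 && (
  let v261 := scale ⟨0, 14090240, 0, 0⟩ v37; ok v261 && (
  let v262 := add v260 v261; ok v262 && (
  let v263 := scale ⟨2736392175616, 0, 0, 0⟩ v34; ok v263 && (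
  let v264 := add v262 v263; ok v264 && (
  let v265 := cst ⟨1106181750784, 0, 0, 0⟩; ok v265 && (
  let v266 := add v264 v265; ok v266 && (
  let v267 := add v259 v266; ok v267 && (
  let v268 := scale ⟨1099511627776, 0, 0, 0⟩ v138; ok v268 && (
  isPos 3 v268 && (
  let v269 := inv v268; ok v269 && (
  let v270 := mul v140 v211; ok v270 && (
  let v271 := mul v270 v269; ok v271 && (
  let v272 := scale ⟨549755813888, 0, 0, 0⟩ v271; ok v272 && (
  let v273 := mul x0 v210; ok v273 && (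
  let v274 := add v273 v10; ok v274 && (
  isPos 3 v274 && (
  let v275 := inv v274; ok v275 && (
  let v276 := mul v7 v275; ok v276 && (
  let v277 := sub v210 v24; ok v277 && (
  let v278 := add v7 v275; ok v278 && (
  let v279 := mul v277 v278; ok v279 && (
  let v280 := mul v276 v279; ok v280 && (
  let v281 := mul v7 v24; ok v281 && (
  let v282 := scale ⟨2199023255552, 0, 0, 0⟩ v281; ok v282 && (
  let v283 := add v280 v282; ok v283 && (
  let v284 := scale ⟨0, 281251638411264, 0, 0⟩ v34; ok v284 && (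
  let v285 := cst ⟨0, 4686346190848, 0, 0⟩; ok v285 && (
  let v286 := add v284 v285; ok v286 && (
  let v287 := sub v283 v286; ok v287 && (
  isPos 3 v287 && (
  let v288 := inv v287; ok v288 && (
  let v289 := scale ⟨31362867265536, 0, 0, 0⟩ v288; ok v289 && (
  let v290 := add v287 v289; ok v290 && (
  isPos 3 v290 && (
  let v291 := inv v290; ok v291 && (
  let v292 := scale ⟨64432336512, 0, 0, 0⟩ v36; ok v292 && (
  let v293 := scale ⟨0, 25828905312512, 0, 0⟩ v34; ok v293 && (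
  let v294 := add v292 v293; ok v294 && (
  let v295 := cst ⟨0, 249762831488, 0, 0⟩; ok v295 && (
  let v296 := add v294 v295; ok v296 && (
  let v297 := scale ⟨0, 128483546496, 0, 0⟩ v36; ok v297 && (
  let v298 := scale ⟨52400427391360, 0, 0, 0⟩ v34; ok v298 && (
  let v299 := add v297 v298; ok v299 && (
  let v300 := cst ⟨631732208256, 0, 0, 0⟩; ok v300 && (
  let v301 := add v299 v300; ok v301 && (
  let v302 := mul v288 v301; ok v302 && (
  let v303 := add v296 v302; ok v303 && (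
  let v304 := mul v303 v291; ok v304 && (
  let v305 := scale ⟨576, 0, 0, 0⟩ v283; ok v305 && (
  let v306 := add v305 v77; ok v306 && (
  let v307 := mul v283 v306; ok v307 && (
  let v308 := add v307 v74; ok v308 && (
  let v309 := mul v283 v308; ok v309 && (
  let v310 := add v309 v69; ok v310 && (
  let v311 := mul v283 v310; ok v311 && (
  let v312 := add v311 v62; ok v312 && (
  let v313 := mul v283 v312; ok v313 && (
  let v314 := add v304 v53; ok v314 && (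
  let v315 := add v313 v314; ok v315 && (
  let v316 := mul v280 v315; ok v316 && (
  let v317 := add v316 v11; ok v317 && (
  let v318 := neg v317; ok v318 && (
  let v319 := exp v318; ok v319 && (
  let v320 := add v319 v0; ok v320 && (
  isPos 3 v320 && (
  let v321 := log v320; ok v321 && (
  let v322 := scale ⟨439697276928, 0, 0, 0⟩ v210; ok v322 && (
  let v323 := add v322 v0; ok v323 && (
  isPos 3 v323 && (
  let v324 := inv v323; ok v324 && (
  let v325 := scale ⟨27656192, 0, 0, 0⟩ v36; ok v325 && (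
  let v326 := scale ⟨20398342144, 0, 0, 0⟩ v34; ok v326 && (
  let v327 := add v325 v326; ok v327 && (
  let v328 := scale ⟨3329687552, 0, 0, 0⟩ v39; ok v328 && (
  let v329 := add v327 v328; ok v329 && (
  let v330 := cst ⟨33154859008, 0, 0, 0⟩; ok v330 && (
  let v331 := add v329 v330; ok v331 && (
  let v332 := scale ⟨5772436045824, 0, 0, 0⟩ v2; ok v332 && (
  let v333 := neg v332; ok v333 && (
  let v334 := exp v333; ok v334 && (
  let v335 := mul v331 v334; ok v335 && (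
  let v336 := scale ⟨1099511627776, 0, 0, 0⟩ v335; ok v336 && (
  let v337 := mul v336 v269; ok v337 && (
  let v338 := mul v6 v80; ok v338 && (
  let v339 := mul v338 v216; ok v339 && (
  let v340 := mul v337 v339; ok v340 && (
  let v341 := mul v140 v324; ok v341 && (
  let v342 := mul v340 v341; ok v342 && (
  let v343 := add v121 v126; ok v343 && (
  let v344 := sub v343 v321; ok v344 && (
  let v345 := sub v344 v221; ok v345 && (
  let v346 := exp v345; ok v346 && (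
  let v347 := cst ⟨0, 0, 0, 0⟩; ok v347 && (
  let v348 := mul v267 v346; ok v348 && (
  let v349 := mul v348 v319; ok v349 && (
  let v350 := mul v349 v342; ok v350 && (
  let v351 := rball v347 v350; ok v351 && (
  let v352 := sub v0 v267; ok v352 && (
  let v353 := mul x3 v352; ok v353 && (
  let v354 := sub v0 v346; ok v354 && (
  let v355 := scale ⟨1099511627776, 0, 0, 0⟩ v354; ok v355 && (
  let v356 := mul v355 v272; ok v356 && (
  let v357 := mul v267 v356; ok v357 && (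
  let v358 := add v353 v357; ok v358 && (
  let v359 := add v358 v351; ok v359 && (
  isLt v359 1099510579200 && (
  true))))))))))))))))))))))))))))))))))))))))))))))))))))))))))))))))))))))))))))))))))))))))))))))))))))))))))))))))))))))))))))))))))))))))))))))))))))))))))))))))))))))))))))))))))))))))))))))))))))))))))))))))))))))))))))))))))))))))))))))))))))))))))))))))))))))))))))))))))))))))))))))))))))))))))))))))))))))))))))))))))))))))))))))))))))))))))))))))))))))))))))))))))))))))))))))))))))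
  | _ => false

set_option maxRecDepth 1000000 in
theorem c2_3_eq (X : XOps) (m : List X.O.α)
    (h : c2_3 X.O.cst X.O.add X.O.sub X.O.mul X.O.scale X.O.neg X.O.inv X.O.exp X.O.log X.O.ok
      X.O.isPos X.O.isLt X.ball X.rball m = true) :
    runX X 3 p2_3 m = true := by
  match m, h with
  | [x0, x1, x2, x3], h => exact h

def p1_A3 : List Op := [
  .const ⟨1099511627776, 0, 0, 0⟩,
  .scale ⟨2251799813685248, 0, 0, 0⟩ 1,
  .scale ⟨19143850354176, 0, 0, 0⟩ 0,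
  .const ⟨0, 1087313645928448, 0, 0⟩,
  .add 1 0,
  .mul 0 5,
  .const ⟨7774976081920, 0, 0, 0⟩,
  .add 1 0,
  .mul 9 0,
  .const ⟨6047313952768, 0, 0, 0⟩,
  .add 1 0,
  .mul 11 0,
  .exp 0,
  .neg 1,
  .exp 0,
  .mul 3 3,
  .lt 0 68719476736,
  .scale ⟨9162596898, 0, 0, 0⟩ 0,
  .const ⟨183251937962, 0, 0, 0⟩,
  .add 1 0,
  .mul 0 3,
  .const ⟨1099511627776, 0, 0, 0⟩,
  .add 1 0,
  .const ⟨65536, 0, 0, 0⟩,
  .rball 1 0,
  .scale ⟨2199023255552, 0, 0, 0⟩ 13,
  .mul 0 1,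
  .add 13 11,
  .scale ⟨549755813888, 0, 0, 0⟩ 0,
  .mul 2 0,
  .mul 0 0,
  .const ⟨9160359936, 0, 0, 0⟩,
  .sub 31 0,
  .const ⟨6764573491200, 0, 0, 0⟩,
  .sub 22 0,
  .mul 0 0,
  .mul 0 1,
  .mul 4 2,
  .mul 22 22,
  .mul 0 0,
  .scale ⟨13194139533312, 0, 0, 0⟩ 27,
  .neg 0,
  .exp 0,
  .scale ⟨127757647872, 0, 0, 0⟩ 8,
  .scale ⟨5325914112, 0, 0, 0⟩ 8,
  .add 1 0,
  .scale ⟨0, 29491200, 0, 0⟩ 9,
  .add 1 0,
  .scale ⟨123671482335232, 0, 0, 0⟩ 15,
  .add 1 0,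
  .scale ⟨17486232027136, 0, 0, 0⟩ 12,
  .add 1 0,
  .const ⟨1499974336512, 0, 0, 0⟩,
  .add 1 0,
  .mul 53 24,
  .mul 0 1,
  .add 0 54,
  .mul 14 0,
  .scale ⟨1099511627776, 0, 0, 0⟩ 18,
  .add 0 57,
  .mul 20 0,
  .add 0 59,
  .mul 23 0,
  .scale ⟨2199023255552, 0, 0, 0⟩ 0,
  .mul 10 21,
  .sub 1 0,
  .mul 65 0,
  .add 9 65,
  .mul 1 37,
  .mul 1 70,
  .scale ⟨0, 0, 1099511627776, 0⟩ 0,
  .add 2 0,
  .mul 5 73,
  .scale ⟨0, 0, 1099511627776, 0⟩ 0,
  .add 6 0,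
  .inv 0,
  .mul 4 0]

set_option maxRecDepth 1000000 in
noncomputable def c_A3_0 {α : Type} (cst : Z → α) (add sub mul : α → α → α) (scale : Z → α → α)
    (neg inv exp log : α → α) (ok : α → Bool) (isPos : Nat → α → Bool) (isLt : α → Nat → Bool)
    (ball : Nat → α → α) (rball : α → α → α) : List α → Bool
  | [x0, x1, x2, x3] =>
  let v0 := cst ⟨1099511627776, 0, 0, 0⟩; ok v0 && (
  let v1 := scale ⟨2251799813685248, 0, 0, 0⟩ x0; ok v1 && (
  let v2 := scale ⟨19143850354176, 0, 0, 0⟩ v1; ok v2 && (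
  let v3 := cst ⟨0, 1087313645928448, 0, 0⟩; ok v3 && (
  let v4 := add v2 v3; ok v4 && (
  let v5 := mul v4 x0; ok v5 && (
  let v6 := cst ⟨7774976081920, 0, 0, 0⟩; ok v6 && (
  let v7 := add v5 v6; ok v7 && (
  let v8 := mul x1 v7; ok v8 && (
  let v9 := cst ⟨6047313952768, 0, 0, 0⟩; ok v9 && (
  let v10 := add v8 v9; ok v10 && (
  let v11 := mul x0 v10; ok v11 && (
  let v12 := exp v11; ok v12 && (
  let v13 := neg v11; ok v13 && (
  let v14 := exp v13; ok v14 && (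
  let v15 := mul v11 v11; ok v15 && (
  isLt v15 68719476736 && (
  let v16 := scale ⟨9162596898, 0, 0, 0⟩ v15; ok v16 && (
  let v17 := cst ⟨183251937962, 0, 0, 0⟩; ok v17 && (
  let v18 := add v16 v17; ok v18 && (
  let v19 := mul v18 v15; ok v19 && (
  let v20 := cst ⟨1099511627776, 0, 0, 0⟩; ok v20 && (
  let v21 := add v19 v20; ok v21 && (
  let v22 := cst ⟨65536, 0, 0, 0⟩; ok v22 && (
  let v23 := rball v21 v22; ok v23 && (
  let v24 := scale ⟨2199023255552, 0, 0, 0⟩ v10; ok v24 && (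
  let v25 := mul v24 v23; ok v25 && (
  let v26 := add v12 v14; ok v26 && (
  let v27 := scale ⟨549755813888, 0, 0, 0⟩ v26; ok v27 && (
  let v28 := mul v25 v27; ok v28 && (
  let v29 := mul v28 v28; ok v29 && (
  let v30 := cst ⟨9160359936, 0, 0, 0⟩; ok v30 && (
  let v31 := sub x0 v30; ok v31 && (
  let v32 := cst ⟨6764573491200, 0, 0, 0⟩; ok v32 && (
  let v33 := sub v10 v32; ok v33 && (
  let v34 := mul v33 v33; ok v34 && (
  let v35 := mul v34 v33; ok v35 && (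
  let v36 := mul v31 v33; ok v36 && (
  let v37 := mul v14 v14; ok v37 && (
  let v38 := mul v37 v37; ok v38 && (
  let v39 := scale ⟨13194139533312, 0, 0, 0⟩ v11; ok v39 && (
  let v40 := neg v39; ok v40 && (
  let v41 := exp v40; ok v41 && (
  let v42 := scale ⟨127757647872, 0, 0, 0⟩ v33; ok v42 && (
  let v43 := scale ⟨5325914112, 0, 0, 0⟩ v34; ok v43 && (
  let v44 := add v42 v43; ok v44 && (
  let v45 := scale ⟨0, 29491200, 0, 0⟩ v35; ok v45 && (
  let v46 := add v44 v45; ok v46 && (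
  let v47 := scale ⟨123671482335232, 0, 0, 0⟩ v31; ok v47 && (
  let v48 := add v46 v47; ok v48 && (
  let v49 := scale ⟨17486232027136, 0, 0, 0⟩ v36; ok v49 && (
  let v50 := add v48 v49; ok v50 && (
  let v51 := cst ⟨1499974336512, 0, 0, 0⟩; ok v51 && (
  let v52 := add v50 v51; ok v52 && (
  let v53 := mul x0 v28; ok v53 && (
  let v54 := mul v53 v52; ok v54 && (
  let v55 := add v54 v0; ok v55 && (
  let v56 := mul v41 v55; ok v56 && (
  let v57 := scale ⟨1099511627776, 0, 0, 0⟩ v38; ok v57 && (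
  let v58 := add v57 v0; ok v58 && (
  let v59 := mul v38 v58; ok v59 && (
  let v60 := add v59 v0; ok v60 && (
  let v61 := mul v37 v60; ok v61 && (
  let v62 := scale ⟨2199023255552, 0, 0, 0⟩ v61; ok v62 && (
  let v63 := mul v52 v41; ok v63 && (
  let v64 := sub v62 v63; ok v64 && (
  let v65 := mul x0 v64; ok v65 && (
  let v66 := add v56 v0; ok v66 && (
  let v67 := mul v65 v29; ok v67 && (
  let v68 := mul v66 x2; ok v68 && (
  let v69 := scale ⟨0, 0, 1099511627776, 0⟩ v68; ok v69 && (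
  let v70 := add v67 v69; ok v70 && (
  let v71 := mul v65 x2; ok v71 && (
  let v72 := scale ⟨0, 0, 1099511627776, 0⟩ v71; ok v72 && (
  let v73 := add v66 v72; ok v73 && (
  let v74 := inv v73; ok v74 && (
  let v75 := mul v70 v74; ok v75 && (
  c2_3 cst add sub mul scale neg inv exp log ok isPos isLt ball rball [x0, v10, v75, x3])))))))))))))))))))))))))))))))))))))))))))))))))))))))))))))))))))))))))))))
  | _ => false

set_option maxRecDepth 1000000 in
theorem c_A3_0_eq (X : XOps) (m : List X.O.α)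
    (h : c_A3_0 X.O.cst X.O.add X.O.sub X.O.mul X.O.scale X.O.neg X.O.inv X.O.exp X.O.log X.O.ok
      X.O.isPos X.O.isLt X.ball X.rball m = true) :
    runX X 3 (p1_A3 ++ reloc [76, 65, 0, 79] 80 0 p2_3) m = true := by
  match m, h with
  | [x0, x1, x2, x3], h => exact share (c2_3_eq X) [x0, x1, x2, x3] (Nat.le_of_ble_eq_true rfl) h

def p_A3_1 : List Op := [
  .const ⟨1099511627776, 0, 0, 0⟩,
  .scale ⟨2251799813685248, 0, 0, 0⟩ 1,
  .scale ⟨19143850354176, 0, 0, 0⟩ 0,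
  .const ⟨0, 1087313645928448, 0, 0⟩,
  .add 1 0,
  .mul 0 5,
  .const ⟨7774976081920, 0, 0, 0⟩,
  .add 1 0,
  .mul 9 0,
  .const ⟨6047313952768, 0, 0, 0⟩,
  .add 1 0,
  .mul 11 0,
  .exp 0,
  .neg 1,
  .exp 0,
  .mul 3 3,
  .lt 0 68719476736,
  .scale ⟨9162596898, 0, 0, 0⟩ 0,
  .const ⟨183251937962, 0, 0, 0⟩,
  .add 1 0,
  .mul 0 3,
  .const ⟨1099511627776, 0, 0, 0⟩,
  .add 1 0,
  .const ⟨65536, 0, 0, 0⟩,
  .rball 1 0,
  .scale ⟨2199023255552, 0, 0, 0⟩ 13,
  .mul 0 1,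
  .add 13 11,
  .scale ⟨549755813888, 0, 0, 0⟩ 0,
  .mul 2 0,
  .mul 0 0,
  .const ⟨9160359936, 0, 0, 0⟩,
  .sub 31 0,
  .const ⟨6764573491200, 0, 0, 0⟩,
  .sub 22 0,
  .mul 0 0,
  .mul 0 1,
  .mul 4 2,
  .mul 22 22,
  .mul 0 0,
  .scale ⟨13194139533312, 0, 0, 0⟩ 27,
  .neg 0,
  .exp 0,
  .scale ⟨127757647872, 0, 0, 0⟩ 8,
  .scale ⟨5325914112, 0, 0, 0⟩ 8,
  .add 1 0,
  .scale ⟨0, 29491200, 0, 0⟩ 9,
  .add 1 0,
  .scale ⟨123671482335232, 0, 0, 0⟩ 15,
  .add 1 0,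
  .scale ⟨17486232027136, 0, 0, 0⟩ 12,
  .add 1 0,
  .const ⟨1499974336512, 0, 0, 0⟩,
  .add 1 0,
  .mul 53 24,
  .mul 0 1,
  .add 0 54,
  .mul 14 0,
  .scale ⟨1099511627776, 0, 0, 0⟩ 18,
  .add 0 57,
  .mul 20 0,
  .add 0 59,
  .mul 23 0,
  .scale ⟨2199023255552, 0, 0, 0⟩ 0,
  .mul 10 21,
  .sub 1 0,
  .mul 65 0,
  .add 9 65,
  .mul 1 37,
  .mul 1 70,
  .scale ⟨0, 0, 1099511627776, 0⟩ 0,
  .add 2 0,
  .mul 5 73,
  .scale ⟨0, 0, 1099511627776, 0⟩ 0,
  .add 6 0,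
  .inv 0,
  .mul 4 0,
  .const ⟨16771847290880, 0, 0, 0⟩,
  .add 47 0,
  .mul 78 0,
  .mul 79 3,
  .mul 0 4,
  .mul 81 51,
  .sub 1 0,
  .inv 0,
  .mul 5 0,
  .lt 0 1099511627520]

set_option maxRecDepth 1000000 in
noncomputable def c_A3_1 {α : Type} (cst : Z → α) (add sub mul : α → α → α) (scale : Z → α → α)
    (neg inv exp log : α → α) (ok : α → Bool) (isPos : Nat → α → Bool) (isLt : α → Nat → Bool)
    (ball : Nat → α → α) (rball : α → α → α) : List α → Bool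
  | [x0, x1, x2, x3] =>
  let v0 := cst ⟨1099511627776, 0, 0, 0⟩; ok v0 && (
  let v1 := scale ⟨2251799813685248, 0, 0, 0⟩ x0; ok v1 && (
  let v2 := scale ⟨19143850354176, 0, 0, 0⟩ v1; ok v2 && (
  let v3 := cst ⟨0, 1087313645928448, 0, 0⟩; ok v3 && (
  let v4 := add v2 v3; ok v4 && (
  let v5 := mul v4 x0; ok v5 && (
  let v6 := cst ⟨7774976081920, 0, 0, 0⟩; ok v6 && (
  let v7 := add v5 v6; ok v7 && (
  let v8 := mul x1 v7; ok v8 && (
  let v9 := cst ⟨6047313952768, 0, 0, 0⟩; ok v9 && (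
  let v10 := add v8 v9; ok v10 && (
  let v11 := mul x0 v10; ok v11 && (
  let v12 := exp v11; ok v12 && (
  let v13 := neg v11; ok v13 && (
  let v14 := exp v13; ok v14 && (
  let v15 := mul v11 v11; ok v15 && (
  isLt v15 68719476736 && (
  let v16 := scale ⟨9162596898, 0, 0, 0⟩ v15; ok v16 && (
  let v17 := cst ⟨183251937962, 0, 0, 0⟩; ok v17 && (
  let v18 := add v16 v17; ok v18 && (
  let v19 := mul v18 v15; ok v19 && (
  let v20 := cst ⟨1099511627776, 0, 0, 0⟩; ok v20 && (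
  let v21 := add v19 v20; ok v21 && (
  let v22 := cst ⟨65536, 0, 0, 0⟩; ok v22 && (
  let v23 := rball v21 v22; ok v23 && (
  let v24 := scale ⟨2199023255552, 0, 0, 0⟩ v10; ok v24 && (
  let v25 := mul v24 v23; ok v25 && (
  let v26 := add v12 v14; ok v26 && (
  let v27 := scale ⟨549755813888, 0, 0, 0⟩ v26; ok v27 && (
  let v28 := mul v25 v27; ok v28 && (
  let v29 := mul v28 v28; ok v29 && (
  let v30 := cst ⟨9160359936, 0, 0, 0⟩; ok v30 && (
  let v31 := sub x0 v30; ok v31 && (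
  let v32 := cst ⟨6764573491200, 0, 0, 0⟩; ok v32 && (
  let v33 := sub v10 v32; ok v33 && (
  let v34 := mul v33 v33; ok v34 && (
  let v35 := mul v34 v33; ok v35 && (
  let v36 := mul v31 v33; ok v36 && (
  let v37 := mul v14 v14; ok v37 && (
  let v38 := mul v37 v37; ok v38 && (
  let v39 := scale ⟨13194139533312, 0, 0, 0⟩ v11; ok v39 && (
  let v40 := neg v39; ok v40 && (
  let v41 := exp v40; ok v41 && (
  let v42 := scale ⟨127757647872, 0, 0, 0⟩ v33; ok v42 && (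
  let v43 := scale ⟨5325914112, 0, 0, 0⟩ v34; ok v43 && (
  let v44 := add v42 v43; ok v44 && (
  let v45 := scale ⟨0, 29491200, 0, 0⟩ v35; ok v45 && (
  let v46 := add v44 v45; ok v46 && (
  let v47 := scale ⟨123671482335232, 0, 0, 0⟩ v31; ok v47 && (
  let v48 := add v46 v47; ok v48 && (
  let v49 := scale ⟨17486232027136, 0, 0, 0⟩ v36; ok v49 && (
  let v50 := add v48 v49; ok v50 && (
  let v51 := cst ⟨1499974336512, 0, 0, 0⟩; ok v51 && (
  let v52 := add v50 v51; ok v52 && (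
  let v53 := mul x0 v28; ok v53 && (
  let v54 := mul v53 v52; ok v54 && (
  let v55 := add v54 v0; ok v55 && (
  let v56 := mul v41 v55; ok v56 && (
  let v57 := scale ⟨1099511627776, 0, 0, 0⟩ v38; ok v57 && (
  let v58 := add v57 v0; ok v58 && (
  let v59 := mul v38 v58; ok v59 && (
  let v60 := add v59 v0; ok v60 && (
  let v61 := mul v37 v60; ok v61 && (
  let v62 := scale ⟨2199023255552, 0, 0, 0⟩ v61; ok v62 && (
  let v63 := mul v52 v41; ok v63 && (
  let v64 := sub v62 v63; ok v64 && (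
  let v65 := mul x0 v64; ok v65 && (
  let v66 := add v56 v0; ok v66 && (
  let v67 := mul v65 v29; ok v67 && (
  let v68 := mul v66 x2; ok v68 && (
  let v69 := scale ⟨0, 0, 1099511627776, 0⟩ v68; ok v69 && (
  let v70 := add v67 v69; ok v70 && (
  let v71 := mul v65 x2; ok v71 && (
  let v72 := scale ⟨0, 0, 1099511627776, 0⟩ v71; ok v72 && (
  let v73 := add v66 v72; ok v73 && (
  let v74 := inv v73; ok v74 && (
  let v75 := mul v70 v74; ok v75 && (
  let v76 := cst ⟨16771847290880, 0, 0, 0⟩; ok v76 && (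
  let v77 := add v29 v76; ok v77 && (
  let v78 := mul x0 v77; ok v78 && (
  let v79 := mul x0 v75; ok v79 && (
  let v80 := mul v79 v75; ok v80 && (
  let v81 := mul x0 v29; ok v81 && (
  let v82 := sub v80 v81; ok v82 && (
  let v83 := inv v82; ok v83 && (
  let v84 := mul v78 v83; ok v84 && (
  isLt v84 1099511627520 && (
  true)))))))))))))))))))))))))))))))))))))))))))))))))))))))))))))))))))))))))))))))))))))))
  | _ => false

set_option maxRecDepth 1000000 in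
theorem c_A3_1_eq (X : XOps) (m : List X.O.α)
    (h : c_A3_1 X.O.cst X.O.add X.O.sub X.O.mul X.O.scale X.O.neg X.O.inv X.O.exp X.O.log X.O.ok
      X.O.isPos X.O.isLt X.ball X.rball m = true) :
    runX X 3 p_A3_1 m = true := by
  match m, h with
  | [x0, x1, x2, x3], h => exact h

abbrev gA3 : List (List Op) := [(p1_A3 ++ reloc [76, 65, 0, 79] 80 0 p2_3), p_A3_1]

noncomputable abbrev kA3 : List (List xE.O.α → Bool) := [c_A3_0 xE.O.cst xE.O.add xE.O.sub xE.O.mul xE.O.scale xE.O.neg xE.O.inv xE.O.exp xE.O.log xE.O.ok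
      xE.O.isPos xE.O.isLt xE.ball xE.rball, c_A3_1 xE.O.cst xE.O.add xE.O.sub xE.O.mul xE.O.scale xE.O.neg xE.O.inv xE.O.exp xE.O.log xE.O.ok
      xE.O.isPos xE.O.isLt xE.ball xE.rball]

theorem kA3_eq : List.Forall₂ (fun (ops : List Op) (chk : List xE.O.α → Bool) =>
    ∀ m, chk m = true → runX xE 3 ops m = true) gA3 kA3 :=
  List.Forall₂.cons (c_A3_0_eq xE) (List.Forall₂.cons (c_A3_1_eq xE) List.Forall₂.nil)

theorem gA3_eq : gA3 = [circ (cA tab 3) (PSm tab 3), altP (cA tab 3) (oCut tab 3)] := by decide +kernel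

def p1_B3 : List Op := [
  .const ⟨1099511627776, 0, 0, 0⟩,
  .scale ⟨2251799813685248, 0, 0, 0⟩ 1,
  .scale ⟨19143850354176, 0, 0, 0⟩ 0,
  .const ⟨0, 1087313645928448, 0, 0⟩,
  .add 1 0,
  .mul 0 5,
  .const ⟨7774976081920, 0, 0, 0⟩,
  .add 1 0,
  .mul 9 0,
  .const ⟨6047313952768, 0, 0, 0⟩,
  .add 1 0,
  .mul 11 0,
  .exp 0,
  .neg 1,
  .exp 0,
  .mul 3 3,
  .lt 0 68719476736,
  .scale ⟨9162596898, 0, 0, 0⟩ 0,
  .const ⟨183251937962, 0, 0, 0⟩,
  .add 1 0,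
  .mul 0 3,
  .const ⟨1099511627776, 0, 0, 0⟩,
  .add 1 0,
  .const ⟨65536, 0, 0, 0⟩,
  .rball 1 0,
  .scale ⟨2199023255552, 0, 0, 0⟩ 13,
  .mul 0 1,
  .add 13 11,
  .scale ⟨549755813888, 0, 0, 0⟩ 0,
  .mul 2 0,
  .mul 0 0,
  .const ⟨9160359936, 0, 0, 0⟩,
  .sub 31 0,
  .const ⟨6764573491200, 0, 0, 0⟩,
  .sub 22 0,
  .mul 0 0,
  .mul 0 1,
  .mul 4 2,
  .mul 22 22,
  .mul 0 0,
  .scale ⟨13194139533312, 0, 0, 0⟩ 27,
  .neg 0,
  .exp 0,
  .scale ⟨127757647872, 0, 0, 0⟩ 8,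
  .scale ⟨5325914112, 0, 0, 0⟩ 8,
  .add 1 0,
  .scale ⟨0, 29491200, 0, 0⟩ 9,
  .add 1 0,
  .scale ⟨123671482335232, 0, 0, 0⟩ 15,
  .add 1 0,
  .scale ⟨17486232027136, 0, 0, 0⟩ 12,
  .add 1 0,
  .const ⟨1499974336512, 0, 0, 0⟩,
  .add 1 0,
  .mul 53 24,
  .mul 0 1,
  .add 0 54,
  .mul 14 0,
  .scale ⟨1099511627776, 0, 0, 0⟩ 18,
  .add 0 57,
  .mul 20 0,
  .add 0 59,
  .mul 23 0,
  .scale ⟨2199023255552, 0, 0, 0⟩ 0,
  .mul 10 21,
  .sub 1 0,
  .mul 65 0,
  .add 9 65,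
  .mul 1 37,
  .mul 0 70,
  .scale ⟨0, 0, 1099511627776, 0⟩ 2,
  .add 1 0,
  .mul 4 73,
  .scale ⟨0, 0, 1099511627776, 0⟩ 6,
  .add 1 0,
  .inv 0,
  .mul 4 0]

set_option maxRecDepth 1000000 in
noncomputable def c_B3_0 {α : Type} (cst : Z → α) (add sub mul : α → α → α) (scale : Z → α → α)
    (neg inv exp log : α → α) (ok : α → Bool) (isPos : Nat → α → Bool) (isLt : α → Nat → Bool)
    (ball : Nat → α → α) (rball : α → α → α) : List α → Bool
  | [x0, x1, x2, x3] =>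
  let v0 := cst ⟨1099511627776, 0, 0, 0⟩; ok v0 && (
  let v1 := scale ⟨2251799813685248, 0, 0, 0⟩ x0; ok v1 && (
  let v2 := scale ⟨19143850354176, 0, 0, 0⟩ v1; ok v2 && (
  let v3 := cst ⟨0, 1087313645928448, 0, 0⟩; ok v3 && (
  let v4 := add v2 v3; ok v4 && (
  let v5 := mul v4 x0; ok v5 && (
  let v6 := cst ⟨7774976081920, 0, 0, 0⟩; ok v6 && (
  let v7 := add v5 v6; ok v7 && (
  let v8 := mul x1 v7; ok v8 && (
  let v9 := cst ⟨6047313952768, 0, 0, 0⟩; ok v9 && (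
  let v10 := add v8 v9; ok v10 && (
  let v11 := mul x0 v10; ok v11 && (
  let v12 := exp v11; ok v12 && (
  let v13 := neg v11; ok v13 && (
  let v14 := exp v13; ok v14 && (
  let v15 := mul v11 v11; ok v15 && (
  isLt v15 68719476736 && (
  let v16 := scale ⟨9162596898, 0, 0, 0⟩ v15; ok v16 && (
  let v17 := cst ⟨183251937962, 0, 0, 0⟩; ok v17 && (
  let v18 := add v16 v17; ok v18 && (
  let v19 := mul v18 v15; ok v19 && (
  let v20 := cst ⟨1099511627776, 0, 0, 0⟩; ok v20 && (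
  let v21 := add v19 v20; ok v21 && (
  let v22 := cst ⟨65536, 0, 0, 0⟩; ok v22 && (
  let v23 := rball v21 v22; ok v23 && (
  let v24 := scale ⟨2199023255552, 0, 0, 0⟩ v10; ok v24 && (
  let v25 := mul v24 v23; ok v25 && (
  let v26 := add v12 v14; ok v26 && (
  let v27 := scale ⟨549755813888, 0, 0, 0⟩ v26; ok v27 && (
  let v28 := mul v25 v27; ok v28 && (
  let v29 := mul v28 v28; ok v29 && (
  let v30 := cst ⟨9160359936, 0, 0, 0⟩; ok v30 && (
  let v31 := sub x0 v30; ok v31 && (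
  let v32 := cst ⟨6764573491200, 0, 0, 0⟩; ok v32 && (
  let v33 := sub v10 v32; ok v33 && (
  let v34 := mul v33 v33; ok v34 && (
  let v35 := mul v34 v33; ok v35 && (
  let v36 := mul v31 v33; ok v36 && (
  let v37 := mul v14 v14; ok v37 && (
  let v38 := mul v37 v37; ok v38 && (
  let v39 := scale ⟨13194139533312, 0, 0, 0⟩ v11; ok v39 && (
  let v40 := neg v39; ok v40 && (
  let v41 := exp v40; ok v41 && (
  let v42 := scale ⟨127757647872, 0, 0, 0⟩ v33; ok v42 && (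
  let v43 := scale ⟨5325914112, 0, 0, 0⟩ v34; ok v43 && (
  let v44 := add v42 v43; ok v44 && (
  let v45 := scale ⟨0, 29491200, 0, 0⟩ v35; ok v45 && (
  let v46 := add v44 v45; ok v46 && (
  let v47 := scale ⟨123671482335232, 0, 0, 0⟩ v31; ok v47 && (
  let v48 := add v46 v47; ok v48 && (
  let v49 := scale ⟨17486232027136, 0, 0, 0⟩ v36; ok v49 && (
  let v50 := add v48 v49; ok v50 && (
  let v51 := cst ⟨1499974336512, 0, 0, 0⟩; ok v51 && (
  let v52 := add v50 v51; ok v52 && (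
  let v53 := mul x0 v28; ok v53 && (
  let v54 := mul v53 v52; ok v54 && (
  let v55 := add v54 v0; ok v55 && (
  let v56 := mul v41 v55; ok v56 && (
  let v57 := scale ⟨1099511627776, 0, 0, 0⟩ v38; ok v57 && (
  let v58 := add v57 v0; ok v58 && (
  let v59 := mul v38 v58; ok v59 && (
  let v60 := add v59 v0; ok v60 && (
  let v61 := mul v37 v60; ok v61 && (
  let v62 := scale ⟨2199023255552, 0, 0, 0⟩ v61; ok v62 && (
  let v63 := mul v52 v41; ok v63 && (
  let v64 := sub v62 v63; ok v64 && (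
  let v65 := mul x0 v64; ok v65 && (
  let v66 := add v56 v0; ok v66 && (
  let v67 := mul v65 v29; ok v67 && (
  let v68 := mul v67 x2; ok v68 && (
  let v69 := scale ⟨0, 0, 1099511627776, 0⟩ v66; ok v69 && (
  let v70 := add v68 v69; ok v70 && (
  let v71 := mul v66 x2; ok v71 && (
  let v72 := scale ⟨0, 0, 1099511627776, 0⟩ v65; ok v72 && (
  let v73 := add v71 v72; ok v73 && (
  let v74 := inv v73; ok v74 && (
  let v75 := mul v70 v74; ok v75 && (
  c2_3 cst add sub mul scale neg inv exp log ok isPos isLt ball rball [x0, v10, v75, x3])))))))))))))))))))))))))))))))))))))))))))))))))))))))))))))))))))))))))))))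
  | _ => false

set_option maxRecDepth 1000000 in
theorem c_B3_0_eq (X : XOps) (m : List X.O.α)
    (h : c_B3_0 X.O.cst X.O.add X.O.sub X.O.mul X.O.scale X.O.neg X.O.inv X.O.exp X.O.log X.O.ok
      X.O.isPos X.O.isLt X.ball X.rball m = true) :
    runX X 3 (p1_B3 ++ reloc [76, 65, 0, 79] 80 0 p2_3) m = true := by
  match m, h with
  | [x0, x1, x2, x3], h => exact share (c2_3_eq X) [x0, x1, x2, x3] (Nat.le_of_ble_eq_true rfl) h

def p_B3_1 : List Op := [
  .const ⟨1099511627776, 0, 0, 0⟩,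
  .scale ⟨2251799813685248, 0, 0, 0⟩ 1,
  .scale ⟨19143850354176, 0, 0, 0⟩ 0,
  .const ⟨0, 1087313645928448, 0, 0⟩,
  .add 1 0,
  .mul 0 5,
  .const ⟨7774976081920, 0, 0, 0⟩,
  .add 1 0,
  .mul 9 0,
  .const ⟨6047313952768, 0, 0, 0⟩,
  .add 1 0,
  .mul 11 0,
  .exp 0,
  .neg 1,
  .exp 0,
  .mul 3 3,
  .lt 0 68719476736,
  .scale ⟨9162596898, 0, 0, 0⟩ 0,
  .const ⟨183251937962, 0, 0, 0⟩,
  .add 1 0,
  .mul 0 3,
  .const ⟨1099511627776, 0, 0, 0⟩,
  .add 1 0,
  .const ⟨65536, 0, 0, 0⟩,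
  .rball 1 0,
  .scale ⟨2199023255552, 0, 0, 0⟩ 13,
  .mul 0 1,
  .add 13 11,
  .scale ⟨549755813888, 0, 0, 0⟩ 0,
  .mul 2 0,
  .mul 0 0,
  .const ⟨9160359936, 0, 0, 0⟩,
  .sub 31 0,
  .const ⟨6764573491200, 0, 0, 0⟩,
  .sub 22 0,
  .mul 0 0,
  .mul 0 1,
  .mul 4 2,
  .mul 22 22,
  .mul 0 0,
  .scale ⟨13194139533312, 0, 0, 0⟩ 27,
  .neg 0,
  .exp 0,
  .scale ⟨127757647872, 0, 0, 0⟩ 8,
  .scale ⟨5325914112, 0, 0, 0⟩ 8,
  .add 1 0,
  .scale ⟨0, 29491200, 0, 0⟩ 9,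
  .add 1 0,
  .scale ⟨123671482335232, 0, 0, 0⟩ 15,
  .add 1 0,
  .scale ⟨17486232027136, 0, 0, 0⟩ 12,
  .add 1 0,
  .const ⟨1499974336512, 0, 0, 0⟩,
  .add 1 0,
  .mul 53 24,
  .mul 0 1,
  .add 0 54,
  .mul 14 0,
  .scale ⟨1099511627776, 0, 0, 0⟩ 18,
  .add 0 57,
  .mul 20 0,
  .add 0 59,
  .mul 23 0,
  .scale ⟨2199023255552, 0, 0, 0⟩ 0,
  .mul 10 21,
  .sub 1 0,
  .mul 65 0,
  .add 9 65,
  .mul 1 37,
  .mul 0 70,
  .scale ⟨0, 0, 1099511627776, 0⟩ 2,
  .add 1 0,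
  .mul 4 73,
  .scale ⟨0, 0, 1099511627776, 0⟩ 6,
  .add 1 0,
  .inv 0,
  .mul 4 0,
  .const ⟨16771847290880, 0, 0, 0⟩,
  .add 47 0,
  .mul 78 0,
  .mul 79 3,
  .mul 0 4,
  .mul 81 51,
  .sub 1 0,
  .inv 0,
  .mul 5 0,
  .lt 0 1099511627520]

set_option maxRecDepth 1000000 in
noncomputable def c_B3_1 {α : Type} (cst : Z → α) (add sub mul : α → α → α) (scale : Z → α → α)
    (neg inv exp log : α → α) (ok : α → Bool) (isPos : Nat → α → Bool) (isLt : α → Nat → Bool)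
    (ball : Nat → α → α) (rball : α → α → α) : List α → Bool
  | [x0, x1, x2, x3] =>
  let v0 := cst ⟨1099511627776, 0, 0, 0⟩; ok v0 && (
  let v1 := scale ⟨2251799813685248, 0, 0, 0⟩ x0; ok v1 && (
  let v2 := scale ⟨19143850354176, 0, 0, 0⟩ v1; ok v2 && (
  let v3 := cst ⟨0, 1087313645928448, 0, 0⟩; ok v3 && (
  let v4 := add v2 v3; ok v4 && (
  let v5 := mul v4 x0; ok v5 && (
  let v6 := cst ⟨7774976081920, 0, 0, 0⟩; ok v6 && (
  let v7 := add v5 v6; ok v7 && (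
  let v8 := mul x1 v7; ok v8 && (
  let v9 := cst ⟨6047313952768, 0, 0, 0⟩; ok v9 && (
  let v10 := add v8 v9; ok v10 && (
  let v11 := mul x0 v10; ok v11 && (
  let v12 := exp v11; ok v12 && (
  let v13 := neg v11; ok v13 && (
  let v14 := exp v13; ok v14 && (
  let v15 := mul v11 v11; ok v15 && (
  isLt v15 68719476736 && (
  let v16 := scale ⟨9162596898, 0, 0, 0⟩ v15; ok v16 && (
  let v17 := cst ⟨183251937962, 0, 0, 0⟩; ok v17 && (
  let v18 := add v16 v17; ok v18 && (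
  let v19 := mul v18 v15; ok v19 && (
  let v20 := cst ⟨1099511627776, 0, 0, 0⟩; ok v20 && (
  let v21 := add v19 v20; ok v21 && (
  let v22 := cst ⟨65536, 0, 0, 0⟩; ok v22 && (
  let v23 := rball v21 v22; ok v23 && (
  let v24 := scale ⟨2199023255552, 0, 0, 0⟩ v10; ok v24 && (
  let v25 := mul v24 v23; ok v25 && (
  let v26 := add v12 v14; ok v26 && (
  let v27 := scale ⟨549755813888, 0, 0, 0⟩ v26; ok v27 && (
  let v28 := mul v25 v27; ok v28 && (
  let v29 := mul v28 v28; ok v29 && (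
  let v30 := cst ⟨9160359936, 0, 0, 0⟩; ok v30 && (
  let v31 := sub x0 v30; ok v31 && (
  let v32 := cst ⟨6764573491200, 0, 0, 0⟩; ok v32 && (
  let v33 := sub v10 v32; ok v33 && (
  let v34 := mul v33 v33; ok v34 && (
  let v35 := mul v34 v33; ok v35 && (
  let v36 := mul v31 v33; ok v36 && (
  let v37 := mul v14 v14; ok v37 && (
  let v38 := mul v37 v37; ok v38 && (
  let v39 := scale ⟨13194139533312, 0, 0, 0⟩ v11; ok v39 && (
  let v40 := neg v39; ok v40 && (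
  let v41 := exp v40; ok v41 && (
  let v42 := scale ⟨127757647872, 0, 0, 0⟩ v33; ok v42 && (
  let v43 := scale ⟨5325914112, 0, 0, 0⟩ v34; ok v43 && (
  let v44 := add v42 v43; ok v44 && (
  let v45 := scale ⟨0, 29491200, 0, 0⟩ v35; ok v45 && (
  let v46 := add v44 v45; ok v46 && (
  let v47 := scale ⟨123671482335232, 0, 0, 0⟩ v31; ok v47 && (
  let v48 := add v46 v47; ok v48 && (
  let v49 := scale ⟨17486232027136, 0, 0, 0⟩ v36; ok v49 && (
  let v50 := add v48 v49; ok v50 && (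
  let v51 := cst ⟨1499974336512, 0, 0, 0⟩; ok v51 && (
  let v52 := add v50 v51; ok v52 && (
  let v53 := mul x0 v28; ok v53 && (
  let v54 := mul v53 v52; ok v54 && (
  let v55 := add v54 v0; ok v55 && (
  let v56 := mul v41 v55; ok v56 && (
  let v57 := scale ⟨1099511627776, 0, 0, 0⟩ v38; ok v57 && (
  let v58 := add v57 v0; ok v58 && (
  let v59 := mul v38 v58; ok v59 && (
  let v60 := add v59 v0; ok v60 && (
  let v61 := mul v37 v60; ok v61 && (
  let v62 := scale ⟨2199023255552, 0, 0, 0⟩ v61; ok v62 && (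
  let v63 := mul v52 v41; ok v63 && (
  let v64 := sub v62 v63; ok v64 && (
  let v65 := mul x0 v64; ok v65 && (
  let v66 := add v56 v0; ok v66 && (
  let v67 := mul v65 v29; ok v67 && (
  let v68 := mul v67 x2; ok v68 && (
  let v69 := scale ⟨0, 0, 1099511627776, 0⟩ v66; ok v69 && (
  let v70 := add v68 v69; ok v70 && (
  let v71 := mul v66 x2; ok v71 && (
  let v72 := scale ⟨0, 0, 1099511627776, 0⟩ v65; ok v72 && (
  let v73 := add v71 v72; ok v73 && (
  let v74 := inv v73; ok v74 && (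
  let v75 := mul v70 v74; ok v75 && (
  let v76 := cst ⟨16771847290880, 0, 0, 0⟩; ok v76 && (
  let v77 := add v29 v76; ok v77 && (
  let v78 := mul x0 v77; ok v78 && (
  let v79 := mul x0 v75; ok v79 && (
  let v80 := mul v79 v75; ok v80 && (
  let v81 := mul x0 v29; ok v81 && (
  let v82 := sub v80 v81; ok v82 && (
  let v83 := inv v82; ok v83 && (
  let v84 := mul v78 v83; ok v84 && (
  isLt v84 1099511627520 && (
  true)))))))))))))))))))))))))))))))))))))))))))))))))))))))))))))))))))))))))))))))))))))))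
  | _ => false

set_option maxRecDepth 1000000 in
theorem c_B3_1_eq (X : XOps) (m : List X.O.α)
    (h : c_B3_1 X.O.cst X.O.add X.O.sub X.O.mul X.O.scale X.O.neg X.O.inv X.O.exp X.O.log X.O.ok
      X.O.isPos X.O.isLt X.ball X.rball m = true) :
    runX X 3 p_B3_1 m = true := by
  match m, h with
  | [x0, x1, x2, x3], h => exact h

abbrev gB3 : List (List Op) := [(p1_B3 ++ reloc [76, 65, 0, 79] 80 0 p2_3), p_B3_1]

noncomputable abbrev kB3 : List (List xE.O.α → Bool) := [c_B3_0 xE.O.cst xE.O.add xE.O.sub xE.O.mul xE.O.scale xE.O.neg xE.O.inv xE.O.exp xE.O.log xE.O.ok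
      xE.O.isPos xE.O.isLt xE.ball xE.rball, c_B3_1 xE.O.cst xE.O.add xE.O.sub xE.O.mul xE.O.scale xE.O.neg xE.O.inv xE.O.exp xE.O.log xE.O.ok
      xE.O.isPos xE.O.isLt xE.ball xE.rball]

theorem kB3_eq : List.Forall₂ (fun (ops : List Op) (chk : List xE.O.α → Bool) =>
    ∀ m, chk m = true → runX xE 3 ops m = true) gB3 kB3 :=
  List.Forall₂.cons (c_B3_0_eq xE) (List.Forall₂.cons (c_B3_1_eq xE) List.Forall₂.nil)

theorem gB3_eq : gB3 = [circ (cB tab 3) (PSm tab 3), altP (cB tab 3) (oCut tab 3)] := by decide +kernel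

def p1_D3 : List Op := [
  .const ⟨1099511627776, 0, 0, 0⟩,
  .scale ⟨2251799813685248, 0, 0, 0⟩ 1,
  .scale ⟨19143850354176, 0, 0, 0⟩ 0,
  .const ⟨0, 1087313645928448, 0, 0⟩,
  .add 1 0,
  .mul 0 5,
  .const ⟨7774976081920, 0, 0, 0⟩,
  .add 1 0,
  .mul 9 0,
  .const ⟨6047313952768, 0, 0, 0⟩,
  .add 1 0,
  .mul 11 0,
  .exp 0,
  .neg 1,
  .exp 0,
  .mul 3 3,
  .lt 0 68719476736,
  .scale ⟨9162596898, 0, 0, 0⟩ 0,
  .const ⟨183251937962, 0, 0, 0⟩,
  .add 1 0,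
  .mul 0 3,
  .const ⟨1099511627776, 0, 0, 0⟩,
  .add 1 0,
  .const ⟨65536, 0, 0, 0⟩,
  .rball 1 0,
  .scale ⟨2199023255552, 0, 0, 0⟩ 13,
  .mul 0 1,
  .add 13 11,
  .scale ⟨549755813888, 0, 0, 0⟩ 0,
  .mul 2 0,
  .mul 0 0,
  .const ⟨16771847290880, 0, 0, 0⟩,
  .add 1 0,
  .scale ⟨0, 0, 1099511627776, 0⟩ 34,
  .exp 0,
  .mul 2 0,
  .add 5 0,
  .log 0,
  .scale ⟨549755813888, 0, 0, 0⟩ 0,
  .exp 0]

set_option maxRecDepth 1000000 in
noncomputable def c_D3_0 {α : Type} (cst : Z → α) (add sub mul : α → α → α) (scale : Z → α → α)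
    (neg inv exp log : α → α) (ok : α → Bool) (isPos : Nat → α → Bool) (isLt : α → Nat → Bool)
    (ball : Nat → α → α) (rball : α → α → α) : List α → Bool
  | [x0, x1, x2, x3] =>
  let v0 := cst ⟨1099511627776, 0, 0, 0⟩; ok v0 && (
  let v1 := scale ⟨2251799813685248, 0, 0, 0⟩ x0; ok v1 && (
  let v2 := scale ⟨19143850354176, 0, 0, 0⟩ v1; ok v2 && (
  let v3 := cst ⟨0, 1087313645928448, 0, 0⟩; ok v3 && (
  let v4 := add v2 v3; ok v4 && (
  let v5 := mul v4 x0; ok v5 && (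
  let v6 := cst ⟨7774976081920, 0, 0, 0⟩; ok v6 && (
  let v7 := add v5 v6; ok v7 && (
  let v8 := mul x1 v7; ok v8 && (
  let v9 := cst ⟨6047313952768, 0, 0, 0⟩; ok v9 && (
  let v10 := add v8 v9; ok v10 && (
  let v11 := mul x0 v10; ok v11 && (
  let v12 := exp v11; ok v12 && (
  let v13 := neg v11; ok v13 && (
  let v14 := exp v13; ok v14 && (
  let v15 := mul v11 v11; ok v15 && (
  isLt v15 68719476736 && (
  let v16 := scale ⟨9162596898, 0, 0, 0⟩ v15; ok v16 && (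
  let v17 := cst ⟨183251937962, 0, 0, 0⟩; ok v17 && (
  let v18 := add v16 v17; ok v18 && (
  let v19 := mul v18 v15; ok v19 && (
  let v20 := cst ⟨1099511627776, 0, 0, 0⟩; ok v20 && (
  let v21 := add v19 v20; ok v21 && (
  let v22 := cst ⟨65536, 0, 0, 0⟩; ok v22 && (
  let v23 := rball v21 v22; ok v23 && (
  let v24 := scale ⟨2199023255552, 0, 0, 0⟩ v10; ok v24 && (
  let v25 := mul v24 v23; ok v25 && (
  let v26 := add v12 v14; ok v26 && (
  let v27 := scale ⟨549755813888, 0, 0, 0⟩ v26; ok v27 && (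
  let v28 := mul v25 v27; ok v28 && (
  let v29 := mul v28 v28; ok v29 && (
  let v30 := cst ⟨16771847290880, 0, 0, 0⟩; ok v30 && (
  let v31 := add v29 v30; ok v31 && (
  let v32 := scale ⟨0, 0, 1099511627776, 0⟩ x2; ok v32 && (
  let v33 := exp v32; ok v33 && (
  let v34 := mul v31 v33; ok v34 && (
  let v35 := add v29 v34; ok v35 && (
  let v36 := log v35; ok v36 && (
  let v37 := scale ⟨549755813888, 0, 0, 0⟩ v36; ok v37 && (
  let v38 := exp v37; ok v38 && (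
  c2_3 cst add sub mul scale neg inv exp log ok isPos isLt ball rball [x0, v10, v38, x3]))))))))))))))))))))))))))))))))))))))))
  | _ => false

set_option maxRecDepth 1000000 in
theorem c_D3_0_eq (X : XOps) (m : List X.O.α)
    (h : c_D3_0 X.O.cst X.O.add X.O.sub X.O.mul X.O.scale X.O.neg X.O.inv X.O.exp X.O.log X.O.ok
      X.O.isPos X.O.isLt X.ball X.rball m = true) :
    runX X 3 (p1_D3 ++ reloc [39, 28, 0, 42] 43 0 p2_3) m = true := by
  match m, h with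
  | [x0, x1, x2, x3], h => exact share (c2_3_eq X) [x0, x1, x2, x3] (Nat.le_of_ble_eq_true rfl) h

def p_D3_1 : List Op := [
  .const ⟨1099511627776, 0, 0, 0⟩,
  .scale ⟨2251799813685248, 0, 0, 0⟩ 1,
  .scale ⟨19143850354176, 0, 0, 0⟩ 0,
  .const ⟨0, 1087313645928448, 0, 0⟩,
  .add 1 0,
  .mul 0 5,
  .const ⟨7774976081920, 0, 0, 0⟩,
  .add 1 0,
  .mul 9 0,
  .const ⟨6047313952768, 0, 0, 0⟩,
  .add 1 0,
  .mul 11 0,
  .exp 0,
  .neg 1,
  .exp 0,
  .mul 3 3,
  .lt 0 68719476736,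
  .scale ⟨9162596898, 0, 0, 0⟩ 0,
  .const ⟨183251937962, 0, 0, 0⟩,
  .add 1 0,
  .mul 0 3,
  .const ⟨1099511627776, 0, 0, 0⟩,
  .add 1 0,
  .const ⟨65536, 0, 0, 0⟩,
  .rball 1 0,
  .scale ⟨2199023255552, 0, 0, 0⟩ 13,
  .mul 0 1,
  .add 13 11,
  .scale ⟨549755813888, 0, 0, 0⟩ 0,
  .mul 2 0,
  .mul 0 0,
  .const ⟨9160359936, 0, 0, 0⟩,
  .sub 31 0,
  .const ⟨6764573491200, 0, 0, 0⟩,
  .sub 22 0,
  .mul 0 0,
  .mul 0 1,
  .mul 4 2,
  .mul 22 22,
  .mul 0 0,
  .scale ⟨13194139533312, 0, 0, 0⟩ 27,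
  .neg 0,
  .exp 0,
  .scale ⟨127757647872, 0, 0, 0⟩ 8,
  .scale ⟨5325914112, 0, 0, 0⟩ 8,
  .add 1 0,
  .scale ⟨0, 29491200, 0, 0⟩ 9,
  .add 1 0,
  .scale ⟨123671482335232, 0, 0, 0⟩ 15,
  .add 1 0,
  .scale ⟨17486232027136, 0, 0, 0⟩ 12,
  .add 1 0,
  .const ⟨1499974336512, 0, 0, 0⟩,
  .add 1 0,
  .mul 53 24,
  .mul 0 1,
  .add 0 54,
  .mul 14 0,
  .scale ⟨1099511627776, 0, 0, 0⟩ 18,
  .add 0 57,
  .mul 20 0,
  .add 0 59,
  .mul 23 0,
  .scale ⟨2199023255552, 0, 0, 0⟩ 0,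
  .mul 10 21,
  .sub 1 0,
  .const ⟨16771847290880, 0, 0, 0⟩,
  .add 36 0,
  .scale ⟨0, 0, 1099511627776, 0⟩ 69,
  .exp 0,
  .mul 2 0,
  .add 40 0,
  .log 0,
  .scale ⟨549755813888, 0, 0, 0⟩ 0,
  .exp 0,
  .scale ⟨0, 0, 0, 1099511627776⟩ 76,
  .exp 0,
  .mul 9 0,
  .add 47 0,
  .log 0,
  .scale ⟨549755813888, 0, 0, 0⟩ 0,
  .exp 0,
  .mul 81 16,
  .add 25 81,
  .mul 1 0,
  .mul 10 3,
  .add 55 0,
  .mul 2 0,
  .mul 30 30,
  .add 0 87,
  .add 15 8,
  .mul 1 0,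
  .sub 4 0,
  .pos 0]

set_option maxRecDepth 1000000 in
noncomputable def c_D3_1 {α : Type} (cst : Z → α) (add sub mul : α → α → α) (scale : Z → α → α)
    (neg inv exp log : α → α) (ok : α → Bool) (isPos : Nat → α → Bool) (isLt : α → Nat → Bool)
    (ball : Nat → α → α) (rball : α → α → α) : List α → Bool
  | [x0, x1, x2, x3] =>
  let v0 := cst ⟨1099511627776, 0, 0, 0⟩; ok v0 && (
  let v1 := scale ⟨2251799813685248, 0, 0, 0⟩ x0; ok v1 && (
  let v2 := scale ⟨19143850354176, 0, 0, 0⟩ v1; ok v2 && (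
  let v3 := cst ⟨0, 1087313645928448, 0, 0⟩; ok v3 && (
  let v4 := add v2 v3; ok v4 && (
  let v5 := mul v4 x0; ok v5 && (
  let v6 := cst ⟨7774976081920, 0, 0, 0⟩; ok v6 && (
  let v7 := add v5 v6; ok v7 && (
  let v8 := mul x1 v7; ok v8 && (
  let v9 := cst ⟨6047313952768, 0, 0, 0⟩; ok v9 && (
  let v10 := add v8 v9; ok v10 && (
  let v11 := mul x0 v10; ok v11 && (
  let v12 := exp v11; ok v12 && (
  let v13 := neg v11; ok v13 && (
  let v14 := exp v13; ok v14 && (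
  let v15 := mul v11 v11; ok v15 && (
  isLt v15 68719476736 && (
  let v16 := scale ⟨9162596898, 0, 0, 0⟩ v15; ok v16 && (
  let v17 := cst ⟨183251937962, 0, 0, 0⟩; ok v17 && (
  let v18 := add v16 v17; ok v18 && (
  let v19 := mul v18 v15; ok v19 && (
  let v20 := cst ⟨1099511627776, 0, 0, 0⟩; ok v20 && (
  let v21 := add v19 v20; ok v21 && (
  let v22 := cst ⟨65536, 0, 0, 0⟩; ok v22 && (
  let v23 := rball v21 v22; ok v23 && (
  let v24 := scale ⟨2199023255552, 0, 0, 0⟩ v10; ok v24 && (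
  let v25 := mul v24 v23; ok v25 && (
  let v26 := add v12 v14; ok v26 && (
  let v27 := scale ⟨549755813888, 0, 0, 0⟩ v26; ok v27 && (
  let v28 := mul v25 v27; ok v28 && (
  let v29 := mul v28 v28; ok v29 && (
  let v30 := cst ⟨9160359936, 0, 0, 0⟩; ok v30 && (
  let v31 := sub x0 v30; ok v31 && (
  let v32 := cst ⟨6764573491200, 0, 0, 0⟩; ok v32 && (
  let v33 := sub v10 v32; ok v33 && (
  let v34 := mul v33 v33; ok v34 && (
  let v35 := mul v34 v33; ok v35 && (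
  let v36 := mul v31 v33; ok v36 && (
  let v37 := mul v14 v14; ok v37 && (
  let v38 := mul v37 v37; ok v38 && (
  let v39 := scale ⟨13194139533312, 0, 0, 0⟩ v11; ok v39 && (
  let v40 := neg v39; ok v40 && (
  let v41 := exp v40; ok v41 && (
  let v42 := scale ⟨127757647872, 0, 0, 0⟩ v33; ok v42 && (
  let v43 := scale ⟨5325914112, 0, 0, 0⟩ v34; ok v43 && (
  let v44 := add v42 v43; ok v44 && (
  let v45 := scale ⟨0, 29491200, 0, 0⟩ v35; ok v45 && (
  let v46 := add v44 v45; ok v46 && (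
  let v47 := scale ⟨123671482335232, 0, 0, 0⟩ v31; ok v47 && (
  let v48 := add v46 v47; ok v48 && (
  let v49 := scale ⟨17486232027136, 0, 0, 0⟩ v36; ok v49 && (
  let v50 := add v48 v49; ok v50 && (
  let v51 := cst ⟨1499974336512, 0, 0, 0⟩; ok v51 && (
  let v52 := add v50 v51; ok v52 && (
  let v53 := mul x0 v28; ok v53 && (
  let v54 := mul v53 v52; ok v54 && (
  let v55 := add v54 v0; ok v55 && (
  let v56 := mul v41 v55; ok v56 && (
  let v57 := scale ⟨1099511627776, 0, 0, 0⟩ v38; ok v57 && (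
  let v58 := add v57 v0; ok v58 && (
  let v59 := mul v38 v58; ok v59 && (
  let v60 := add v59 v0; ok v60 && (
  let v61 := mul v37 v60; ok v61 && (
  let v62 := scale ⟨2199023255552, 0, 0, 0⟩ v61; ok v62 && (
  let v63 := mul v52 v41; ok v63 && (
  let v64 := sub v62 v63; ok v64 && (
  let v65 := cst ⟨16771847290880, 0, 0, 0⟩; ok v65 && (
  let v66 := add v29 v65; ok v66 && (
  let v67 := scale ⟨0, 0, 1099511627776, 0⟩ x2; ok v67 && (
  let v68 := exp v67; ok v68 && (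
  let v69 := mul v66 v68; ok v69 && (
  let v70 := add v29 v69; ok v70 && (
  let v71 := log v70; ok v71 && (
  let v72 := scale ⟨549755813888, 0, 0, 0⟩ v71; ok v72 && (
  let v73 := exp v72; ok v73 && (
  let v74 := scale ⟨0, 0, 0, 1099511627776⟩ x2; ok v74 && (
  let v75 := exp v74; ok v75 && (
  let v76 := mul v66 v75; ok v76 && (
  let v77 := add v29 v76; ok v77 && (
  let v78 := log v77; ok v78 && (
  let v79 := scale ⟨549755813888, 0, 0, 0⟩ v78; ok v79 && (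
  let v80 := exp v79; ok v80 && (
  let v81 := mul x0 v64; ok v81 && (
  let v82 := add v56 v0; ok v82 && (
  let v83 := mul v81 v82; ok v83 && (
  let v84 := mul v73 v80; ok v84 && (
  let v85 := add v29 v84; ok v85 && (
  let v86 := mul v83 v85; ok v86 && (
  let v87 := mul v56 v56; ok v87 && (
  let v88 := add v87 v0; ok v88 && (
  let v89 := add v73 v80; ok v89 && (
  let v90 := mul v88 v89; ok v90 && (
  let v91 := sub v86 v90; ok v91 && (
  isPos 3 v91 && (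
  true))))))))))))))))))))))))))))))))))))))))))))))))))))))))))))))))))))))))))))))))))))))))))))))
  | _ => false

set_option maxRecDepth 1000000 in
theorem c_D3_1_eq (X : XOps) (m : List X.O.α)
    (h : c_D3_1 X.O.cst X.O.add X.O.sub X.O.mul X.O.scale X.O.neg X.O.inv X.O.exp X.O.log X.O.ok
      X.O.isPos X.O.isLt X.ball X.rball m = true) :
    runX X 3 p_D3_1 m = true := by
  match m, h with
  | [x0, x1, x2, x3], h => exact h

abbrev gD3 : List (List Op) := [(p1_D3 ++ reloc [39, 28, 0, 42] 43 0 p2_3), p_D3_1]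

noncomputable abbrev kD3 : List (List xE.O.α → Bool) := [c_D3_0 xE.O.cst xE.O.add xE.O.sub xE.O.mul xE.O.scale xE.O.neg xE.O.inv xE.O.exp xE.O.log xE.O.ok
      xE.O.isPos xE.O.isLt xE.ball xE.rball, c_D3_1 xE.O.cst xE.O.add xE.O.sub xE.O.mul xE.O.scale xE.O.neg xE.O.inv xE.O.exp xE.O.log xE.O.ok
      xE.O.isPos xE.O.isLt xE.ball xE.rball]

theorem kD3_eq : List.Forall₂ (fun (ops : List Op) (chk : List xE.O.α → Bool) =>
    ∀ m, chk m = true → runX xE 3 ops m = true) gD3 kD3 :=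
  List.Forall₂.cons (c_D3_0_eq xE) (List.Forall₂.cons (c_D3_1_eq xE) List.Forall₂.nil)

theorem gD3_eq : gD3 = [circ (cD tab 3) (PSm tab 3), comp (oD tab 3) ρ4 4] := by decide +kernel

def p1_E3 : List Op := [
  .const ⟨1099511627776, 0, 0, 0⟩,
  .scale ⟨2251799813685248, 0, 0, 0⟩ 1,
  .scale ⟨19143850354176, 0, 0, 0⟩ 0,
  .const ⟨0, 1087313645928448, 0, 0⟩,
  .add 1 0,
  .mul 0 5,
  .const ⟨7774976081920, 0, 0, 0⟩,
  .add 1 0,
  .mul 9 0,
  .const ⟨6047313952768, 0, 0, 0⟩,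
  .add 1 0,
  .mul 11 0,
  .exp 0,
  .neg 1,
  .exp 0,
  .mul 3 3,
  .lt 0 68719476736,
  .scale ⟨9162596898, 0, 0, 0⟩ 0,
  .const ⟨183251937962, 0, 0, 0⟩,
  .add 1 0,
  .mul 0 3,
  .const ⟨1099511627776, 0, 0, 0⟩,
  .add 1 0,
  .const ⟨65536, 0, 0, 0⟩,
  .rball 1 0,
  .scale ⟨2199023255552, 0, 0, 0⟩ 13,
  .mul 0 1,
  .add 13 11,
  .scale ⟨549755813888, 0, 0, 0⟩ 0,
  .mul 2 0,
  .mul 0 0,
  .const ⟨16771847290880, 0, 0, 0⟩,
  .add 1 0,
  .scale ⟨0, 0, 0, 1099511627776⟩ 34,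
  .exp 0,
  .mul 2 0,
  .sub 0 5,
  .log 0,
  .scale ⟨549755813888, 0, 0, 0⟩ 0,
  .exp 0,
  .scale ⟨0, 0, 1099511627776, 0⟩ 0]

set_option maxRecDepth 1000000 in
noncomputable def c_E3_0 {α : Type} (cst : Z → α) (add sub mul : α → α → α) (scale : Z → α → α)
    (neg inv exp log : α → α) (ok : α → Bool) (isPos : Nat → α → Bool) (isLt : α → Nat → Bool)
    (ball : Nat → α → α) (rball : α → α → α) : List α → Bool
  | [x0, x1, x2, x3] =>
  let v0 := cst ⟨1099511627776, 0, 0, 0⟩; ok v0 && (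
  let v1 := scale ⟨2251799813685248, 0, 0, 0⟩ x0; ok v1 && (
  let v2 := scale ⟨19143850354176, 0, 0, 0⟩ v1; ok v2 && (
  let v3 := cst ⟨0, 1087313645928448, 0, 0⟩; ok v3 && (
  let v4 := add v2 v3; ok v4 && (
  let v5 := mul v4 x0; ok v5 && (
  let v6 := cst ⟨7774976081920, 0, 0, 0⟩; ok v6 && (
  let v7 := add v5 v6; ok v7 && (
  let v8 := mul x1 v7; ok v8 && (
  let v9 := cst ⟨6047313952768, 0, 0, 0⟩; ok v9 && (
  let v10 := add v8 v9; ok v10 && (
  let v11 := mul x0 v10; ok v11 && (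
  let v12 := exp v11; ok v12 && (
  let v13 := neg v11; ok v13 && (
  let v14 := exp v13; ok v14 && (
  let v15 := mul v11 v11; ok v15 && (
  isLt v15 68719476736 && (
  let v16 := scale ⟨9162596898, 0, 0, 0⟩ v15; ok v16 && (
  let v17 := cst ⟨183251937962, 0, 0, 0⟩; ok v17 && (
  let v18 := add v16 v17; ok v18 && (
  let v19 := mul v18 v15; ok v19 && (
  let v20 := cst ⟨1099511627776, 0, 0, 0⟩; ok v20 && (
  let v21 := add v19 v20; ok v21 && (
  let v22 := cst ⟨65536, 0, 0, 0⟩; ok v22 && (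
  let v23 := rball v21 v22; ok v23 && (
  let v24 := scale ⟨2199023255552, 0, 0, 0⟩ v10; ok v24 && (
  let v25 := mul v24 v23; ok v25 && (
  let v26 := add v12 v14; ok v26 && (
  let v27 := scale ⟨549755813888, 0, 0, 0⟩ v26; ok v27 && (
  let v28 := mul v25 v27; ok v28 && (
  let v29 := mul v28 v28; ok v29 && (
  let v30 := cst ⟨16771847290880, 0, 0, 0⟩; ok v30 && (
  let v31 := add v29 v30; ok v31 && (
  let v32 := scale ⟨0, 0, 0, 1099511627776⟩ x2; ok v32 && (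
  let v33 := exp v32; ok v33 && (
  let v34 := mul v31 v33; ok v34 && (
  let v35 := sub v34 v29; ok v35 && (
  let v36 := log v35; ok v36 && (
  let v37 := scale ⟨549755813888, 0, 0, 0⟩ v36; ok v37 && (
  let v38 := exp v37; ok v38 && (
  let v39 := scale ⟨0, 0, 1099511627776, 0⟩ v38; ok v39 && (
  c2_3 cst add sub mul scale neg inv exp log ok isPos isLt ball rball [x0, v10, v39, x3])))))))))))))))))))))))))))))))))))))))))
  | _ => false

set_option maxRecDepth 1000000 in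
theorem c_E3_0_eq (X : XOps) (m : List X.O.α)
    (h : c_E3_0 X.O.cst X.O.add X.O.sub X.O.mul X.O.scale X.O.neg X.O.inv X.O.exp X.O.log X.O.ok
      X.O.isPos X.O.isLt X.ball X.rball m = true) :
    runX X 3 (p1_E3 ++ reloc [40, 29, 0, 43] 44 0 p2_3) m = true := by
  match m, h with
  | [x0, x1, x2, x3], h => exact share (c2_3_eq X) [x0, x1, x2, x3] (Nat.le_of_ble_eq_true rfl) h

def p_E3_1 : List Op := [
  .const ⟨1099511627776, 0, 0, 0⟩,
  .scale ⟨2251799813685248, 0, 0, 0⟩ 1,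
  .scale ⟨19143850354176, 0, 0, 0⟩ 0,
  .const ⟨0, 1087313645928448, 0, 0⟩,
  .add 1 0,
  .mul 0 5,
  .const ⟨7774976081920, 0, 0, 0⟩,
  .add 1 0,
  .mul 9 0,
  .const ⟨6047313952768, 0, 0, 0⟩,
  .add 1 0,
  .mul 11 0,
  .exp 0,
  .neg 1,
  .exp 0,
  .mul 3 3,
  .lt 0 68719476736,
  .scale ⟨9162596898, 0, 0, 0⟩ 0,
  .const ⟨183251937962, 0, 0, 0⟩,
  .add 1 0,
  .mul 0 3,
  .const ⟨1099511627776, 0, 0, 0⟩,
  .add 1 0,
  .const ⟨65536, 0, 0, 0⟩,
  .rball 1 0,
  .scale ⟨2199023255552, 0, 0, 0⟩ 13,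
  .mul 0 1,
  .add 13 11,
  .scale ⟨549755813888, 0, 0, 0⟩ 0,
  .mul 2 0,
  .mul 0 0,
  .const ⟨9160359936, 0, 0, 0⟩,
  .sub 31 0,
  .const ⟨6764573491200, 0, 0, 0⟩,
  .sub 22 0,
  .mul 0 0,
  .mul 0 1,
  .mul 4 2,
  .mul 22 22,
  .mul 0 0,
  .scale ⟨13194139533312, 0, 0, 0⟩ 27,
  .neg 0,
  .exp 0,
  .scale ⟨127757647872, 0, 0, 0⟩ 8,
  .scale ⟨5325914112, 0, 0, 0⟩ 8,
  .add 1 0,
  .scale ⟨0, 29491200, 0, 0⟩ 9,
  .add 1 0,
  .scale ⟨123671482335232, 0, 0, 0⟩ 15,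
  .add 1 0,
  .scale ⟨17486232027136, 0, 0, 0⟩ 12,
  .add 1 0,
  .const ⟨1499974336512, 0, 0, 0⟩,
  .add 1 0,
  .mul 53 24,
  .mul 0 1,
  .add 0 54,
  .mul 14 0,
  .scale ⟨1099511627776, 0, 0, 0⟩ 18,
  .add 0 57,
  .mul 20 0,
  .add 0 59,
  .mul 23 0,
  .scale ⟨2199023255552, 0, 0, 0⟩ 0,
  .mul 10 21,
  .sub 1 0,
  .const ⟨16771847290880, 0, 0, 0⟩,
  .add 36 0,
  .scale ⟨0, 0, 0, 1099511627776⟩ 69,
  .exp 0,
  .mul 2 0,
  .sub 0 40,
  .log 0,
  .scale ⟨549755813888, 0, 0, 0⟩ 0,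
  .exp 0,
  .scale ⟨0, 0, 1099511627776, 0⟩ 0,
  .scale ⟨0, 0, 1099511627776, 0⟩ 77,
  .exp 0,
  .mul 10 0,
  .sub 0 48,
  .log 0,
  .scale ⟨549755813888, 0, 0, 0⟩ 0,
  .exp 0,
  .scale ⟨0, 0, 0, 1099511627776⟩ 0,
  .mul 83 18,
  .add 27 83,
  .mul 1 0,
  .mul 11 3,
  .add 57 0,
  .mul 2 0,
  .mul 32 32,
  .add 0 89,
  .add 16 8,
  .mul 1 0,
  .sub 4 0,
  .pos 0]

set_option maxRecDepth 1000000 in
noncomputable def c_E3_1 {α : Type} (cst : Z → α) (add sub mul : α → α → α) (scale : Z → α → α)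
    (neg inv exp log : α → α) (ok : α → Bool) (isPos : Nat → α → Bool) (isLt : α → Nat → Bool)
    (ball : Nat → α → α) (rball : α → α → α) : List α → Bool
  | [x0, x1, x2, x3] =>
  let v0 := cst ⟨1099511627776, 0, 0, 0⟩; ok v0 && (
  let v1 := scale ⟨2251799813685248, 0, 0, 0⟩ x0; ok v1 && (
  let v2 := scale ⟨19143850354176, 0, 0, 0⟩ v1; ok v2 && (
  let v3 := cst ⟨0, 1087313645928448, 0, 0⟩; ok v3 && (
  let v4 := add v2 v3; ok v4 && (
  let v5 := mul v4 x0; ok v5 && (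
  let v6 := cst ⟨7774976081920, 0, 0, 0⟩; ok v6 && (
  let v7 := add v5 v6; ok v7 && (
  let v8 := mul x1 v7; ok v8 && (
  let v9 := cst ⟨6047313952768, 0, 0, 0⟩; ok v9 && (
  let v10 := add v8 v9; ok v10 && (
  let v11 := mul x0 v10; ok v11 && (
  let v12 := exp v11; ok v12 && (
  let v13 := neg v11; ok v13 && (
  let v14 := exp v13; ok v14 && (
  let v15 := mul v11 v11; ok v15 && (
  isLt v15 68719476736 && (
  let v16 := scale ⟨9162596898, 0, 0, 0⟩ v15; ok v16 && (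
  let v17 := cst ⟨183251937962, 0, 0, 0⟩; ok v17 && (
  let v18 := add v16 v17; ok v18 && (
  let v19 := mul v18 v15; ok v19 && (
  let v20 := cst ⟨1099511627776, 0, 0, 0⟩; ok v20 && (
  let v21 := add v19 v20; ok v21 && (
  let v22 := cst ⟨65536, 0, 0, 0⟩; ok v22 && (
  let v23 := rball v21 v22; ok v23 && (
  let v24 := scale ⟨2199023255552, 0, 0, 0⟩ v10; ok v24 && (
  let v25 := mul v24 v23; ok v25 && (
  let v26 := add v12 v14; ok v26 && (
  let v27 := scale ⟨549755813888, 0, 0, 0⟩ v26; ok v27 && (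
  let v28 := mul v25 v27; ok v28 && (
  let v29 := mul v28 v28; ok v29 && (
  let v30 := cst ⟨9160359936, 0, 0, 0⟩; ok v30 && (
  let v31 := sub x0 v30; ok v31 && (
  let v32 := cst ⟨6764573491200, 0, 0, 0⟩; ok v32 && (
  let v33 := sub v10 v32; ok v33 && (
  let v34 := mul v33 v33; ok v34 && (
  let v35 := mul v34 v33; ok v35 && (
  let v36 := mul v31 v33; ok v36 && (
  let v37 := mul v14 v14; ok v37 && (
  let v38 := mul v37 v37; ok v38 && (
  let v39 := scale ⟨13194139533312, 0, 0, 0⟩ v11; ok v39 && (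
  let v40 := neg v39; ok v40 && (
  let v41 := exp v40; ok v41 && (
  let v42 := scale ⟨127757647872, 0, 0, 0⟩ v33; ok v42 && (
  let v43 := scale ⟨5325914112, 0, 0, 0⟩ v34; ok v43 && (
  let v44 := add v42 v43; ok v44 && (
  let v45 := scale ⟨0, 29491200, 0, 0⟩ v35; ok v45 && (
  let v46 := add v44 v45; ok v46 && (
  let v47 := scale ⟨123671482335232, 0, 0, 0⟩ v31; ok v47 && (
  let v48 := add v46 v47; ok v48 && (
  let v49 := scale ⟨17486232027136, 0, 0, 0⟩ v36; ok v49 && (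
  let v50 := add v48 v49; ok v50 && (
  let v51 := cst ⟨1499974336512, 0, 0, 0⟩; ok v51 && (
  let v52 := add v50 v51; ok v52 && (
  let v53 := mul x0 v28; ok v53 && (
  let v54 := mul v53 v52; ok v54 && (
  let v55 := add v54 v0; ok v55 && (
  let v56 := mul v41 v55; ok v56 && (
  let v57 := scale ⟨1099511627776, 0, 0, 0⟩ v38; ok v57 && (
  let v58 := add v57 v0; ok v58 && (
  let v59 := mul v38 v58; ok v59 && (
  let v60 := add v59 v0; ok v60 && (
  let v61 := mul v37 v60; ok v61 && (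
  let v62 := scale ⟨2199023255552, 0, 0, 0⟩ v61; ok v62 && (
  let v63 := mul v52 v41; ok v63 && (
  let v64 := sub v62 v63; ok v64 && (
  let v65 := cst ⟨16771847290880, 0, 0, 0⟩; ok v65 && (
  let v66 := add v29 v65; ok v66 && (
  let v67 := scale ⟨0, 0, 0, 1099511627776⟩ x2; ok v67 && (
  let v68 := exp v67; ok v68 && (
  let v69 := mul v66 v68; ok v69 && (
  let v70 := sub v69 v29; ok v70 && (
  let v71 := log v70; ok v71 && (
  let v72 := scale ⟨549755813888, 0, 0, 0⟩ v71; ok v72 && (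
  let v73 := exp v72; ok v73 && (
  let v74 := scale ⟨0, 0, 1099511627776, 0⟩ v73; ok v74 && (
  let v75 := scale ⟨0, 0, 1099511627776, 0⟩ x2; ok v75 && (
  let v76 := exp v75; ok v76 && (
  let v77 := mul v66 v76; ok v77 && (
  let v78 := sub v77 v29; ok v78 && (
  let v79 := log v78; ok v79 && (
  let v80 := scale ⟨549755813888, 0, 0, 0⟩ v79; ok v80 && (
  let v81 := exp v80; ok v81 && (
  let v82 := scale ⟨0, 0, 0, 1099511627776⟩ v81; ok v82 && (
  let v83 := mul x0 v64; ok v83 && (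
  let v84 := add v56 v0; ok v84 && (
  let v85 := mul v83 v84; ok v85 && (
  let v86 := mul v74 v82; ok v86 && (
  let v87 := add v29 v86; ok v87 && (
  let v88 := mul v85 v87; ok v88 && (
  let v89 := mul v56 v56; ok v89 && (
  let v90 := add v89 v0; ok v90 && (
  let v91 := add v74 v82; ok v91 && (
  let v92 := mul v90 v91; ok v92 && (
  let v93 := sub v88 v92; ok v93 && (
  isPos 3 v93 && (
  true))))))))))))))))))))))))))))))))))))))))))))))))))))))))))))))))))))))))))))))))))))))))))))))))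
  | _ => false

set_option maxRecDepth 1000000 in
theorem c_E3_1_eq (X : XOps) (m : List X.O.α)
    (h : c_E3_1 X.O.cst X.O.add X.O.sub X.O.mul X.O.scale X.O.neg X.O.inv X.O.exp X.O.log X.O.ok
      X.O.isPos X.O.isLt X.ball X.rball m = true) :
    runX X 3 p_E3_1 m = true := by
  match m, h with
  | [x0, x1, x2, x3], h => exact h

abbrev gE3 : List (List Op) := [(p1_E3 ++ reloc [40, 29, 0, 43] 44 0 p2_3), p_E3_1]

noncomputable abbrev kE3 : List (List xE.O.α → Bool) := [c_E3_0 xE.O.cst xE.O.add xE.O.sub xE.O.mul xE.O.scale xE.O.neg xE.O.inv xE.O.exp xE.O.log xE.O.ok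
      xE.O.isPos xE.O.isLt xE.ball xE.rball, c_E3_1 xE.O.cst xE.O.add xE.O.sub xE.O.mul xE.O.scale xE.O.neg xE.O.inv xE.O.exp xE.O.log xE.O.ok
      xE.O.isPos xE.O.isLt xE.ball xE.rball]

theorem kE3_eq : List.Forall₂ (fun (ops : List Op) (chk : List xE.O.α → Bool) =>
    ∀ m, chk m = true → runX xE 3 ops m = true) gE3 kE3 :=
  List.Forall₂.cons (c_E3_0_eq xE) (List.Forall₂.cons (c_E3_1_eq xE) List.Forall₂.nil)

theorem gE3_eq : gE3 = [circ (cE tab 3) (PSm tab 3), comp (oE tab 3) ρ4 4] := by decide +kernel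

end Pool.Agent.helper14.NS.Q100g
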