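import Pool.Agent.helper14.NS.Q100g.Tab
import Pool.Agent.helper14.NR.Share

/-!
Generated: programs and compiled forms.
-/

namespace Pool.Agent.helper14.NS.Q100g

open Pool.Agent.helper31.IA (Z)
open Pool.Agent.helper31.IX (Op XOps runX Cov CovD cov_split covD_split)
open Pool.Agent.helper31.IC (TD)
open Pool.Agent.helper63.RG (reloc)
open Pool.Agent.helper63.NF hiding TD
open Pool.Agent.helper4.NS
open Pool.Agent.helper14.CF (xE covD_E)
open Pool.Agent.helper14.NR (share)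

def p_Z_0 : List Op := [
  .const ⟨1099511627776, 0, 0, 0⟩,
  .scale ⟨2251799813685248, 0, 0, 0⟩ 1,
  .scale ⟨19143850354176, 0, 0, 0⟩ 0,
  .const ⟨0, 1087313645928448, 0, 0⟩,
  .add 1 0,
  .mul 0 5,
  .const ⟨7774976081920, 0, 0, 0⟩,
  .add 1 0,
  .mul 9 0,
  .const ⟨6047313952768, 0, 0, 0⟩,
  .add 1 0,
  .mul 11 0,
  .scale ⟨2199023255552, 0, 0, 0⟩ 0,
  .exp 1,
  .neg 2,
  .exp 0,
  .mul 2 2,
  .mul 1 1,
  .mul 0 0,
  .add 2 1,
  .scale ⟨549755813888, 0, 0, 0⟩ 0,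
  .scale ⟨2199023255552, 0, 0, 0⟩ 10,
  .mul 10 10,
  .lt 0 68719476736,
  .scale ⟨9162596898, 0, 0, 0⟩ 0,
  .const ⟨183251937962, 0, 0, 0⟩,
  .add 1 0,
  .mul 0 3,
  .const ⟨1099511627776, 0, 0, 0⟩,
  .add 1 0,
  .const ⟨65536, 0, 0, 0⟩,
  .rball 1 0,
  .mul 9 0,
  .add 18 16,
  .scale ⟨549755813888, 0, 0, 0⟩ 0,
  .mul 2 0,
  .mul 3 3,
  .mul 36 0,
  .mul 2 2,
  .mul 38 0,
  .neg 17,
  .exp 0,
  .add 0 40,
  .pos 0,
  .log 0,
  .const ⟨9160359936, 0, 0, 0⟩,
  .sub 44 0,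
  .const ⟨6764573491200, 0, 0, 0⟩,
  .sub 35 0,
  .mul 0 0,
  .mul 0 1,
  .mul 4 2,
  .mul 5 5,
  .scale ⟨0, 5366331456, 0, 0⟩ 4,
  .scale ⟨110998656, 0, 0, 0⟩ 4,
  .add 1 0,
  .scale ⟨0, 15596544, 0, 0⟩ 5,
  .add 1 0,
  .scale ⟨2382337484672, 0, 0, 0⟩ 11,
  .add 1 0,
  .scale ⟨192313674880, 0, 0, 0⟩ 8,
  .add 1 0,
  .scale ⟨0, 4121748890880, 0, 0⟩ 9,
  .add 1 0,
  .const ⟨571222040576, 0, 0, 0⟩,
  .add 1 0,
  .scale ⟨366788544, 0, 0, 0⟩ 17,
  .scale ⟨0, 8216512, 0, 0⟩ 17,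
  .add 1 0,
  .scale ⟨0, 109440821824, 0, 0⟩ 22,
  .add 1 0,
  .scale ⟨0, 2116265152, 0, 0⟩ 19,
  .add 1 0,
  .const ⟨0, 921568384, 0, 0⟩,
  .add 1 0,
  .scale ⟨0, 15862656, 0, 0⟩ 26,
  .scale ⟨261824, 0, 0, 0⟩ 26,
  .add 1 0,
  .scale ⟨2379700096, 0, 0, 0⟩ 31,
  .add 1 0,
  .const ⟨15107456, 0, 0, 0⟩,
  .add 1 0,
  .scale ⟨408192, 0, 0, 0⟩ 33,
  .scale ⟨0, 31099520, 0, 0⟩ 36,
  .add 1 0,
  .const ⟨341440, 0, 0, 0⟩,
  .add 1 0,
  .scale ⟨0, 4736, 0, 0⟩ 38,
  .const ⟨0, 27456, 0, 0⟩,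
  .add 1 0,
  .scale ⟨0, 0, 1099511627776, 0⟩ 90,
  .scale ⟨549755813888, 0, 0, 0⟩ 0,
  .add 0 89,
  .inv 0,
  .mul 3 0,
  .scale ⟨207892282438464, 0, 0, 0⟩ 0,
  .const ⟨0, 299975402458880, 0, 0⟩,
  .add 1 0,
  .mul 3 0,
  .const ⟨341453142121600, 0, 0, 0⟩,
  .add 1 0,
  .mul 6 0,
  .const ⟨0, 245885997430272, 0, 0⟩,
  .add 1 0,
  .mul 9 0,
  .const ⟨137560478823680, 0, 0, 0⟩,
  .add 1 0,
  .mul 12 0,
  .const ⟨0, 60175633881600, 0, 0⟩,
  .add 1 0,
  .mul 15 0,
  .scale ⟨1828609138304, 0, 0, 0⟩ 62,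
  .scale ⟨626238666229824, 0, 0, 0⟩ 65,
  .add 1 0,
  .const ⟨19167964720640, 0, 0, 0⟩,
  .add 1 0,
  .add 5 0,
  .mul 22 0,
  .scale ⟨0, 121470390592, 0, 0⟩ 69,
  .scale ⟨0, 23959539433664, 0, 0⟩ 72,
  .add 1 0,
  .const ⟨0, 5391925041664, 0, 0⟩,
  .add 1 0,
  .add 5 0,
  .mul 29 0,
  .scale ⟨683669217024, 0, 0, 0⟩ 76,
  .scale ⟨229916822199488, 0, 0, 0⟩ 79,
  .add 1 0,
  .const ⟨1211831444224, 0, 0, 0⟩,
  .add 1 0,
  .add 5 0,
  .mul 36 0,
  .scale ⟨13517293120, 0, 0, 0⟩ 83,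
  .scale ⟨17680895421568, 0, 0, 0⟩ 86,
  .add 1 0,
  .const ⟨772257128320, 0, 0, 0⟩,
  .add 1 0,
  .add 5 0,
  .mul 43 0,
  .scale ⟨186386047296, 0, 0, 0⟩ 90,
  .scale ⟨50958487848640, 0, 0, 0⟩ 93,
  .add 1 0,
  .const ⟨1090538916096, 0, 0, 0⟩,
  .add 1 0,
  .add 5 0,
  .mul 50 0,
  .scale ⟨0, 154883620672, 0, 0⟩ 97,
  .scale ⟨0, 64380517069248, 0, 0⟩ 100,
  .add 1 0,
  .const ⟨3720631185856, 0, 0, 0⟩,
  .add 1 0,
  .add 5 0,
  .mul 57 0,
  .scale ⟨56593789760, 0, 0, 0⟩ 104,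
  .scale ⟨0, 1135985856, 0, 0⟩ 104,
  .add 1 0,
  .scale ⟨36263186745088, 0, 0, 0⟩ 109,
  .add 1 0,
  .scale ⟨5224298552832, 0, 0, 0⟩ 106,
  .add 1 0,
  .scale ⟨0, 293955435082240, 0, 0⟩ 107,
  .add 1 0,
  .const ⟨284610962752, 0, 0, 0⟩,
  .add 1 0,
  .mul 0 151,
  .add 12 0,
  .mul 164 164,
  .scale ⟨5703716569088, 0, 0, 0⟩ 0,
  .const ⟨1726576852992, 0, 0, 0⟩,
  .add 1 0,
  .scale ⟨4398046511104, 0, 0, 0⟩ 157,
  .mul 76 1,
  .scale ⟨4398046511104, 0, 0, 0⟩ 0,
  .add 2 0,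
  .const ⟨109951188992, 0, 0, 0⟩,
  .mul 0 1,
  .scale ⟨659814350848, 0, 0, 0⟩ 2,
  .add 0 174,
  .pos 0,
  .inv 0,
  .mul 3 0,
  .neg 14,
  .exp 0,
  .add 0 179,
  .pos 0,
  .log 0,
  .mul 4 185,
  .sub 182 0,
  .pos 0,
  .log 0,
  .mul 5 2,
  .add 0 185,
  .pos 0,
  .log 0,
  .sub 6 0,
  .add 178 146,
  .sub 1 0,
  .mul 0 191,
  .exp 0,
  .sub 5 8,
  .add 0 30,
  .mul 0 195,
  .exp 0,
  .mul 165 165,
  .scale ⟨274877906944, 0, 0, 0⟩ 0,
  .mul 34 0,
  .scale ⟨1649267441664, 0, 0, 0⟩ 0,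
  .add 0 200,
  .mul 34 0,
  .mul 205 0,
  .scale ⟨0, 0, 1099511627776, 0⟩ 0,
  .mul 0 0,
  .sub 7 0,
  .mul 14 14,
  .mul 0 1,
  .mul 44 0,
  .scale ⟨4398046511104, 0, 0, 0⟩ 0,
  .sub 210 0,
  .pos 0,
  .log 0,
  .scale ⟨549755813888, 0, 0, 0⟩ 0,
  .exp 0,
  .mul 215 7,
  .mul 17 19,
  .scale ⟨2199023255552, 0, 0, 0⟩ 10,
  .add 1 0,
  .mul 3 0,
  .mul 15 5,
  .mul 28 0,
  .add 2 0,
  .mul 26 0,
  .scale ⟨4398046511104, 0, 0, 0⟩ 0,
  .mul 225 0,
  .add 0 225,
  .pos 0,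
  .log 0,
  .scale ⟨549755813888, 0, 0, 0⟩ 0,
  .exp 0,
  .add 0 229,
  .pos 0,
  .inv 0,
  .mul 7 0,
  .scale ⟨549755813888, 0, 0, 0⟩ 196,
  .sub 1 0,
  .const ⟨11340861145088, 0, 0, 0⟩,
  .add 198 0,
  .pos 0,
  .mul 2 2,
  .sub 0 200,
  .inv 2,
  .mul 1 0,
  .lt 0 1099510579200,
  .mul 241 48,
  .mul 0 37,
  .scale ⟨2199023255552, 0, 0, 0⟩ 0,
  .sub 29 0,
  .pos 0,
  .add 231 229,
  .mul 41 0,
  .mul 247 0,
  .add 0 227,
  .pos 0,
  .inv 0,
  .mul 229 3,
  .add 0 212,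
  .mul 2 0,
  .pos 253,
  .inv 253,
  .sub 19 1,
  .mul 0 1,
  .add 9 221,
  .mul 239 8,
  .inv 1,
  .mul 1 0,
  .mul 0 4,
  .mul 261 0,
  .add 0 261,
  .scale ⟨34902638592, 0, 0, 0⟩ 216,
  .scale ⟨9623896064, 0, 0, 0⟩ 216,
  .add 1 0,
  .scale ⟨0, 816906240, 0, 0⟩ 217,
  .add 1 0,
  .scale ⟨46614906863616, 0, 0, 0⟩ 223,
  .add 1 0,
  .scale ⟨10701907558400, 0, 0, 0⟩ 220,
  .add 1 0,
  .const ⟨634817871872, 0, 0, 0⟩,
  .add 1 0,
  .scale ⟨2199023255552, 0, 0, 0⟩ 13,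
  .inv 12,
  .mul 16 0,
  .mul 2 0,
  .mul 261 261,
  .inv 5,
  .mul 1 0,
  .mul 3 0,
  .lt 0 1099510579200,
  .mul 282 47,
  .add 0 262,
  .pos 0,
  .inv 0,
  .mul 267 0,
  .sub 51 251,
  .add 269 2,
  .mul 1 0,
  .mul 3 0,
  .mul 272 255,
  .scale ⟨2199023255552, 0, 0, 0⟩ 0,
  .add 2 0,
  .scale ⟨0, 281251638411264, 0, 0⟩ 248,
  .const ⟨0, 4686346190848, 0, 0⟩,
  .add 1 0,
  .sub 3 0,
  .pos 0,
  .inv 0,
  .scale ⟨31362867265536, 0, 0, 0⟩ 0,
  .add 2 0,
  .pos 0,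
  .inv 0,
  .scale ⟨64432336512, 0, 0, 0⟩ 254,
  .scale ⟨0, 25828905312512, 0, 0⟩ 257,
  .add 1 0,
  .const ⟨0, 249762831488, 0, 0⟩,
  .add 1 0,
  .scale ⟨0, 128483546496, 0, 0⟩ 259,
  .scale ⟨52400427391360, 0, 0, 0⟩ 262,
  .add 1 0,
  .const ⟨631732208256, 0, 0, 0⟩,
  .add 1 0,
  .mul 13 0,
  .add 6 0,
  .mul 0 12,
  .scale ⟨576, 0, 0, 0⟩ 21,
  .add 0 227,
  .mul 23 0,
  .add 0 232,
  .mul 25 0,
  .add 0 239,
  .mul 27 0,
  .add 0 248,
  .mul 29 0,
  .add 9 259,
  .add 1 0,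
  .mul 35 0,
  .add 0 304,
  .neg 0,
  .exp 0,
  .add 0 328,
  .pos 0,
  .log 0,
  .add 167 149,
  .sub 0 1,
  .scale ⟨549755813888, 0, 0, 0⟩ 105,
  .mul 0 80,
  .sub 2 0,
  .exp 0,
  .scale ⟨9708306432, 0, 0, 0⟩ 244,
  .const ⟨0, 1083244544, 0, 0⟩,
  .add 1 0,
  .mul 247 0,
  .const ⟨11042947072, 0, 0, 0⟩,
  .add 1 0,
  .mul 250 0,
  .scale ⟨428146688, 0, 0, 0⟩ 297,
  .scale ⟨580818173952, 0, 0, 0⟩ 300,
  .add 1 0,
  .const ⟨6062276608, 0, 0, 0⟩,
  .add 1 0,
  .add 5 0,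
  .mul 257 0,
  .scale ⟨0, 1614741504, 0, 0⟩ 304,
  .scale ⟨3342828175360, 0, 0, 0⟩ 307,
  .add 1 0,
  .const ⟨35868246016, 0, 0, 0⟩,
  .add 1 0,
  .add 5 0,
  .mul 264 0,
  .scale ⟨7806058496, 0, 0, 0⟩ 311,
  .scale ⟨280166400, 0, 0, 0⟩ 311,
  .add 1 0,
  .scale ⟨4812293341184, 0, 0, 0⟩ 316,
  .add 1 0,
  .scale ⟨1494196092928, 0, 0, 0⟩ 313,
  .add 1 0,
  .scale ⟨237954307653632, 0, 0, 0⟩ 314,
  .add 1 0,
  .const ⟨1117554802688, 0, 0, 0⟩,
  .add 1 0,
  .add 11 0,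
  .inv 196,
  .mul 0 195,
  .scale ⟨989453090816, 0, 0, 0⟩ 137,
  .add 0 372,
  .pos 0,
  .scale ⟨79101952, 0, 0, 0⟩ 327,
  .scale ⟨119209984, 0, 0, 0⟩ 327,
  .add 1 0,
  .scale ⟨0, 14024704, 0, 0⟩ 328,
  .add 1 0,
  .scale ⟨24100798464, 0, 0, 0⟩ 334,
  .add 1 0,
  .scale ⟨0, 42952556544, 0, 0⟩ 331,
  .add 1 0,
  .const ⟨33210630144, 0, 0, 0⟩,
  .add 1 0,
  .scale ⟨1511828488192, 0, 0, 0⟩ 372,
  .neg 0,
  .exp 0,
  .mul 3 0,
  .scale ⟨2199023255552, 0, 0, 0⟩ 0,
  .add 155 355,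
  .mul 1 0,
  .inv 18,
  .mul 1 0,
  .const ⟨0, 0, 0, 0⟩,
  .mul 25 58,
  .mul 0 67,
  .mul 3 25,
  .mul 1 0,
  .rball 4 0,
  .sub 399 30,
  .mul 404 0,
  .sub 401 65,
  .mul 0 31,
  .mul 34 0,
  .add 3 0,
  .add 0 6,
  .lt 0 1099510579200]

set_option maxRecDepth 1000000 in
noncomputable def c_Z_0 {α : Type} (cst : Z → α) (add sub mul : α → α → α) (scale : Z → α → α)
    (neg inv exp log : α → α) (ok : α → Bool) (isPos : Nat → α → Bool) (isLt : α → Nat → Bool)
    (ball : Nat → α → α) (rball : α → α → α) : List α → Bool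
  | [x0, x1, x2, x3] =>
  let v0 := cst ⟨1099511627776, 0, 0, 0⟩; ok v0 && (
  let v1 := scale ⟨2251799813685248, 0, 0, 0⟩ x0; ok v1 && (
  let v2 := scale ⟨19143850354176, 0, 0, 0⟩ v1; ok v2 && (
  let v3 := cst ⟨0, 1087313645928448, 0, 0⟩; ok v3 && (
  let v4 := add v2 v3; ok v4 && (
  let v5 := mul v4 x0; ok v5 && (
  let v6 := cst ⟨7774976081920, 0, 0, 0⟩; ok v6 && (
  let v7 := add v5 v6; ok v7 && (
  let v8 := mul x1 v7; ok v8 && (
  let v9 := cst ⟨6047313952768, 0, 0, 0⟩; ok v9 && (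
  let v10 := add v8 v9; ok v10 && (
  let v11 := mul x0 v10; ok v11 && (
  let v12 := scale ⟨2199023255552, 0, 0, 0⟩ v11; ok v12 && (
  let v13 := exp v11; ok v13 && (
  let v14 := neg v11; ok v14 && (
  let v15 := exp v14; ok v15 && (
  let v16 := mul v13 v13; ok v16 && (
  let v17 := mul v15 v15; ok v17 && (
  let v18 := mul v17 v17; ok v18 && (
  let v19 := add v16 v17; ok v19 && (
  let v20 := scale ⟨549755813888, 0, 0, 0⟩ v19; ok v20 && (
  let v21 := scale ⟨2199023255552, 0, 0, 0⟩ v10; ok v21 && (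
  let v22 := mul v11 v11; ok v22 && (
  isLt v22 68719476736 && (
  let v23 := scale ⟨9162596898, 0, 0, 0⟩ v22; ok v23 && (
  let v24 := cst ⟨183251937962, 0, 0, 0⟩; ok v24 && (
  let v25 := add v23 v24; ok v25 && (
  let v26 := mul v25 v22; ok v26 && (
  let v27 := cst ⟨1099511627776, 0, 0, 0⟩; ok v27 && (
  let v28 := add v26 v27; ok v28 && (
  let v29 := cst ⟨65536, 0, 0, 0⟩; ok v29 && (
  let v30 := rball v28 v29; ok v30 && (
  let v31 := mul v21 v30; ok v31 && (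
  let v32 := add v13 v15; ok v32 && (
  let v33 := scale ⟨549755813888, 0, 0, 0⟩ v32; ok v33 && (
  let v34 := mul v31 v33; ok v34 && (
  let v35 := mul v31 v31; ok v35 && (
  let v36 := mul x0 v35; ok v36 && (
  let v37 := mul v34 v34; ok v37 && (
  let v38 := mul x0 v37; ok v38 && (
  let v39 := neg v21; ok v39 && (
  let v40 := exp v39; ok v40 && (
  let v41 := add v40 v0; ok v41 && (
  isPos 3 v41 && (
  let v42 := log v41; ok v42 && (
  let v43 := cst ⟨9160359936, 0, 0, 0⟩; ok v43 && (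
  let v44 := sub x0 v43; ok v44 && (
  let v45 := cst ⟨6764573491200, 0, 0, 0⟩; ok v45 && (
  let v46 := sub v10 v45; ok v46 && (
  let v47 := mul v46 v46; ok v47 && (
  let v48 := mul v47 v46; ok v48 && (
  let v49 := mul v44 v46; ok v49 && (
  let v50 := mul v44 v44; ok v50 && (
  let v51 := scale ⟨0, 5366331456, 0, 0⟩ v46; ok v51 && (
  let v52 := scale ⟨110998656, 0, 0, 0⟩ v47; ok v52 && (
  let v53 := add v51 v52; ok v53 && (
  let v54 := scale ⟨0, 15596544, 0, 0⟩ v48; ok v54 && (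
  let v55 := add v53 v54; ok v55 && (
  let v56 := scale ⟨2382337484672, 0, 0, 0⟩ v44; ok v56 && (
  let v57 := add v55 v56; ok v57 && (
  let v58 := scale ⟨192313674880, 0, 0, 0⟩ v49; ok v58 && (
  let v59 := add v57 v58; ok v59 && (
  let v60 := scale ⟨0, 4121748890880, 0, 0⟩ v50; ok v60 && (
  let v61 := add v59 v60; ok v61 && (
  let v62 := cst ⟨571222040576, 0, 0, 0⟩; ok v62 && (
  let v63 := add v61 v62; ok v63 && (
  let v64 := scale ⟨366788544, 0, 0, 0⟩ v46; ok v64 && (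
  let v65 := scale ⟨0, 8216512, 0, 0⟩ v47; ok v65 && (
  let v66 := add v64 v65; ok v66 && (
  let v67 := scale ⟨0, 109440821824, 0, 0⟩ v44; ok v67 && (
  let v68 := add v66 v67; ok v68 && (
  let v69 := scale ⟨0, 2116265152, 0, 0⟩ v49; ok v69 && (
  let v70 := add v68 v69; ok v70 && (
  let v71 := cst ⟨0, 921568384, 0, 0⟩; ok v71 && (
  let v72 := add v70 v71; ok v72 && (
  let v73 := scale ⟨0, 15862656, 0, 0⟩ v46; ok v73 && (
  let v74 := scale ⟨261824, 0, 0, 0⟩ v47; ok v74 && (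
  let v75 := add v73 v74; ok v75 && (
  let v76 := scale ⟨2379700096, 0, 0, 0⟩ v44; ok v76 && (
  let v77 := add v75 v76; ok v77 && (
  let v78 := cst ⟨15107456, 0, 0, 0⟩; ok v78 && (
  let v79 := add v77 v78; ok v79 && (
  let v80 := scale ⟨408192, 0, 0, 0⟩ v46; ok v80 && (
  let v81 := scale ⟨0, 31099520, 0, 0⟩ v44; ok v81 && (
  let v82 := add v80 v81; ok v82 && (
  let v83 := cst ⟨341440, 0, 0, 0⟩; ok v83 && (
  let v84 := add v82 v83; ok v84 && (
  let v85 := scale ⟨0, 4736, 0, 0⟩ v46; ok v85 && (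
  let v86 := cst ⟨0, 27456, 0, 0⟩; ok v86 && (
  let v87 := add v85 v86; ok v87 && (
  let v88 := scale ⟨0, 0, 1099511627776, 0⟩ x2; ok v88 && (
  let v89 := scale ⟨549755813888, 0, 0, 0⟩ v88; ok v89 && (
  let v90 := add v89 v0; ok v90 && (
  let v91 := inv v90; ok v91 && (
  let v92 := mul v88 v91; ok v92 && (
  let v93 := scale ⟨207892282438464, 0, 0, 0⟩ v92; ok v93 && (
  let v94 := cst ⟨0, 299975402458880, 0, 0⟩; ok v94 && (
  let v95 := add v93 v94; ok v95 && (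
  let v96 := mul v92 v95; ok v96 && (
  let v97 := cst ⟨341453142121600, 0, 0, 0⟩; ok v97 && (
  let v98 := add v96 v97; ok v98 && (
  let v99 := mul v92 v98; ok v99 && (
  let v100 := cst ⟨0, 245885997430272, 0, 0⟩; ok v100 && (
  let v101 := add v99 v100; ok v101 && (
  let v102 := mul v92 v101; ok v102 && (
  let v103 := cst ⟨137560478823680, 0, 0, 0⟩; ok v103 && (
  let v104 := add v102 v103; ok v104 && (
  let v105 := mul v92 v104; ok v105 && (
  let v106 := cst ⟨0, 60175633881600, 0, 0⟩; ok v106 && (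
  let v107 := add v105 v106; ok v107 && (
  let v108 := mul v92 v107; ok v108 && (
  let v109 := scale ⟨1828609138304, 0, 0, 0⟩ v46; ok v109 && (
  let v110 := scale ⟨626238666229824, 0, 0, 0⟩ v44; ok v110 && (
  let v111 := add v109 v110; ok v111 && (
  let v112 := cst ⟨19167964720640, 0, 0, 0⟩; ok v112 && (
  let v113 := add v111 v112; ok v113 && (
  let v114 := add v108 v113; ok v114 && (
  let v115 := mul v92 v114; ok v115 && (
  let v116 := scale ⟨0, 121470390592, 0, 0⟩ v46; ok v116 && (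
  let v117 := scale ⟨0, 23959539433664, 0, 0⟩ v44; ok v117 && (
  let v118 := add v116 v117; ok v118 && (
  let v119 := cst ⟨0, 5391925041664, 0, 0⟩; ok v119 && (
  let v120 := add v118 v119; ok v120 && (
  let v121 := add v115 v120; ok v121 && (
  let v122 := mul v92 v121; ok v122 && (
  let v123 := scale ⟨683669217024, 0, 0, 0⟩ v46; ok v123 && (
  let v124 := scale ⟨229916822199488, 0, 0, 0⟩ v44; ok v124 && (
  let v125 := add v123 v124; ok v125 && (
  let v126 := cst ⟨1211831444224, 0, 0, 0⟩; ok v126 && (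
  let v127 := add v125 v126; ok v127 && (
  let v128 := add v122 v127; ok v128 && (
  let v129 := mul v92 v128; ok v129 && (
  let v130 := scale ⟨13517293120, 0, 0, 0⟩ v46; ok v130 && (
  let v131 := scale ⟨17680895421568, 0, 0, 0⟩ v44; ok v131 && (
  let v132 := add v130 v131; ok v132 && (
  let v133 := cst ⟨772257128320, 0, 0, 0⟩; ok v133 && (
  let v134 := add v132 v133; ok v134 && (
  let v135 := add v129 v134; ok v135 && (
  let v136 := mul v92 v135; ok v136 && (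
  let v137 := scale ⟨186386047296, 0, 0, 0⟩ v46; ok v137 && (
  let v138 := scale ⟨50958487848640, 0, 0, 0⟩ v44; ok v138 && (
  let v139 := add v137 v138; ok v139 && (
  let v140 := cst ⟨1090538916096, 0, 0, 0⟩; ok v140 && (
  let v141 := add v139 v140; ok v141 && (
  let v142 := add v136 v141; ok v142 && (
  let v143 := mul v92 v142; ok v143 && (
  let v144 := scale ⟨0, 154883620672, 0, 0⟩ v46; ok v144 && (
  let v145 := scale ⟨0, 64380517069248, 0, 0⟩ v44; ok v145 && (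
  let v146 := add v144 v145; ok v146 && (
  let v147 := cst ⟨3720631185856, 0, 0, 0⟩; ok v147 && (
  let v148 := add v146 v147; ok v148 && (
  let v149 := add v143 v148; ok v149 && (
  let v150 := mul v92 v149; ok v150 && (
  let v151 := scale ⟨56593789760, 0, 0, 0⟩ v46; ok v151 && (
  let v152 := scale ⟨0, 1135985856, 0, 0⟩ v47; ok v152 && (
  let v153 := add v151 v152; ok v153 && (
  let v154 := scale ⟨36263186745088, 0, 0, 0⟩ v44; ok v154 && (
  let v155 := add v153 v154; ok v155 && (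
  let v156 := scale ⟨5224298552832, 0, 0, 0⟩ v49; ok v156 && (
  let v157 := add v155 v156; ok v157 && (
  let v158 := scale ⟨0, 293955435082240, 0, 0⟩ v50; ok v158 && (
  let v159 := add v157 v158; ok v159 && (
  let v160 := cst ⟨284610962752, 0, 0, 0⟩; ok v160 && (
  let v161 := add v159 v160; ok v161 && (
  let v162 := mul v161 v10; ok v162 && (
  let v163 := add v150 v162; ok v163 && (
  let v164 := mul x0 x0; ok v164 && (
  let v165 := scale ⟨5703716569088, 0, 0, 0⟩ v164; ok v165 && (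
  let v166 := cst ⟨1726576852992, 0, 0, 0⟩; ok v166 && (
  let v167 := add v165 v166; ok v167 && (
  let v168 := scale ⟨4398046511104, 0, 0, 0⟩ v10; ok v168 && (
  let v169 := mul v92 v167; ok v169 && (
  let v170 := scale ⟨4398046511104, 0, 0, 0⟩ v169; ok v170 && (
  let v171 := add v168 v170; ok v171 && (
  let v172 := cst ⟨109951188992, 0, 0, 0⟩; ok v172 && (
  let v173 := mul v172 v171; ok v173 && (
  let v174 := scale ⟨659814350848, 0, 0, 0⟩ v171; ok v174 && (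
  let v175 := add v174 v0; ok v175 && (
  isPos 3 v175 && (
  let v176 := inv v175; ok v176 && (
  let v177 := mul v173 v176; ok v177 && (
  let v178 := neg v163; ok v178 && (
  let v179 := exp v178; ok v179 && (
  let v180 := add v179 v0; ok v180 && (
  isPos 3 v180 && (
  let v181 := log v180; ok v181 && (
  let v182 := mul v177 x3; ok v182 && (
  let v183 := sub v0 v182; ok v183 && (
  isPos 3 v183 && (
  let v184 := log v183; ok v184 && (
  let v185 := mul v179 v182; ok v185 && (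
  let v186 := add v185 v0; ok v186 && (
  isPos 3 v186 && (
  let v187 := log v186; ok v187 && (
  let v188 := sub v181 v187; ok v188 && (
  let v189 := add v10 v42; ok v189 && (
  let v190 := sub v188 v189; ok v190 && (
  let v191 := mul v190 x0; ok v191 && (
  let v192 := exp v191; ok v192 && (
  let v193 := sub v187 v184; ok v193 && (
  let v194 := add v193 v163; ok v194 && (
  let v195 := mul v194 x0; ok v195 && (
  let v196 := exp v195; ok v196 && (
  let v197 := mul v31 v31; ok v197 && (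
  let v198 := scale ⟨274877906944, 0, 0, 0⟩ v197; ok v198 && (
  let v199 := mul v164 v198; ok v199 && (
  let v200 := scale ⟨1649267441664, 0, 0, 0⟩ v199; ok v200 && (
  let v201 := add v200 v0; ok v201 && (
  let v202 := mul v167 v201; ok v202 && (
  let v203 := mul x2 v202; ok v203 && (
  let v204 := scale ⟨0, 0, 1099511627776, 0⟩ v203; ok v204 && (
  let v205 := mul v204 v204; ok v205 && (
  let v206 := sub v198 v205; ok v206 && (
  let v207 := mul v192 v192; ok v207 && (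
  let v208 := mul v207 v206; ok v208 && (
  let v209 := mul v164 v208; ok v209 && (
  let v210 := scale ⟨4398046511104, 0, 0, 0⟩ v209; ok v210 && (
  let v211 := sub v0 v210; ok v211 && (
  isPos 3 v211 && (
  let v212 := log v211; ok v212 && (
  let v213 := scale ⟨549755813888, 0, 0, 0⟩ v212; ok v213 && (
  let v214 := exp v213; ok v214 && (
  let v215 := mul x0 v207; ok v215 && (
  let v216 := mul v198 v196; ok v216 && (
  let v217 := scale ⟨2199023255552, 0, 0, 0⟩ v206; ok v217 && (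
  let v218 := add v216 v217; ok v218 && (
  let v219 := mul v215 v218; ok v219 && (
  let v220 := mul v204 v214; ok v220 && (
  let v221 := mul v192 v220; ok v221 && (
  let v222 := add v219 v221; ok v222 && (
  let v223 := mul v196 v222; ok v223 && (
  let v224 := scale ⟨4398046511104, 0, 0, 0⟩ v223; ok v224 && (
  let v225 := mul x0 v224; ok v225 && (
  let v226 := add v225 v0; ok v226 && (
  isPos 3 v226 && (
  let v227 := log v226; ok v227 && (
  let v228 := scale ⟨549755813888, 0, 0, 0⟩ v227; ok v228 && (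
  let v229 := exp v228; ok v229 && (
  let v230 := add v229 v0; ok v230 && (
  isPos 3 v230 && (
  let v231 := inv v230; ok v231 && (
  let v232 := mul v224 v231; ok v232 && (
  let v233 := scale ⟨549755813888, 0, 0, 0⟩ v36; ok v233 && (
  let v234 := sub v232 v233; ok v234 && (
  let v235 := cst ⟨11340861145088, 0, 0, 0⟩; ok v235 && (
  let v236 := add v37 v235; ok v236 && (
  isPos 3 v236 && (
  let v237 := mul v234 v234; ok v237 && (
  let v238 := sub v237 v37; ok v238 && (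
  let v239 := inv v236; ok v239 && (
  let v240 := mul v238 v239; ok v240 && (
  isLt v240 1099510579200 && (
  let v241 := mul x0 v192; ok v241 && (
  let v242 := mul v241 v204; ok v242 && (
  let v243 := scale ⟨2199023255552, 0, 0, 0⟩ v242; ok v243 && (
  let v244 := sub v214 v243; ok v244 && (
  isPos 3 v244 && (
  let v245 := add v13 v15; ok v245 && (
  let v246 := mul v204 v245; ok v246 && (
  let v247 := mul x0 v246; ok v247 && (
  let v248 := add v247 v20; ok v248 && (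
  isPos 3 v248 && (
  let v249 := inv v248; ok v249 && (
  let v250 := mul v20 v246; ok v250 && (
  let v251 := add v250 v38; ok v251 && (
  let v252 := mul v249 v251; ok v252 && (
  isPos 3 x0 && (
  let v253 := inv x0; ok v253 && (
  let v254 := sub v234 v252; ok v254 && (
  let v255 := mul v254 v253; ok v255 && (
  let v256 := add v246 v34; ok v256 && (
  let v257 := mul v17 v248; ok v257 && (
  let v258 := inv v256; ok v258 && (
  let v259 := mul v257 v258; ok v259 && (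
  let v260 := mul v259 v255; ok v260 && (
  let v261 := mul x0 v260; ok v261 && (
  let v262 := add v261 v0; ok v262 && (
  let v263 := scale ⟨34902638592, 0, 0, 0⟩ v46; ok v263 && (
  let v264 := scale ⟨9623896064, 0, 0, 0⟩ v47; ok v264 && (
  let v265 := add v263 v264; ok v265 && (
  let v266 := scale ⟨0, 816906240, 0, 0⟩ v48; ok v266 && (
  let v267 := add v265 v266; ok v267 && (
  let v268 := scale ⟨46614906863616, 0, 0, 0⟩ v44; ok v268 && (
  let v269 := add v267 v268; ok v269 && (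
  let v270 := scale ⟨10701907558400, 0, 0, 0⟩ v49; ok v270 && (
  let v271 := add v269 v270; ok v271 && (
  let v272 := cst ⟨634817871872, 0, 0, 0⟩; ok v272 && (
  let v273 := add v271 v272; ok v273 && (
  let v274 := scale ⟨2199023255552, 0, 0, 0⟩ v260; ok v274 && (
  let v275 := inv v262; ok v275 && (
  let v276 := mul v259 v275; ok v276 && (
  let v277 := mul v274 v276; ok v277 && (
  let v278 := mul v16 v16; ok v278 && (
  let v279 := inv v273; ok v279 && (
  let v280 := mul v278 v279; ok v280 && (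
  let v281 := mul v277 v280; ok v281 && (
  isLt v281 1099510579200 && (
  let v282 := mul x0 v234; ok v282 && (
  let v283 := add v282 v20; ok v283 && (
  isPos 3 v283 && (
  let v284 := inv v283; ok v284 && (
  let v285 := mul v17 v284; ok v285 && (
  let v286 := sub v234 v34; ok v286 && (
  let v287 := add v17 v284; ok v287 && (
  let v288 := mul v286 v287; ok v288 && (
  let v289 := mul v285 v288; ok v289 && (
  let v290 := mul v17 v34; ok v290 && (
  let v291 := scale ⟨2199023255552, 0, 0, 0⟩ v290; ok v291 && (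
  let v292 := add v289 v291; ok v292 && (
  let v293 := scale ⟨0, 281251638411264, 0, 0⟩ v44; ok v293 && (
  let v294 := cst ⟨0, 4686346190848, 0, 0⟩; ok v294 && (
  let v295 := add v293 v294; ok v295 && (
  let v296 := sub v292 v295; ok v296 && (
  isPos 3 v296 && (
  let v297 := inv v296; ok v297 && (
  let v298 := scale ⟨31362867265536, 0, 0, 0⟩ v297; ok v298 && (
  let v299 := add v296 v298; ok v299 && (
  isPos 3 v299 && (
  let v300 := inv v299; ok v300 && (
  let v301 := scale ⟨64432336512, 0, 0, 0⟩ v46; ok v301 && (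
  let v302 := scale ⟨0, 25828905312512, 0, 0⟩ v44; ok v302 && (
  let v303 := add v301 v302; ok v303 && (
  let v304 := cst ⟨0, 249762831488, 0, 0⟩; ok v304 && (
  let v305 := add v303 v304; ok v305 && (
  let v306 := scale ⟨0, 128483546496, 0, 0⟩ v46; ok v306 && (
  let v307 := scale ⟨52400427391360, 0, 0, 0⟩ v44; ok v307 && (
  let v308 := add v306 v307; ok v308 && (
  let v309 := cst ⟨631732208256, 0, 0, 0⟩; ok v309 && (
  let v310 := add v308 v309; ok v310 && (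
  let v311 := mul v297 v310; ok v311 && (
  let v312 := add v305 v311; ok v312 && (
  let v313 := mul v312 v300; ok v313 && (
  let v314 := scale ⟨576, 0, 0, 0⟩ v292; ok v314 && (
  let v315 := add v314 v87; ok v315 && (
  let v316 := mul v292 v315; ok v316 && (
  let v317 := add v316 v84; ok v317 && (
  let v318 := mul v292 v317; ok v318 && (
  let v319 := add v318 v79; ok v319 && (
  let v320 := mul v292 v319; ok v320 && (
  let v321 := add v320 v72; ok v321 && (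
  let v322 := mul v292 v321; ok v322 && (
  let v323 := add v313 v63; ok v323 && (
  let v324 := add v322 v323; ok v324 && (
  let v325 := mul v289 v324; ok v325 && (
  let v326 := add v325 v21; ok v326 && (
  let v327 := neg v326; ok v327 && (
  let v328 := exp v327; ok v328 && (
  let v329 := add v328 v0; ok v329 && (
  isPos 3 v329 && (
  let v330 := log v329; ok v330 && (
  let v331 := add v163 v181; ok v331 && (
  let v332 := sub v331 v330; ok v332 && (
  let v333 := scale ⟨549755813888, 0, 0, 0⟩ v227; ok v333 && (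
  let v334 := mul v333 v253; ok v334 && (
  let v335 := sub v332 v334; ok v335 && (
  let v336 := exp v335; ok v336 && (
  let v337 := scale ⟨9708306432, 0, 0, 0⟩ v92; ok v337 && (
  let v338 := cst ⟨0, 1083244544, 0, 0⟩; ok v338 && (
  let v339 := add v337 v338; ok v339 && (
  let v340 := mul v92 v339; ok v340 && (
  let v341 := cst ⟨11042947072, 0, 0, 0⟩; ok v341 && (
  let v342 := add v340 v341; ok v342 && (
  let v343 := mul v92 v342; ok v343 && (
  let v344 := scale ⟨428146688, 0, 0, 0⟩ v46; ok v344 && (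
  let v345 := scale ⟨580818173952, 0, 0, 0⟩ v44; ok v345 && (
  let v346 := add v344 v345; ok v346 && (
  let v347 := cst ⟨6062276608, 0, 0, 0⟩; ok v347 && (
  let v348 := add v346 v347; ok v348 && (
  let v349 := add v343 v348; ok v349 && (
  let v350 := mul v92 v349; ok v350 && (
  let v351 := scale ⟨0, 1614741504, 0, 0⟩ v46; ok v351 && (
  let v352 := scale ⟨3342828175360, 0, 0, 0⟩ v44; ok v352 && (
  let v353 := add v351 v352; ok v353 && (
  let v354 := cst ⟨35868246016, 0, 0, 0⟩; ok v354 && (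
  let v355 := add v353 v354; ok v355 && (
  let v356 := add v350 v355; ok v356 && (
  let v357 := mul v92 v356; ok v357 && (
  let v358 := scale ⟨7806058496, 0, 0, 0⟩ v46; ok v358 && (
  let v359 := scale ⟨280166400, 0, 0, 0⟩ v47; ok v359 && (
  let v360 := add v358 v359; ok v360 && (
  let v361 := scale ⟨4812293341184, 0, 0, 0⟩ v44; ok v361 && (
  let v362 := add v360 v361; ok v362 && (
  let v363 := scale ⟨1494196092928, 0, 0, 0⟩ v49; ok v363 && (
  let v364 := add v362 v363; ok v364 && (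
  let v365 := scale ⟨237954307653632, 0, 0, 0⟩ v50; ok v365 && (
  let v366 := add v364 v365; ok v366 && (
  let v367 := cst ⟨1117554802688, 0, 0, 0⟩; ok v367 && (
  let v368 := add v366 v367; ok v368 && (
  let v369 := add v357 v368; ok v369 && (
  let v370 := inv v173; ok v370 && (
  let v371 := mul v370 v175; ok v371 && (
  let v372 := scale ⟨989453090816, 0, 0, 0⟩ v234; ok v372 && (
  let v373 := add v372 v0; ok v373 && (
  isPos 3 v373 && (
  let v374 := scale ⟨79101952, 0, 0, 0⟩ v46; ok v374 && (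
  let v375 := scale ⟨119209984, 0, 0, 0⟩ v47; ok v375 && (
  let v376 := add v374 v375; ok v376 && (
  let v377 := scale ⟨0, 14024704, 0, 0⟩ v48; ok v377 && (
  let v378 := add v376 v377; ok v378 && (
  let v379 := scale ⟨24100798464, 0, 0, 0⟩ v44; ok v379 && (
  let v380 := add v378 v379; ok v380 && (
  let v381 := scale ⟨0, 42952556544, 0, 0⟩ v49; ok v381 && (
  let v382 := add v380 v381; ok v382 && (
  let v383 := cst ⟨33210630144, 0, 0, 0⟩; ok v383 && (
  let v384 := add v382 v383; ok v384 && (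
  let v385 := scale ⟨1511828488192, 0, 0, 0⟩ v12; ok v385 && (
  let v386 := neg v385; ok v386 && (
  let v387 := exp v386; ok v387 && (
  let v388 := mul v384 v387; ok v388 && (
  let v389 := scale ⟨2199023255552, 0, 0, 0⟩ v388; ok v389 && (
  let v390 := add v234 v34; ok v390 && (
  let v391 := mul v389 v390; ok v391 && (
  let v392 := inv v373; ok v392 && (
  let v393 := mul v391 v392; ok v393 && (
  let v394 := cst ⟨0, 0, 0, 0⟩; ok v394 && (
  let v395 := mul v369 v336; ok v395 && (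
  let v396 := mul v395 v328; ok v396 && (
  let v397 := mul v393 v371; ok v397 && (
  let v398 := mul v396 v397; ok v398 && (
  let v399 := rball v394 v398; ok v399 && (
  let v400 := sub v0 v369; ok v400 && (
  let v401 := mul x3 v400; ok v401 && (
  let v402 := sub v0 v336; ok v402 && (
  let v403 := mul v402 v371; ok v403 && (
  let v404 := mul v369 v403; ok v404 && (
  let v405 := add v401 v404; ok v405 && (
  let v406 := add v405 v399; ok v406 && (
  isLt v406 1099510579200 && (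
  true))))))))))))))))))))))))))))))))))))))))))))))))))))))))))))))))))))))))))))))))))))))))))))))))))))))))))))))))))))))))))))))))))))))))))))))))))))))))))))))))))))))))))))))))))))))))))))))))))))))))))))))))))))))))))))))))))))))))))))))))))))))))))))))))))))))))))))))))))))))))))))))))))))))))))))))))))))))))))))))))))))))))))))))))))))))))))))))))))))))))))))))))))))))))))))))))))))))))))))))))))))))))))))))))))))))))))))
  | _ => false

set_option maxRecDepth 1000000 in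
theorem c_Z_0_eq (X : XOps) (m : List X.O.α)
    (h : c_Z_0 X.O.cst X.O.add X.O.sub X.O.mul X.O.scale X.O.neg X.O.inv X.O.exp X.O.log X.O.ok
      X.O.isPos X.O.isLt X.ball X.rball m = true) :
    runX X 3 p_Z_0 m = true := by
  match m, h with
  | [x0, x1, x2, x3], h => exact h

abbrev gZ : List (List Op) := [p_Z_0]

noncomputable abbrev kZ : List (List xE.O.α → Bool) := [c_Z_0 xE.O.cst xE.O.add xE.O.sub xE.O.mul xE.O.scale xE.O.neg xE.O.inv xE.O.exp xE.O.log xE.O.ok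
      xE.O.isPos xE.O.isLt xE.ball xE.rball]

theorem kZ_eq : List.Forall₂ (fun (ops : List Op) (chk : List xE.O.α → Bool) =>
    ∀ m, chk m = true → runX xE 3 ops m = true) gZ kZ :=
  List.Forall₂.cons (c_Z_0_eq xE) List.Forall₂.nil

theorem gZ_eq : gZ = [comp (PS0 tab) ρ4 4] := by decide +kernel

def p_T_0 : List Op := [
  .const ⟨1099511627776, 0, 0, 0⟩,
  .scale ⟨2251799813685248, 0, 0, 0⟩ 1,
  .scale ⟨19143850354176, 0, 0, 0⟩ 0,
  .const ⟨0, 1087313645928448, 0, 0⟩,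
  .add 1 0,
  .mul 0 5,
  .const ⟨7774976081920, 0, 0, 0⟩,
  .add 1 0,
  .mul 9 0,
  .const ⟨6047313952768, 0, 0, 0⟩,
  .add 1 0,
  .mul 11 0,
  .scale ⟨2199023255552, 0, 0, 0⟩ 0,
  .exp 1,
  .neg 2,
  .exp 0,
  .mul 2 2,
  .mul 1 1,
  .mul 0 0,
  .add 2 1,
  .scale ⟨549755813888, 0, 0, 0⟩ 0,
  .scale ⟨2199023255552, 0, 0, 0⟩ 10,
  .mul 10 10,
  .lt 0 68719476736,
  .scale ⟨9162596898, 0, 0, 0⟩ 0,
  .const ⟨183251937962, 0, 0, 0⟩,
  .add 1 0,
  .mul 0 3,
  .const ⟨1099511627776, 0, 0, 0⟩,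
  .add 1 0,
  .const ⟨65536, 0, 0, 0⟩,
  .rball 1 0,
  .mul 9 0,
  .add 18 16,
  .scale ⟨549755813888, 0, 0, 0⟩ 0,
  .mul 2 0,
  .mul 3 3,
  .mul 36 0,
  .mul 2 2,
  .mul 38 0,
  .neg 17,
  .exp 0,
  .add 0 40,
  .pos 0,
  .log 0,
  .const ⟨9160359936, 0, 0, 0⟩,
  .sub 44 0,
  .const ⟨6764573491200, 0, 0, 0⟩,
  .sub 35 0,
  .mul 0 0,
  .mul 0 1,
  .mul 4 2,
  .mul 5 5,
  .const ⟨714575183872, 0, 0, 0⟩,
  .scale ⟨0, 0, 1099511627776, 0⟩ 0,
  .scale ⟨549755813888, 0, 0, 0⟩ 0,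
  .add 0 53,
  .inv 0,
  .mul 3 0,
  .scale ⟨207892282438464, 0, 0, 0⟩ 0,
  .const ⟨0, 299975402458880, 0, 0⟩,
  .add 1 0,
  .mul 3 0,
  .const ⟨341453142121600, 0, 0, 0⟩,
  .add 1 0,
  .mul 6 0,
  .const ⟨0, 245885997430272, 0, 0⟩,
  .add 1 0,
  .mul 9 0,
  .const ⟨137560478823680, 0, 0, 0⟩,
  .add 1 0,
  .mul 12 0,
  .const ⟨0, 60175633881600, 0, 0⟩,
  .add 1 0,
  .mul 15 0,
  .scale ⟨1828609138304, 0, 0, 0⟩ 26,
  .scale ⟨626238666229824, 0, 0, 0⟩ 29,
  .add 1 0,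
  .const ⟨19167964720640, 0, 0, 0⟩,
  .add 1 0,
  .add 5 0,
  .mul 22 0,
  .scale ⟨0, 121470390592, 0, 0⟩ 33,
  .scale ⟨0, 23959539433664, 0, 0⟩ 36,
  .add 1 0,
  .const ⟨0, 5391925041664, 0, 0⟩,
  .add 1 0,
  .add 5 0,
  .mul 29 0,
  .scale ⟨683669217024, 0, 0, 0⟩ 40,
  .scale ⟨229916822199488, 0, 0, 0⟩ 43,
  .add 1 0,
  .const ⟨1211831444224, 0, 0, 0⟩,
  .add 1 0,
  .add 5 0,
  .mul 36 0,
  .scale ⟨13517293120, 0, 0, 0⟩ 47,
  .scale ⟨17680895421568, 0, 0, 0⟩ 50,
  .add 1 0,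
  .const ⟨772257128320, 0, 0, 0⟩,
  .add 1 0,
  .add 5 0,
  .mul 43 0,
  .scale ⟨186386047296, 0, 0, 0⟩ 54,
  .scale ⟨50958487848640, 0, 0, 0⟩ 57,
  .add 1 0,
  .const ⟨1090538916096, 0, 0, 0⟩,
  .add 1 0,
  .add 5 0,
  .mul 50 0,
  .scale ⟨0, 154883620672, 0, 0⟩ 61,
  .scale ⟨0, 64380517069248, 0, 0⟩ 64,
  .add 1 0,
  .const ⟨3720631185856, 0, 0, 0⟩,
  .add 1 0,
  .add 5 0,
  .mul 57 0,
  .scale ⟨56593789760, 0, 0, 0⟩ 68,
  .scale ⟨0, 1135985856, 0, 0⟩ 68,
  .add 1 0,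
  .scale ⟨36263186745088, 0, 0, 0⟩ 73,
  .add 1 0,
  .scale ⟨5224298552832, 0, 0, 0⟩ 70,
  .add 1 0,
  .scale ⟨0, 293955435082240, 0, 0⟩ 71,
  .add 1 0,
  .const ⟨284610962752, 0, 0, 0⟩,
  .add 1 0,
  .mul 0 115,
  .add 12 0,
  .mul 128 128,
  .scale ⟨5703716569088, 0, 0, 0⟩ 0,
  .const ⟨1726576852992, 0, 0, 0⟩,
  .add 1 0,
  .scale ⟨4398046511104, 0, 0, 0⟩ 121,
  .mul 76 1,
  .scale ⟨4398046511104, 0, 0, 0⟩ 0,
  .add 2 0,
  .const ⟨109951188992, 0, 0, 0⟩,
  .mul 0 1,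
  .scale ⟨659814350848, 0, 0, 0⟩ 2,
  .add 0 138,
  .pos 0,
  .inv 0,
  .mul 3 0,
  .neg 14,
  .exp 0,
  .add 0 143,
  .pos 0,
  .log 0,
  .mul 4 148,
  .sub 146 0,
  .pos 0,
  .log 0,
  .mul 5 2,
  .add 0 149,
  .pos 0,
  .log 0,
  .sub 6 0,
  .add 142 110,
  .sub 1 0,
  .mul 0 155,
  .exp 0,
  .sub 5 8,
  .add 0 30,
  .mul 0 159,
  .exp 0,
  .mul 129 129,
  .scale ⟨274877906944, 0, 0, 0⟩ 0,
  .mul 34 0,
  .scale ⟨1649267441664, 0, 0, 0⟩ 0,
  .add 0 164,
  .mul 34 0,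
  .mul 115 0,
  .scale ⟨0, 0, 1099511627776, 0⟩ 0,
  .mul 0 0,
  .sub 7 0,
  .mul 14 14,
  .mul 0 1,
  .mul 44 0,
  .scale ⟨4398046511104, 0, 0, 0⟩ 0,
  .sub 174 0,
  .pos 0,
  .log 0,
  .scale ⟨549755813888, 0, 0, 0⟩ 0,
  .exp 0,
  .mul 179 22,
  .mul 0 11,
  .scale ⟨2199023255552, 0, 0, 0⟩ 0,
  .sub 3 0,
  .pos 0,
  .pos 183,
  .inv 183,
  .const ⟨549755813888, 0, 0, 0⟩,
  .sub 33 39,
  .log 3,
  .mul 0 3,
  .add 2 0,
  .exp 0,
  .sub 5 0,
  .pos 0]

set_option maxRecDepth 1000000 in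
noncomputable def c_T_0 {α : Type} (cst : Z → α) (add sub mul : α → α → α) (scale : Z → α → α)
    (neg inv exp log : α → α) (ok : α → Bool) (isPos : Nat → α → Bool) (isLt : α → Nat → Bool)
    (ball : Nat → α → α) (rball : α → α → α) : List α → Bool
  | [x0, x1, x2] =>
  let v0 := cst ⟨1099511627776, 0, 0, 0⟩; ok v0 && (
  let v1 := scale ⟨2251799813685248, 0, 0, 0⟩ x0; ok v1 && (
  let v2 := scale ⟨19143850354176, 0, 0, 0⟩ v1; ok v2 && (
  let v3 := cst ⟨0, 1087313645928448, 0, 0⟩; ok v3 && (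
  let v4 := add v2 v3; ok v4 && (
  let v5 := mul v4 x0; ok v5 && (
  let v6 := cst ⟨7774976081920, 0, 0, 0⟩; ok v6 && (
  let v7 := add v5 v6; ok v7 && (
  let v8 := mul x1 v7; ok v8 && (
  let v9 := cst ⟨6047313952768, 0, 0, 0⟩; ok v9 && (
  let v10 := add v8 v9; ok v10 && (
  let v11 := mul x0 v10; ok v11 && (
  let v12 := scale ⟨2199023255552, 0, 0, 0⟩ v11; ok v12 && (
  let v13 := exp v11; ok v13 && (
  let v14 := neg v11; ok v14 && (
  let v15 := exp v14; ok v15 && (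
  let v16 := mul v13 v13; ok v16 && (
  let v17 := mul v15 v15; ok v17 && (
  let v18 := mul v17 v17; ok v18 && (
  let v19 := add v16 v17; ok v19 && (
  let v20 := scale ⟨549755813888, 0, 0, 0⟩ v19; ok v20 && (
  let v21 := scale ⟨2199023255552, 0, 0, 0⟩ v10; ok v21 && (
  let v22 := mul v11 v11; ok v22 && (
  isLt v22 68719476736 && (
  let v23 := scale ⟨9162596898, 0, 0, 0⟩ v22; ok v23 && (
  let v24 := cst ⟨183251937962, 0, 0, 0⟩; ok v24 && (
  let v25 := add v23 v24; ok v25 && (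
  let v26 := mul v25 v22; ok v26 && (
  let v27 := cst ⟨1099511627776, 0, 0, 0⟩; ok v27 && (
  let v28 := add v26 v27; ok v28 && (
  let v29 := cst ⟨65536, 0, 0, 0⟩; ok v29 && (
  let v30 := rball v28 v29; ok v30 && (
  let v31 := mul v21 v30; ok v31 && (
  let v32 := add v13 v15; ok v32 && (
  let v33 := scale ⟨549755813888, 0, 0, 0⟩ v32; ok v33 && (
  let v34 := mul v31 v33; ok v34 && (
  let v35 := mul v31 v31; ok v35 && (
  let v36 := mul x0 v35; ok v36 && (
  let v37 := mul v34 v34; ok v37 && (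
  let v38 := mul x0 v37; ok v38 && (
  let v39 := neg v21; ok v39 && (
  let v40 := exp v39; ok v40 && (
  let v41 := add v40 v0; ok v41 && (
  isPos 2 v41 && (
  let v42 := log v41; ok v42 && (
  let v43 := cst ⟨9160359936, 0, 0, 0⟩; ok v43 && (
  let v44 := sub x0 v43; ok v44 && (
  let v45 := cst ⟨6764573491200, 0, 0, 0⟩; ok v45 && (
  let v46 := sub v10 v45; ok v46 && (
  let v47 := mul v46 v46; ok v47 && (
  let v48 := mul v47 v46; ok v48 && (
  let v49 := mul v44 v46; ok v49 && (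
  let v50 := mul v44 v44; ok v50 && (
  let v51 := cst ⟨714575183872, 0, 0, 0⟩; ok v51 && (
  let v52 := scale ⟨0, 0, 1099511627776, 0⟩ v51; ok v52 && (
  let v53 := scale ⟨549755813888, 0, 0, 0⟩ v52; ok v53 && (
  let v54 := add v53 v0; ok v54 && (
  let v55 := inv v54; ok v55 && (
  let v56 := mul v52 v55; ok v56 && (
  let v57 := scale ⟨207892282438464, 0, 0, 0⟩ v56; ok v57 && (
  let v58 := cst ⟨0, 299975402458880, 0, 0⟩; ok v58 && (
  let v59 := add v57 v58; ok v59 && (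
  let v60 := mul v56 v59; ok v60 && (
  let v61 := cst ⟨341453142121600, 0, 0, 0⟩; ok v61 && (
  let v62 := add v60 v61; ok v62 && (
  let v63 := mul v56 v62; ok v63 && (
  let v64 := cst ⟨0, 245885997430272, 0, 0⟩; ok v64 && (
  let v65 := add v63 v64; ok v65 && (
  let v66 := mul v56 v65; ok v66 && (
  let v67 := cst ⟨137560478823680, 0, 0, 0⟩; ok v67 && (
  let v68 := add v66 v67; ok v68 && (
  let v69 := mul v56 v68; ok v69 && (
  let v70 := cst ⟨0, 60175633881600, 0, 0⟩; ok v70 && (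
  let v71 := add v69 v70; ok v71 && (
  let v72 := mul v56 v71; ok v72 && (
  let v73 := scale ⟨1828609138304, 0, 0, 0⟩ v46; ok v73 && (
  let v74 := scale ⟨626238666229824, 0, 0, 0⟩ v44; ok v74 && (
  let v75 := add v73 v74; ok v75 && (
  let v76 := cst ⟨19167964720640, 0, 0, 0⟩; ok v76 && (
  let v77 := add v75 v76; ok v77 && (
  let v78 := add v72 v77; ok v78 && (
  let v79 := mul v56 v78; ok v79 && (
  let v80 := scale ⟨0, 121470390592, 0, 0⟩ v46; ok v80 && (
  let v81 := scale ⟨0, 23959539433664, 0, 0⟩ v44; ok v81 && (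
  let v82 := add v80 v81; ok v82 && (
  let v83 := cst ⟨0, 5391925041664, 0, 0⟩; ok v83 && (
  let v84 := add v82 v83; ok v84 && (
  let v85 := add v79 v84; ok v85 && (
  let v86 := mul v56 v85; ok v86 && (
  let v87 := scale ⟨683669217024, 0, 0, 0⟩ v46; ok v87 && (
  let v88 := scale ⟨229916822199488, 0, 0, 0⟩ v44; ok v88 && (
  let v89 := add v87 v88; ok v89 && (
  let v90 := cst ⟨1211831444224, 0, 0, 0⟩; ok v90 && (
  let v91 := add v89 v90; ok v91 && (
  let v92 := add v86 v91; ok v92 && (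
  let v93 := mul v56 v92; ok v93 && (
  let v94 := scale ⟨13517293120, 0, 0, 0⟩ v46; ok v94 && (
  let v95 := scale ⟨17680895421568, 0, 0, 0⟩ v44; ok v95 && (
  let v96 := add v94 v95; ok v96 && (
  let v97 := cst ⟨772257128320, 0, 0, 0⟩; ok v97 && (
  let v98 := add v96 v97; ok v98 && (
  let v99 := add v93 v98; ok v99 && (
  let v100 := mul v56 v99; ok v100 && (
  let v101 := scale ⟨186386047296, 0, 0, 0⟩ v46; ok v101 && (
  let v102 := scale ⟨50958487848640, 0, 0, 0⟩ v44; ok v102 && (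
  let v103 := add v101 v102; ok v103 && (
  let v104 := cst ⟨1090538916096, 0, 0, 0⟩; ok v104 && (
  let v105 := add v103 v104; ok v105 && (
  let v106 := add v100 v105; ok v106 && (
  let v107 := mul v56 v106; ok v107 && (
  let v108 := scale ⟨0, 154883620672, 0, 0⟩ v46; ok v108 && (
  let v109 := scale ⟨0, 64380517069248, 0, 0⟩ v44; ok v109 && (
  let v110 := add v108 v109; ok v110 && (
  let v111 := cst ⟨3720631185856, 0, 0, 0⟩; ok v111 && (
  let v112 := add v110 v111; ok v112 && (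
  let v113 := add v107 v112; ok v113 && (
  let v114 := mul v56 v113; ok v114 && (
  let v115 := scale ⟨56593789760, 0, 0, 0⟩ v46; ok v115 && (
  let v116 := scale ⟨0, 1135985856, 0, 0⟩ v47; ok v116 && (
  let v117 := add v115 v116; ok v117 && (
  let v118 := scale ⟨36263186745088, 0, 0, 0⟩ v44; ok v118 && (
  let v119 := add v117 v118; ok v119 && (
  let v120 := scale ⟨5224298552832, 0, 0, 0⟩ v49; ok v120 && (
  let v121 := add v119 v120; ok v121 && (
  let v122 := scale ⟨0, 293955435082240, 0, 0⟩ v50; ok v122 && (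
  let v123 := add v121 v122; ok v123 && (
  let v124 := cst ⟨284610962752, 0, 0, 0⟩; ok v124 && (
  let v125 := add v123 v124; ok v125 && (
  let v126 := mul v125 v10; ok v126 && (
  let v127 := add v114 v126; ok v127 && (
  let v128 := mul x0 x0; ok v128 && (
  let v129 := scale ⟨5703716569088, 0, 0, 0⟩ v128; ok v129 && (
  let v130 := cst ⟨1726576852992, 0, 0, 0⟩; ok v130 && (
  let v131 := add v129 v130; ok v131 && (
  let v132 := scale ⟨4398046511104, 0, 0, 0⟩ v10; ok v132 && (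
  let v133 := mul v56 v131; ok v133 && (
  let v134 := scale ⟨4398046511104, 0, 0, 0⟩ v133; ok v134 && (
  let v135 := add v132 v134; ok v135 && (
  let v136 := cst ⟨109951188992, 0, 0, 0⟩; ok v136 && (
  let v137 := mul v136 v135; ok v137 && (
  let v138 := scale ⟨659814350848, 0, 0, 0⟩ v135; ok v138 && (
  let v139 := add v138 v0; ok v139 && (
  isPos 2 v139 && (
  let v140 := inv v139; ok v140 && (
  let v141 := mul v137 v140; ok v141 && (
  let v142 := neg v127; ok v142 && (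
  let v143 := exp v142; ok v143 && (
  let v144 := add v143 v0; ok v144 && (
  isPos 2 v144 && (
  let v145 := log v144; ok v145 && (
  let v146 := mul v141 x2; ok v146 && (
  let v147 := sub v0 v146; ok v147 && (
  isPos 2 v147 && (
  let v148 := log v147; ok v148 && (
  let v149 := mul v143 v146; ok v149 && (
  let v150 := add v149 v0; ok v150 && (
  isPos 2 v150 && (
  let v151 := log v150; ok v151 && (
  let v152 := sub v145 v151; ok v152 && (
  let v153 := add v10 v42; ok v153 && (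
  let v154 := sub v152 v153; ok v154 && (
  let v155 := mul v154 x0; ok v155 && (
  let v156 := exp v155; ok v156 && (
  let v157 := sub v151 v148; ok v157 && (
  let v158 := add v157 v127; ok v158 && (
  let v159 := mul v158 x0; ok v159 && (
  let v160 := exp v159; ok v160 && (
  let v161 := mul v31 v31; ok v161 && (
  let v162 := scale ⟨274877906944, 0, 0, 0⟩ v161; ok v162 && (
  let v163 := mul v128 v162; ok v163 && (
  let v164 := scale ⟨1649267441664, 0, 0, 0⟩ v163; ok v164 && (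
  let v165 := add v164 v0; ok v165 && (
  let v166 := mul v131 v165; ok v166 && (
  let v167 := mul v51 v166; ok v167 && (
  let v168 := scale ⟨0, 0, 1099511627776, 0⟩ v167; ok v168 && (
  let v169 := mul v168 v168; ok v169 && (
  let v170 := sub v162 v169; ok v170 && (
  let v171 := mul v156 v156; ok v171 && (
  let v172 := mul v171 v170; ok v172 && (
  let v173 := mul v128 v172; ok v173 && (
  let v174 := scale ⟨4398046511104, 0, 0, 0⟩ v173; ok v174 && (
  let v175 := sub v0 v174; ok v175 && (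
  isPos 2 v175 && (
  let v176 := log v175; ok v176 && (
  let v177 := scale ⟨549755813888, 0, 0, 0⟩ v176; ok v177 && (
  let v178 := exp v177; ok v178 && (
  let v179 := mul x0 v156; ok v179 && (
  let v180 := mul v179 v168; ok v180 && (
  let v181 := scale ⟨2199023255552, 0, 0, 0⟩ v180; ok v181 && (
  let v182 := sub v178 v181; ok v182 && (
  isPos 2 v182 && (
  isPos 2 x0 && (
  let v183 := inv x0; ok v183 && (
  let v184 := cst ⟨549755813888, 0, 0, 0⟩; ok v184 && (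
  let v185 := sub v151 v145; ok v185 && (
  let v186 := log v182; ok v186 && (
  let v187 := mul v186 v183; ok v187 && (
  let v188 := add v185 v187; ok v188 && (
  let v189 := exp v188; ok v189 && (
  let v190 := sub v184 v189; ok v190 && (
  isPos 2 v190 && (
  true)))))))))))))))))))))))))))))))))))))))))))))))))))))))))))))))))))))))))))))))))))))))))))))))))))))))))))))))))))))))))))))))))))))))))))))))))))))))))))))))))))))))))))))))))))))))))))))))))))))))))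
  | _ => false

set_option maxRecDepth 1000000 in
theorem c_T_0_eq (X : XOps) (m : List X.O.α)
    (h : c_T_0 X.O.cst X.O.add X.O.sub X.O.mul X.O.scale X.O.neg X.O.inv X.O.exp X.O.log X.O.ok
      X.O.isPos X.O.isLt X.ball X.rball m = true) :
    runX X 2 p_T_0 m = true := by
  match m, h with
  | [x0, x1, x2], h => exact h

abbrev gT : List (List Op) := [p_T_0]

noncomputable abbrev kT : List (List xE.O.α → Bool) := [c_T_0 xE.O.cst xE.O.add xE.O.sub xE.O.mul xE.O.scale xE.O.neg xE.O.inv xE.O.exp xE.O.log xE.O.ok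
      xE.O.isPos xE.O.isLt xE.ball xE.rball]

theorem kT_eq : List.Forall₂ (fun (ops : List Op) (chk : List xE.O.α → Bool) =>
    ∀ m, chk m = true → runX xE 2 ops m = true) gT kT :=
  List.Forall₂.cons (c_T_0_eq xE) List.Forall₂.nil

theorem gT_eq : gT = [comp (PST tab 714575183872) ρ3 3] := by decide +kernel

def p_S_0 : List Op := [
  .const ⟨1099511627776, 0, 0, 0⟩,
  .scale ⟨2251799813685248, 0, 0, 0⟩ 1,
  .scale ⟨19143850354176, 0, 0, 0⟩ 0,
  .const ⟨0, 1087313645928448, 0, 0⟩,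
  .add 1 0,
  .mul 0 5,
  .const ⟨7774976081920, 0, 0, 0⟩,
  .add 1 0,
  .mul 9 0,
  .const ⟨6047313952768, 0, 0, 0⟩,
  .add 1 0,
  .mul 11 0,
  .exp 0,
  .neg 1,
  .exp 0,
  .mul 3 3,
  .lt 0 68719476736,
  .scale ⟨9162596898, 0, 0, 0⟩ 0,
  .const ⟨183251937962, 0, 0, 0⟩,
  .add 1 0,
  .mul 0 3,
  .const ⟨1099511627776, 0, 0, 0⟩,
  .add 1 0,
  .const ⟨65536, 0, 0, 0⟩,
  .rball 1 0,
  .scale ⟨2199023255552, 0, 0, 0⟩ 13,
  .mul 0 1,
  .add 13 11,
  .scale ⟨549755813888, 0, 0, 0⟩ 0,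
  .mul 2 0,
  .mul 0 0,
  .const ⟨9160359936, 0, 0, 0⟩,
  .sub 31 0,
  .const ⟨6764573491200, 0, 0, 0⟩,
  .sub 22 0,
  .mul 0 0,
  .mul 0 1,
  .mul 4 2,
  .scale ⟨34902638592, 0, 0, 0⟩ 3,
  .scale ⟨9623896064, 0, 0, 0⟩ 3,
  .add 1 0,
  .scale ⟨0, 816906240, 0, 0⟩ 4,
  .add 1 0,
  .scale ⟨46614906863616, 0, 0, 0⟩ 10,
  .add 1 0,
  .scale ⟨10701907558400, 0, 0, 0⟩ 7,
  .add 1 0,
  .const ⟨634817871872, 0, 0, 0⟩,
  .add 1 0,
  .pos 0,
  .const ⟨11340861145088, 0, 0, 0⟩,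
  .add 19 0,
  .pos 0,
  .const ⟨9160359936, 0, 0, 0⟩,
  .sub 51 0,
  .const ⟨6764573491200, 0, 0, 0⟩,
  .sub 42 0,
  .mul 0 0,
  .mul 0 1,
  .mul 4 2,
  .mul 42 42,
  .mul 0 0,
  .scale ⟨4398046511104, 0, 0, 0⟩ 47,
  .neg 0,
  .exp 0,
  .scale ⟨34902638592, 0, 0, 0⟩ 8,
  .scale ⟨9623896064, 0, 0, 0⟩ 8,
  .add 1 0,
  .scale ⟨0, 816906240, 0, 0⟩ 9,
  .add 1 0,
  .scale ⟨46614906863616, 0, 0, 0⟩ 15,
  .add 1 0,
  .scale ⟨10701907558400, 0, 0, 0⟩ 12,
  .add 1 0,
  .const ⟨634817871872, 0, 0, 0⟩,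
  .add 1 0,
  .mul 73 44,
  .mul 0 1,
  .add 0 74,
  .mul 14 0,
  .scale ⟨2199023255552, 0, 0, 0⟩ 19,
  .mul 5 16,
  .sub 1 0,
  .pos 0,
  .scale ⟨52118880256, 0, 0, 0⟩ 26,
  .scale ⟨0, 2474770432, 0, 0⟩ 26,
  .add 1 0,
  .scale ⟨438566912, 0, 0, 0⟩ 27,
  .add 1 0,
  .scale ⟨41848365383680, 0, 0, 0⟩ 33,
  .add 1 0,
  .scale ⟨3792640278528, 0, 0, 0⟩ 30,
  .add 1 0,
  .const ⟨450769321984, 0, 0, 0⟩,
  .add 1 0,
  .pos 0,
  .const ⟨14885282906112, 0, 0, 0⟩,
  .add 62 0,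
  .pos 0,
  .const ⟨9160359936, 0, 0, 0⟩,
  .sub 94 0,
  .const ⟨6764573491200, 0, 0, 0⟩,
  .sub 85 0,
  .mul 0 0,
  .mul 0 1,
  .mul 4 2,
  .mul 85 85,
  .mul 0 0,
  .scale ⟨8796093022208, 0, 0, 0⟩ 90,
  .neg 0,
  .exp 0,
  .scale ⟨87021518848, 0, 0, 0⟩ 8,
  .scale ⟨7149125632, 0, 0, 0⟩ 8,
  .add 1 0,
  .scale ⟨0, 378339328, 0, 0⟩ 9,
  .add 1 0,
  .scale ⟨88463272247296, 0, 0, 0⟩ 15,
  .add 1 0,
  .scale ⟨14494547836928, 0, 0, 0⟩ 12,
  .add 1 0,
  .const ⟨1085587193856, 0, 0, 0⟩,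
  .add 1 0,
  .mul 116 87,
  .mul 0 1,
  .add 0 117,
  .mul 14 0,
  .scale ⟨1099511627776, 0, 0, 0⟩ 18,
  .add 0 120,
  .mul 21 0,
  .scale ⟨2199023255552, 0, 0, 0⟩ 0,
  .mul 8 19,
  .sub 1 0,
  .pos 0,
  .scale ⟨40736129024, 0, 0, 0⟩ 29,
  .scale ⟨0, 1823211520, 0, 0⟩ 29,
  .add 1 0,
  .scale ⟨348848128, 0, 0, 0⟩ 30,
  .add 1 0,
  .scale ⟨35208210087936, 0, 0, 0⟩ 36,
  .add 1 0,
  .scale ⟨2991684190208, 0, 0, 0⟩ 33,
  .add 1 0,
  .const ⟨414387142656, 0, 0, 0⟩,
  .add 1 0,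
  .pos 0,
  .const ⟨16771847290880, 0, 0, 0⟩,
  .add 108 0,
  .pos 0,
  .const ⟨9160359936, 0, 0, 0⟩,
  .sub 140 0,
  .const ⟨6764573491200, 0, 0, 0⟩,
  .sub 131 0,
  .mul 0 0,
  .mul 0 1,
  .mul 4 2,
  .mul 131 131,
  .mul 0 0,
  .scale ⟨13194139533312, 0, 0, 0⟩ 136,
  .neg 0,
  .exp 0,
  .scale ⟨127757647872, 0, 0, 0⟩ 8,
  .scale ⟨5325914112, 0, 0, 0⟩ 8,
  .add 1 0,
  .scale ⟨0, 29491200, 0, 0⟩ 9,
  .add 1 0,
  .scale ⟨123671482335232, 0, 0, 0⟩ 15,
  .add 1 0,
  .scale ⟨17486232027136, 0, 0, 0⟩ 12,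
  .add 1 0,
  .const ⟨1499974336512, 0, 0, 0⟩,
  .add 1 0,
  .mul 162 133,
  .mul 0 1,
  .add 0 163,
  .mul 14 0,
  .scale ⟨1099511627776, 0, 0, 0⟩ 18,
  .add 0 166,
  .mul 20 0,
  .add 0 168,
  .mul 23 0,
  .scale ⟨2199023255552, 0, 0, 0⟩ 0,
  .mul 10 21,
  .sub 1 0,
  .pos 0,
  .scale ⟨31569084416, 0, 0, 0⟩ 31,
  .scale ⟨0, 551682048, 0, 0⟩ 31,
  .add 1 0,
  .scale ⟨0, 465371136, 0, 0⟩ 32,
  .add 1 0,
  .scale ⟨30322111545344, 0, 0, 0⟩ 38,
  .add 1 0,
  .scale ⟨1926702235648, 0, 0, 0⟩ 35,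
  .add 1 0,
  .const ⟨389623775232, 0, 0, 0⟩,
  .add 1 0,
  .pos 0,
  .const ⟨17103633514496, 0, 0, 0⟩,
  .add 156 0,
  .pos 0,
  .const ⟨9160359936, 0, 0, 0⟩,
  .sub 188 0,
  .const ⟨6764573491200, 0, 0, 0⟩,
  .sub 179 0,
  .mul 0 0,
  .mul 0 1,
  .mul 4 2,
  .mul 179 179,
  .mul 0 0,
  .scale ⟨17592186044416, 0, 0, 0⟩ 184,
  .neg 0,
  .exp 0,
  .scale ⟨159326732288, 0, 0, 0⟩ 8,
  .scale ⟨4774232064, 0, 0, 0⟩ 8,
  .add 1 0,
  .scale ⟨0, 494862336, 0, 0⟩ 9,
  .add 1 0,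
  .scale ⟨153993593880576, 0, 0, 0⟩ 15,
  .add 1 0,
  .scale ⟨19412934262784, 0, 0, 0⟩ 12,
  .add 1 0,
  .const ⟨1889598111744, 0, 0, 0⟩,
  .add 1 0,
  .mul 210 181,
  .mul 0 1,
  .add 0 211,
  .mul 14 0,
  .scale ⟨1099511627776, 0, 0, 0⟩ 18,
  .add 0 214,
  .mul 20 0,
  .add 0 216,
  .mul 22 0,
  .add 0 218,
  .mul 25 0,
  .scale ⟨2199023255552, 0, 0, 0⟩ 0,
  .mul 12 23,
  .sub 1 0,
  .pos 0,
  .scale ⟨22686728192, 0, 0, 0⟩ 33,
  .scale ⟨0, 941948928, 0, 0⟩ 33,
  .add 1 0,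
  .scale ⟨0, 62586880, 0, 0⟩ 34,
  .add 1 0,
  .scale ⟨24990587486208, 0, 0, 0⟩ 40,
  .add 1 0,
  .scale ⟨623013396480, 0, 0, 0⟩ 37,
  .add 1 0,
  .const ⟨368838180864, 0, 0, 0⟩,
  .add 1 0,
  .pos 0,
  .const ⟨15794742231040, 0, 0, 0⟩,
  .add 206 0,
  .pos 0,
  .const ⟨9160359936, 0, 0, 0⟩,
  .sub 238 0,
  .const ⟨6764573491200, 0, 0, 0⟩,
  .sub 229 0,
  .mul 0 0,
  .mul 0 1,
  .mul 4 2,
  .mul 229 229,
  .mul 0 0,
  .scale ⟨21990232555520, 0, 0, 0⟩ 234,
  .neg 0,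
  .exp 0,
  .scale ⟨182013460480, 0, 0, 0⟩ 8,
  .scale ⟨3832283136, 0, 0, 0⟩ 8,
  .add 1 0,
  .scale ⟨0, 557449216, 0, 0⟩ 9,
  .add 1 0,
  .scale ⟨178984181366784, 0, 0, 0⟩ 15,
  .add 1 0,
  .scale ⟨20035947659264, 0, 0, 0⟩ 12,
  .add 1 0,
  .const ⟨2258436292608, 0, 0, 0⟩,
  .add 1 0,
  .mul 260 231,
  .mul 0 1,
  .add 0 261,
  .mul 14 0,
  .scale ⟨1099511627776, 0, 0, 0⟩ 18,
  .add 0 264,
  .mul 20 0,
  .add 0 266,
  .mul 22 0,
  .add 0 268,
  .mul 24 0,
  .add 0 270,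
  .mul 27 0,
  .scale ⟨2199023255552, 0, 0, 0⟩ 0,
  .mul 14 25,
  .sub 1 0,
  .pos 0,
  .mul 276 247,
  .mul 0 17,
  .add 0 277,
  .scale ⟨4837850742784, 0, 0, 0⟩ 267,
  .neg 0,
  .exp 0,
  .mul 3 0,
  .lt 0 1099511627520]

set_option maxRecDepth 1000000 in
noncomputable def c_S_0 {α : Type} (cst : Z → α) (add sub mul : α → α → α) (scale : Z → α → α)
    (neg inv exp log : α → α) (ok : α → Bool) (isPos : Nat → α → Bool) (isLt : α → Nat → Bool)
    (ball : Nat → α → α) (rball : α → α → α) : List α → Bool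
  | [x0, x1] =>
  let v0 := cst ⟨1099511627776, 0, 0, 0⟩; ok v0 && (
  let v1 := scale ⟨2251799813685248, 0, 0, 0⟩ x0; ok v1 && (
  let v2 := scale ⟨19143850354176, 0, 0, 0⟩ v1; ok v2 && (
  let v3 := cst ⟨0, 1087313645928448, 0, 0⟩; ok v3 && (
  let v4 := add v2 v3; ok v4 && (
  let v5 := mul v4 x0; ok v5 && (
  let v6 := cst ⟨7774976081920, 0, 0, 0⟩; ok v6 && (
  let v7 := add v5 v6; ok v7 && (
  let v8 := mul x1 v7; ok v8 && (
  let v9 := cst ⟨6047313952768, 0, 0, 0⟩; ok v9 && (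
  let v10 := add v8 v9; ok v10 && (
  let v11 := mul x0 v10; ok v11 && (
  let v12 := exp v11; ok v12 && (
  let v13 := neg v11; ok v13 && (
  let v14 := exp v13; ok v14 && (
  let v15 := mul v11 v11; ok v15 && (
  isLt v15 68719476736 && (
  let v16 := scale ⟨9162596898, 0, 0, 0⟩ v15; ok v16 && (
  let v17 := cst ⟨183251937962, 0, 0, 0⟩; ok v17 && (
  let v18 := add v16 v17; ok v18 && (
  let v19 := mul v18 v15; ok v19 && (
  let v20 := cst ⟨1099511627776, 0, 0, 0⟩; ok v20 && (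
  let v21 := add v19 v20; ok v21 && (
  let v22 := cst ⟨65536, 0, 0, 0⟩; ok v22 && (
  let v23 := rball v21 v22; ok v23 && (
  let v24 := scale ⟨2199023255552, 0, 0, 0⟩ v10; ok v24 && (
  let v25 := mul v24 v23; ok v25 && (
  let v26 := add v12 v14; ok v26 && (
  let v27 := scale ⟨549755813888, 0, 0, 0⟩ v26; ok v27 && (
  let v28 := mul v25 v27; ok v28 && (
  let v29 := mul v28 v28; ok v29 && (
  let v30 := cst ⟨9160359936, 0, 0, 0⟩; ok v30 && (
  let v31 := sub x0 v30; ok v31 && (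
  let v32 := cst ⟨6764573491200, 0, 0, 0⟩; ok v32 && (
  let v33 := sub v10 v32; ok v33 && (
  let v34 := mul v33 v33; ok v34 && (
  let v35 := mul v34 v33; ok v35 && (
  let v36 := mul v31 v33; ok v36 && (
  let v37 := scale ⟨34902638592, 0, 0, 0⟩ v33; ok v37 && (
  let v38 := scale ⟨9623896064, 0, 0, 0⟩ v34; ok v38 && (
  let v39 := add v37 v38; ok v39 && (
  let v40 := scale ⟨0, 816906240, 0, 0⟩ v35; ok v40 && (
  let v41 := add v39 v40; ok v41 && (
  let v42 := scale ⟨46614906863616, 0, 0, 0⟩ v31; ok v42 && (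
  let v43 := add v41 v42; ok v43 && (
  let v44 := scale ⟨10701907558400, 0, 0, 0⟩ v36; ok v44 && (
  let v45 := add v43 v44; ok v45 && (
  let v46 := cst ⟨634817871872, 0, 0, 0⟩; ok v46 && (
  let v47 := add v45 v46; ok v47 && (
  isPos 2 v47 && (
  let v48 := cst ⟨11340861145088, 0, 0, 0⟩; ok v48 && (
  let v49 := add v29 v48; ok v49 && (
  isPos 2 v49 && (
  let v50 := cst ⟨9160359936, 0, 0, 0⟩; ok v50 && (
  let v51 := sub x0 v50; ok v51 && (
  let v52 := cst ⟨6764573491200, 0, 0, 0⟩; ok v52 && (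
  let v53 := sub v10 v52; ok v53 && (
  let v54 := mul v53 v53; ok v54 && (
  let v55 := mul v54 v53; ok v55 && (
  let v56 := mul v51 v53; ok v56 && (
  let v57 := mul v14 v14; ok v57 && (
  let v58 := mul v57 v57; ok v58 && (
  let v59 := scale ⟨4398046511104, 0, 0, 0⟩ v11; ok v59 && (
  let v60 := neg v59; ok v60 && (
  let v61 := exp v60; ok v61 && (
  let v62 := scale ⟨34902638592, 0, 0, 0⟩ v53; ok v62 && (
  let v63 := scale ⟨9623896064, 0, 0, 0⟩ v54; ok v63 && (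
  let v64 := add v62 v63; ok v64 && (
  let v65 := scale ⟨0, 816906240, 0, 0⟩ v55; ok v65 && (
  let v66 := add v64 v65; ok v66 && (
  let v67 := scale ⟨46614906863616, 0, 0, 0⟩ v51; ok v67 && (
  let v68 := add v66 v67; ok v68 && (
  let v69 := scale ⟨10701907558400, 0, 0, 0⟩ v56; ok v69 && (
  let v70 := add v68 v69; ok v70 && (
  let v71 := cst ⟨634817871872, 0, 0, 0⟩; ok v71 && (
  let v72 := add v70 v71; ok v72 && (
  let v73 := mul x0 v28; ok v73 && (
  let v74 := mul v73 v72; ok v74 && (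
  let v75 := add v74 v0; ok v75 && (
  let v76 := mul v61 v75; ok v76 && (
  let v77 := scale ⟨2199023255552, 0, 0, 0⟩ v57; ok v77 && (
  let v78 := mul v72 v61; ok v78 && (
  let v79 := sub v77 v78; ok v79 && (
  isPos 2 v79 && (
  let v80 := scale ⟨52118880256, 0, 0, 0⟩ v53; ok v80 && (
  let v81 := scale ⟨0, 2474770432, 0, 0⟩ v54; ok v81 && (
  let v82 := add v80 v81; ok v82 && (
  let v83 := scale ⟨438566912, 0, 0, 0⟩ v55; ok v83 && (
  let v84 := add v82 v83; ok v84 && (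
  let v85 := scale ⟨41848365383680, 0, 0, 0⟩ v51; ok v85 && (
  let v86 := add v84 v85; ok v86 && (
  let v87 := scale ⟨3792640278528, 0, 0, 0⟩ v56; ok v87 && (
  let v88 := add v86 v87; ok v88 && (
  let v89 := cst ⟨450769321984, 0, 0, 0⟩; ok v89 && (
  let v90 := add v88 v89; ok v90 && (
  isPos 2 v90 && (
  let v91 := cst ⟨14885282906112, 0, 0, 0⟩; ok v91 && (
  let v92 := add v29 v91; ok v92 && (
  isPos 2 v92 && (
  let v93 := cst ⟨9160359936, 0, 0, 0⟩; ok v93 && (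
  let v94 := sub x0 v93; ok v94 && (
  let v95 := cst ⟨6764573491200, 0, 0, 0⟩; ok v95 && (
  let v96 := sub v10 v95; ok v96 && (
  let v97 := mul v96 v96; ok v97 && (
  let v98 := mul v97 v96; ok v98 && (
  let v99 := mul v94 v96; ok v99 && (
  let v100 := mul v14 v14; ok v100 && (
  let v101 := mul v100 v100; ok v101 && (
  let v102 := scale ⟨8796093022208, 0, 0, 0⟩ v11; ok v102 && (
  let v103 := neg v102; ok v103 && (
  let v104 := exp v103; ok v104 && (
  let v105 := scale ⟨87021518848, 0, 0, 0⟩ v96; ok v105 && (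
  let v106 := scale ⟨7149125632, 0, 0, 0⟩ v97; ok v106 && (
  let v107 := add v105 v106; ok v107 && (
  let v108 := scale ⟨0, 378339328, 0, 0⟩ v98; ok v108 && (
  let v109 := add v107 v108; ok v109 && (
  let v110 := scale ⟨88463272247296, 0, 0, 0⟩ v94; ok v110 && (
  let v111 := add v109 v110; ok v111 && (
  let v112 := scale ⟨14494547836928, 0, 0, 0⟩ v99; ok v112 && (
  let v113 := add v111 v112; ok v113 && (
  let v114 := cst ⟨1085587193856, 0, 0, 0⟩; ok v114 && (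
  let v115 := add v113 v114; ok v115 && (
  let v116 := mul x0 v28; ok v116 && (
  let v117 := mul v116 v115; ok v117 && (
  let v118 := add v117 v0; ok v118 && (
  let v119 := mul v104 v118; ok v119 && (
  let v120 := scale ⟨1099511627776, 0, 0, 0⟩ v101; ok v120 && (
  let v121 := add v120 v0; ok v121 && (
  let v122 := mul v100 v121; ok v122 && (
  let v123 := scale ⟨2199023255552, 0, 0, 0⟩ v122; ok v123 && (
  let v124 := mul v115 v104; ok v124 && (
  let v125 := sub v123 v124; ok v125 && (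
  isPos 2 v125 && (
  let v126 := scale ⟨40736129024, 0, 0, 0⟩ v96; ok v126 && (
  let v127 := scale ⟨0, 1823211520, 0, 0⟩ v97; ok v127 && (
  let v128 := add v126 v127; ok v128 && (
  let v129 := scale ⟨348848128, 0, 0, 0⟩ v98; ok v129 && (
  let v130 := add v128 v129; ok v130 && (
  let v131 := scale ⟨35208210087936, 0, 0, 0⟩ v94; ok v131 && (
  let v132 := add v130 v131; ok v132 && (
  let v133 := scale ⟨2991684190208, 0, 0, 0⟩ v99; ok v133 && (
  let v134 := add v132 v133; ok v134 && (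
  let v135 := cst ⟨414387142656, 0, 0, 0⟩; ok v135 && (
  let v136 := add v134 v135; ok v136 && (
  isPos 2 v136 && (
  let v137 := cst ⟨16771847290880, 0, 0, 0⟩; ok v137 && (
  let v138 := add v29 v137; ok v138 && (
  isPos 2 v138 && (
  let v139 := cst ⟨9160359936, 0, 0, 0⟩; ok v139 && (
  let v140 := sub x0 v139; ok v140 && (
  let v141 := cst ⟨6764573491200, 0, 0, 0⟩; ok v141 && (
  let v142 := sub v10 v141; ok v142 && (
  let v143 := mul v142 v142; ok v143 && (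
  let v144 := mul v143 v142; ok v144 && (
  let v145 := mul v140 v142; ok v145 && (
  let v146 := mul v14 v14; ok v146 && (
  let v147 := mul v146 v146; ok v147 && (
  let v148 := scale ⟨13194139533312, 0, 0, 0⟩ v11; ok v148 && (
  let v149 := neg v148; ok v149 && (
  let v150 := exp v149; ok v150 && (
  let v151 := scale ⟨127757647872, 0, 0, 0⟩ v142; ok v151 && (
  let v152 := scale ⟨5325914112, 0, 0, 0⟩ v143; ok v152 && (
  let v153 := add v151 v152; ok v153 && (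
  let v154 := scale ⟨0, 29491200, 0, 0⟩ v144; ok v154 && (
  let v155 := add v153 v154; ok v155 && (
  let v156 := scale ⟨123671482335232, 0, 0, 0⟩ v140; ok v156 && (
  let v157 := add v155 v156; ok v157 && (
  let v158 := scale ⟨17486232027136, 0, 0, 0⟩ v145; ok v158 && (
  let v159 := add v157 v158; ok v159 && (
  let v160 := cst ⟨1499974336512, 0, 0, 0⟩; ok v160 && (
  let v161 := add v159 v160; ok v161 && (
  let v162 := mul x0 v28; ok v162 && (
  let v163 := mul v162 v161; ok v163 && (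
  let v164 := add v163 v0; ok v164 && (
  let v165 := mul v150 v164; ok v165 && (
  let v166 := scale ⟨1099511627776, 0, 0, 0⟩ v147; ok v166 && (
  let v167 := add v166 v0; ok v167 && (
  let v168 := mul v147 v167; ok v168 && (
  let v169 := add v168 v0; ok v169 && (
  let v170 := mul v146 v169; ok v170 && (
  let v171 := scale ⟨2199023255552, 0, 0, 0⟩ v170; ok v171 && (
  let v172 := mul v161 v150; ok v172 && (
  let v173 := sub v171 v172; ok v173 && (
  isPos 2 v173 && (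
  let v174 := scale ⟨31569084416, 0, 0, 0⟩ v142; ok v174 && (
  let v175 := scale ⟨0, 551682048, 0, 0⟩ v143; ok v175 && (
  let v176 := add v174 v175; ok v176 && (
  let v177 := scale ⟨0, 465371136, 0, 0⟩ v144; ok v177 && (
  let v178 := add v176 v177; ok v178 && (
  let v179 := scale ⟨30322111545344, 0, 0, 0⟩ v140; ok v179 && (
  let v180 := add v178 v179; ok v180 && (
  let v181 := scale ⟨1926702235648, 0, 0, 0⟩ v145; ok v181 && (
  let v182 := add v180 v181; ok v182 && (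
  let v183 := cst ⟨389623775232, 0, 0, 0⟩; ok v183 && (
  let v184 := add v182 v183; ok v184 && (
  isPos 2 v184 && (
  let v185 := cst ⟨17103633514496, 0, 0, 0⟩; ok v185 && (
  let v186 := add v29 v185; ok v186 && (
  isPos 2 v186 && (
  let v187 := cst ⟨9160359936, 0, 0, 0⟩; ok v187 && (
  let v188 := sub x0 v187; ok v188 && (
  let v189 := cst ⟨6764573491200, 0, 0, 0⟩; ok v189 && (
  let v190 := sub v10 v189; ok v190 && (
  let v191 := mul v190 v190; ok v191 && (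
  let v192 := mul v191 v190; ok v192 && (
  let v193 := mul v188 v190; ok v193 && (
  let v194 := mul v14 v14; ok v194 && (
  let v195 := mul v194 v194; ok v195 && (
  let v196 := scale ⟨17592186044416, 0, 0, 0⟩ v11; ok v196 && (
  let v197 := neg v196; ok v197 && (
  let v198 := exp v197; ok v198 && (
  let v199 := scale ⟨159326732288, 0, 0, 0⟩ v190; ok v199 && (
  let v200 := scale ⟨4774232064, 0, 0, 0⟩ v191; ok v200 && (
  let v201 := add v199 v200; ok v201 && (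
  let v202 := scale ⟨0, 494862336, 0, 0⟩ v192; ok v202 && (
  let v203 := add v201 v202; ok v203 && (
  let v204 := scale ⟨153993593880576, 0, 0, 0⟩ v188; ok v204 && (
  let v205 := add v203 v204; ok v205 && (
  let v206 := scale ⟨19412934262784, 0, 0, 0⟩ v193; ok v206 && (
  let v207 := add v205 v206; ok v207 && (
  let v208 := cst ⟨1889598111744, 0, 0, 0⟩; ok v208 && (
  let v209 := add v207 v208; ok v209 && (
  let v210 := mul x0 v28; ok v210 && (
  let v211 := mul v210 v209; ok v211 && (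
  let v212 := add v211 v0; ok v212 && (
  let v213 := mul v198 v212; ok v213 && (
  let v214 := scale ⟨1099511627776, 0, 0, 0⟩ v195; ok v214 && (
  let v215 := add v214 v0; ok v215 && (
  let v216 := mul v195 v215; ok v216 && (
  let v217 := add v216 v0; ok v217 && (
  let v218 := mul v195 v217; ok v218 && (
  let v219 := add v218 v0; ok v219 && (
  let v220 := mul v194 v219; ok v220 && (
  let v221 := scale ⟨2199023255552, 0, 0, 0⟩ v220; ok v221 && (
  let v222 := mul v209 v198; ok v222 && (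
  let v223 := sub v221 v222; ok v223 && (
  isPos 2 v223 && (
  let v224 := scale ⟨22686728192, 0, 0, 0⟩ v190; ok v224 && (
  let v225 := scale ⟨0, 941948928, 0, 0⟩ v191; ok v225 && (
  let v226 := add v224 v225; ok v226 && (
  let v227 := scale ⟨0, 62586880, 0, 0⟩ v192; ok v227 && (
  let v228 := add v226 v227; ok v228 && (
  let v229 := scale ⟨24990587486208, 0, 0, 0⟩ v188; ok v229 && (
  let v230 := add v228 v229; ok v230 && (
  let v231 := scale ⟨623013396480, 0, 0, 0⟩ v193; ok v231 && (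
  let v232 := add v230 v231; ok v232 && (
  let v233 := cst ⟨368838180864, 0, 0, 0⟩; ok v233 && (
  let v234 := add v232 v233; ok v234 && (
  isPos 2 v234 && (
  let v235 := cst ⟨15794742231040, 0, 0, 0⟩; ok v235 && (
  let v236 := add v29 v235; ok v236 && (
  isPos 2 v236 && (
  let v237 := cst ⟨9160359936, 0, 0, 0⟩; ok v237 && (
  let v238 := sub x0 v237; ok v238 && (
  let v239 := cst ⟨6764573491200, 0, 0, 0⟩; ok v239 && (
  let v240 := sub v10 v239; ok v240 && (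
  let v241 := mul v240 v240; ok v241 && (
  let v242 := mul v241 v240; ok v242 && (
  let v243 := mul v238 v240; ok v243 && (
  let v244 := mul v14 v14; ok v244 && (
  let v245 := mul v244 v244; ok v245 && (
  let v246 := scale ⟨21990232555520, 0, 0, 0⟩ v11; ok v246 && (
  let v247 := neg v246; ok v247 && (
  let v248 := exp v247; ok v248 && (
  let v249 := scale ⟨182013460480, 0, 0, 0⟩ v240; ok v249 && (
  let v250 := scale ⟨3832283136, 0, 0, 0⟩ v241; ok v250 && (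
  let v251 := add v249 v250; ok v251 && (
  let v252 := scale ⟨0, 557449216, 0, 0⟩ v242; ok v252 && (
  let v253 := add v251 v252; ok v253 && (
  let v254 := scale ⟨178984181366784, 0, 0, 0⟩ v238; ok v254 && (
  let v255 := add v253 v254; ok v255 && (
  let v256 := scale ⟨20035947659264, 0, 0, 0⟩ v243; ok v256 && (
  let v257 := add v255 v256; ok v257 && (
  let v258 := cst ⟨2258436292608, 0, 0, 0⟩; ok v258 && (
  let v259 := add v257 v258; ok v259 && (
  let v260 := mul x0 v28; ok v260 && (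
  let v261 := mul v260 v259; ok v261 && (
  let v262 := add v261 v0; ok v262 && (
  let v263 := mul v248 v262; ok v263 && (
  let v264 := scale ⟨1099511627776, 0, 0, 0⟩ v245; ok v264 && (
  let v265 := add v264 v0; ok v265 && (
  let v266 := mul v245 v265; ok v266 && (
  let v267 := add v266 v0; ok v267 && (
  let v268 := mul v245 v267; ok v268 && (
  let v269 := add v268 v0; ok v269 && (
  let v270 := mul v245 v269; ok v270 && (
  let v271 := add v270 v0; ok v271 && (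
  let v272 := mul v244 v271; ok v272 && (
  let v273 := scale ⟨2199023255552, 0, 0, 0⟩ v272; ok v273 && (
  let v274 := mul v259 v248; ok v274 && (
  let v275 := sub v273 v274; ok v275 && (
  isPos 2 v275 && (
  let v276 := mul x0 v28; ok v276 && (
  let v277 := mul v276 v259; ok v277 && (
  let v278 := add v277 v0; ok v278 && (
  let v279 := scale ⟨4837850742784, 0, 0, 0⟩ v11; ok v279 && (
  let v280 := neg v279; ok v280 && (
  let v281 := exp v280; ok v281 && (
  let v282 := mul v278 v281; ok v282 && (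
  isLt v282 1099511627520 && (
  true))))))))))))))))))))))))))))))))))))))))))))))))))))))))))))))))))))))))))))))))))))))))))))))))))))))))))))))))))))))))))))))))))))))))))))))))))))))))))))))))))))))))))))))))))))))))))))))))))))))))))))))))))))))))))))))))))))))))))))))))))))))))))))))))))))))))))))))))))))))))))))))))))))))))))))
  | _ => false

set_option maxRecDepth 1000000 in
theorem c_S_0_eq (X : XOps) (m : List X.O.α)
    (h : c_S_0 X.O.cst X.O.add X.O.sub X.O.mul X.O.scale X.O.neg X.O.inv X.O.exp X.O.log X.O.ok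
      X.O.isPos X.O.isLt X.ball X.rball m = true) :
    runX X 2 p_S_0 m = true := by
  match m, h with
  | [x0, x1], h => exact h

abbrev gS : List (List Op) := [p_S_0]

noncomputable abbrev kS : List (List xE.O.α → Bool) := [c_S_0 xE.O.cst xE.O.add xE.O.sub xE.O.mul xE.O.scale xE.O.neg xE.O.inv xE.O.exp xE.O.log xE.O.ok
      xE.O.isPos xE.O.isLt xE.ball xE.rball]

theorem kS_eq : List.Forall₂ (fun (ops : List Op) (chk : List xE.O.α → Bool) =>
    ∀ m, chk m = true → runX xE 2 ops m = true) gS kS :=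
  List.Forall₂.cons (c_S_0_eq xE) List.Forall₂.nil

theorem gS_eq : gS = [PSS tab 5] := by decide +kernel

end Pool.Agent.helper14.NS.Q100g
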