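import Pool.Agent.helper14.NS.Cert

/-!
Generated: table Q100g.
-/

namespace Pool.Agent.helper14.NS.Q100g

open Pool.Agent.helper63.NF Pool.Agent.helper4.NS

def tab : TD where
  strip := false
  bm := some (39206605525352448, -1087313645928448, 7774976081920, 6047313952768)
  ec := 9160359936
  bc := 6764573491200
  H := [[[21466226688, -5366331456, 110998656, -15596544], [2382337484672, 192313674880], [-4121748890880]], [[-921568384, 366788544, -8216512], [-109440821824, -2116265152]], [[15107456, -15862656, 261824], [2379700096]], [[341440, 408192], [-31099520]], [[-27456, -4736]], [[576]], [[0]]]
  pol := some ⟨-4686346190848, -281251638411264, 5872294035456, 31362867265536, [[-249762831488, 64432336512], [-25828905312512, 0]], [[631732208256, -128483546496], [52400427391360, 0]]⟩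
  a := [[[109951188992, 0, 0, 0], [0, 0]], [[33210630144, 79101952, 119209984, -14024704], [24100798464, -42952556544]], [[33069989888, 13762560, 0, 0], [10172956672, 1657012224]], [[32900907008, -13697024, 0, 0], [-10120790016, -1641545728]], [[33154859008, 27656192, 0, 0], [20398342144, 3329687552]]]
  j := [0, 1511828488192, 2886218022912, 4260607557632, 5772436045824]
  c := [659814350848, 989453090816, 769604452352, 549755813888, 439697276928]
  M := [[[[1117554802688, 7806058496, 280166400], [4812293341184, 1494196092928], [237954307653632]], [[35868246016, -1614741504], [3342828175360]], [[6062276608, 428146688], [580818173952]], [[11042947072]], [[-1083244544]], [[9708306432]]], [[[1111555309568, 3945660416, -258539520], [3032325685248]], [[5827788800, 67371008], [579731652608]], [[-83230720]], [[1507328]]], [[[1108446347264, 4471390208, -373751808], [2938102349824]], [[6144851968, 46071808], [586610573312]], [[-93454336]], [[1638400]]], [[[1106181750784, 4440653824, -14090240], [2736392175616]], [[6352994304, 12517376], [608772423680]], [[-97320960]], [[1703936]]], [[[1103486320640, 4228907008, 260308992], [2665992617984]], [[6629294080, 4915200], [611406905344]], [[-106954752]], [[1835008]]]]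
  l0 := [[[3720631185856, -154883620672], [-64380517069248]], [[1090538916096, 186386047296], [50958487848640]], [[772257128320, 13517293120], [17680895421568]], [[1211831444224, 683669217024], [229916822199488]], [[-5391925041664, -121470390592], [-23959539433664]], [[19167964720640, 1828609138304], [626238666229824]], [[-60175633881600]], [[137560478823680]], [[-245885997430272]], [[341453142121600]], [[-299975402458880]], [[207892282438464]]]
  q0 := [[284610962752, 56593789760, -1135985856], [36263186745088, 5224298552832], [-293955435082240]]
  t := [[[634817871872, 34902638592, 9623896064, -816906240], [46614906863616, 10701907558400]], [[450769321984, 52118880256, -2474770432, 438566912], [41848365383680, 3792640278528]], [[414387142656, 40736129024, -1823211520, 348848128], [35208210087936, 2991684190208]], [[389623775232, 31569084416, -551682048, -465371136], [30322111545344, 1926702235648]], [[368838180864, 22686728192, -941948928, -62586880], [24990587486208, 623013396480]]]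
  y := [11340861145088, 14885282906112, 16771847290880, 17103633514496, 15794742231040]
  sc := [0, 0, 0, 0, 0]
  L := [(0, 2), (0, 3), (1, 1), (2, 0)]
  Lt := [(0, 2), (0, 3), (1, 1)]
  far := 4
  x2 := 10775214161920
  B1 := 1979120091136
  C2 := 1716310500352
  f1 := 0
  f2 := 0
  f3 := 0
  is1 := 8796093022208
  s1 := 137438953472

end Pool.Agent.helper14.NS.Q100g
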